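import Pool.Agent.Work.MP_f82ddf_H.Interface

set_option autoImplicit false

/-! # THEOREM H, block DS2: products of irreducible factors -/

open Pool.Agent.Work.MP_f82ddf_nt.DQ

namespace Pool.MPH

open MvPolynomial
open Pool.ThmM.Chow (Mov)
open Pool.MPL (RX)

/-- A factor which is not moving. -/
theorem DS2_fix (hMIR : Pool.MPL.Stmt_MIR) {σ : Type} [Finite σ] {b : ℕ}
    (H : MvPolynomial σ (RX b)) (hH : H ≠ 0) (hm : ¬ MovR H) :
    ∃ D : RX b, D ≠ 0 ∧ ∀ (α : ℂ ≃+* ℂ) (φ : RX b →+* Mer),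
      (∀ z : ℂ, φ (C z) = algebraMap ℂ Mer (α z)) →
      ∀ P : MvPolynomial σ Mer, Irreducible P → Mov P → φ D ≠ 0 → ¬ P ∣ map φ H := by
  unfold MovR at hm
  push Not at hm
  obtain ⟨c, G, hG⟩ := hm
  have hc : c ≠ 0 := by
    rintro rfl
    apply hH
    rw [hG, C_0, zero_mul]
  have hG0 : G ≠ 0 := by
    rintro rfl
    apply hH
    rw [hG, map_zero, mul_zero]
  refine ⟨c, hc, ?_⟩
  intro α φ hα P hP hMov hφ hdvd
  have h1 : map φ H = C (φ c) * map (algebraMap ℂ Mer) (map (α : ℂ →+* ℂ) G) := by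
    rw [hG, map_mul, map_C, map_map, map_map]
    have h0 : φ.comp (algebraMap ℂ (RX b)) = (algebraMap ℂ Mer).comp (α : ℂ →+* ℂ) := by
      apply RingHom.ext
      intro z
      exact hα z
    rw [h0]
  rw [h1] at hdvd
  rcases hP.prime.dvd_or_dvd hdvd with h2 | h2
  · exact hP.not_isUnit (isUnit_of_dvd_unit h2 ((IsUnit.mk0 _ hφ).map C))
  · refine hMIR σ P (map (α : ℂ →+* ℂ) G) hP hMov ?_ h2
    intro h3
    apply hG0
    apply map_injective (α : ℂ →+* ℂ) α.injective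
    rw [h3, map_zero]

/-- One factor against a list of factors. -/
theorem DS2_pairs (hDS1 : Stmt_DS1) {σ : Type} [Finite σ] {b : ℕ}
    (H : MvPolynomial σ (RX b)) (hH : Irreducible H) (L : List (MvPolynomial σ (RX b)))
    (hL : ∀ H' ∈ L, Irreducible H') (hA : ∀ H' ∈ L, ¬ Associated H H') :
    ∃ D : RX b, D ≠ 0 ∧ ∀ (φ : RX b →+* Mer) (P : MvPolynomial σ Mer), Irreducible P →
      φ D ≠ 0 → P ∣ map φ H → ∀ H' ∈ L, ¬ P ∣ map φ H' := by
  induction L with
  | nil =>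
    refine ⟨1, one_ne_zero, ?_⟩
    intro φ P _ _ _ H' hH'
    exact absurd hH' List.not_mem_nil
  | cons K L ih =>
    obtain ⟨D₁, hD₁, h₁⟩ := ih (fun H' h => hL H' (List.mem_cons_of_mem _ h))
      (fun H' h => hA H' (List.mem_cons_of_mem _ h))
    obtain ⟨D₂, hD₂, h₂⟩ := hDS1 σ (RX b) H K hH (hL K List.mem_cons_self)
      (hA K List.mem_cons_self)
    refine ⟨D₁ * D₂, mul_ne_zero hD₁ hD₂, ?_⟩
    intro φ P hP hφ hPH H' hH' hPH'
    rw [map_mul] at hφ
    rcases List.mem_cons.mp hH' with h | h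
    · rw [h] at hPH'
      exact right_ne_zero_of_mul hφ (h₂ Mer φ P hP hPH hPH')
    · exact h₁ φ P hP (left_ne_zero_of_mul hφ) hPH H' h hPH'

/-- A list of irreducible factors. -/
theorem DS2_list (hDS1 : Stmt_DS1) (hDSC : Pool.MPL.Stmt_DSC) (hMIR : Pool.MPL.Stmt_MIR)
    {σ : Type} [Finite σ] {b : ℕ} (L : List (MvPolynomial σ (RX b)))
    (hL : ∀ H ∈ L, Irreducible H)
    (hA : L.Pairwise fun H H' => ¬ (MovR H ∧ Associated H H')) :
    ∃ D : RX b, D ≠ 0 ∧ ∀ (α : ℂ ≃+* ℂ) (φ : RX b →+* Mer),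
      (∀ z : ℂ, φ (C z) = algebraMap ℂ Mer (α z)) →
      ∀ P : MvPolynomial σ Mer, Irreducible P → Mov P → φ D ≠ 0 → ¬ P ^ 2 ∣ map φ L.prod := by
  induction L with
  | nil =>
    refine ⟨1, one_ne_zero, ?_⟩
    intro α φ _ P hP _ _ hdvd
    rw [List.prod_nil, map_one] at hdvd
    exact hP.not_isUnit ((isUnit_pow_iff two_ne_zero).mp (isUnit_of_dvd_one hdvd))
  | cons H L ih =>
    rw [List.pairwise_cons] at hA
    obtain ⟨D₁, hD₁, h₁⟩ := ih (fun H' h => hL H' (List.mem_cons_of_mem _ h)) hA.2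
    have hHi : Irreducible H := hL H List.mem_cons_self
    by_cases hm : MovR H
    · obtain ⟨D₂, hD₂, h₂⟩ := hDSC σ (RX b) H hHi
      obtain ⟨D₃, hD₃, h₃⟩ := DS2_pairs hDS1 H hHi L
        (fun H' h => hL H' (List.mem_cons_of_mem _ h)) (fun H' h hh => hA.1 H' h ⟨hm, hh⟩)
      refine ⟨D₁ * D₂ * D₃, mul_ne_zero (mul_ne_zero hD₁ hD₂) hD₃, ?_⟩
      intro α φ hα P hP hMov hφ hdvd
      rw [map_mul, map_mul] at hφ
      have e₃ := right_ne_zero_of_mul hφ
      have e₂ := right_ne_zero_of_mul (left_ne_zero_of_mul hφ)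
      have e₁ := left_ne_zero_of_mul (left_ne_zero_of_mul hφ)
      rw [List.prod_cons, map_mul] at hdvd
      by_cases hPH : P ∣ map φ H
      · have h4 : ¬ P ∣ map φ L.prod := by
          intro h5
          rw [map_list_prod, Prime.dvd_prod_iff hP.prime] at h5
          obtain ⟨Q, hQ, hPQ⟩ := h5
          obtain ⟨H', hH', rfl⟩ := List.mem_map.mp hQ
          exact h₃ φ P hP e₃ hPH H' hH' hPQ
        have h6 : P ^ 2 ∣ map φ H := Prime.pow_dvd_of_dvd_mul_right hP.prime 2 h4 hdvd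
        exact e₂ (h₂ Mer φ P hP h6)
      · have h6 : P ^ 2 ∣ map φ L.prod := Prime.pow_dvd_of_dvd_mul_left hP.prime 2 hPH hdvd
        exact h₁ α φ hα P hP hMov e₁ h6
    · obtain ⟨D₂, hD₂, h₂⟩ := DS2_fix hMIR H hHi.ne_zero hm
      refine ⟨D₁ * D₂, mul_ne_zero hD₁ hD₂, ?_⟩
      intro α φ hα P hP hMov hφ hdvd
      rw [map_mul] at hφ
      rw [List.prod_cons, map_mul] at hdvd
      have hPH : ¬ P ∣ map φ H := h₂ α φ hα P hP hMov (right_ne_zero_of_mul hφ)
      have h6 : P ^ 2 ∣ map φ L.prod := Prime.pow_dvd_of_dvd_mul_left hP.prime 2 hPH hdvd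
      exact h₁ α φ hα P hP hMov (left_ne_zero_of_mul hφ) h6

/-- Two associated moving factors of a product. -/
theorem DS2_pairwise {σ : Type} {b : ℕ} (L : List (MvPolynomial σ (RX b)))
    (hL : ∀ H ∈ L, Irreducible H)
    (hsq : ∀ H : MvPolynomial σ (RX b), Irreducible H → MovR H → ¬ H ^ 2 ∣ L.prod) :
    L.Pairwise fun H H' => ¬ (MovR H ∧ Associated H H') := by
  induction L with
  | nil => exact List.Pairwise.nil
  | cons H L ih =>
    rw [List.pairwise_cons]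
    constructor
    · rintro H' hH' ⟨hm, hass⟩
      apply hsq H (hL H List.mem_cons_self) hm
      rw [List.prod_cons, pow_two]
      exact mul_dvd_mul_left _ (hass.dvd.trans (List.dvd_prod hH'))
    · apply ih (fun H' h => hL H' (List.mem_cons_of_mem _ h))
      intro H' hH' hm hdvd
      apply hsq H' hH' hm
      rw [List.prod_cons]
      exact hdvd.mul_left _

theorem p_DS2 : Stmt_DS1 → Pool.MPL.Stmt_DSC → Pool.MPL.Stmt_MIR → Stmt_DS2 := by
  intro hDS1 hDSC hMIR σ _ b U hU hsq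
  obtain ⟨f, hf, hfU⟩ := WfDvdMonoid.exists_factors U hU
  have hlist : f.toList.prod = f.prod := Multiset.prod_toList f
  have hL : ∀ H ∈ f.toList, Irreducible H := fun H hH => hf H (Multiset.mem_toList.mp hH)
  have hA : Associated f.toList.prod U := by rw [hlist]; exact hfU
  have hsq' : ∀ H : MvPolynomial σ (RX b), Irreducible H → MovR H → ¬ H ^ 2 ∣ f.toList.prod := by
    intro H hH hm hdvd
    exact hsq H hH hm (hdvd.trans hA.dvd)
  obtain ⟨D, hD, h⟩ := DS2_list hDS1 hDSC hMIR f.toList hL (DS2_pairwise _ hL hsq')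
  refine ⟨D, hD, ?_⟩
  intro α φ hα P hP hMov hdvd
  by_contra hφ
  apply h α φ hα P hP hMov hφ
  exact hdvd.trans (map_dvd (map φ) hA.symm.dvd)

end Pool.MPH
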