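import Pool.Agent.Work.MP_f82ddf_H.Interface

set_option autoImplicit false

/-! # THEOREM H, block BPF: the orders of `v(y)` for forms `v` without common zero -/

namespace Pool.MPH

open MvPolynomial Finset Pool.Agent.Work.MP_f82ddf_nt Pool.Agent.Work.MP_f82ddf_nt.DQ Pool.ThmM
  Pool.ThmM0 Pool.ThmP

/-- homogeneous forms at a multiple of a point -/
theorem BPF_smul {R κ σ : Type} [CommSemiring R] [CommSemiring κ] (φ : R →+* κ)
    {F : MvPolynomial σ R} {e : ℕ} (hF : F.IsHomogeneous e) (c : κ) (x : σ → κ) :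
    eval₂ φ (fun i => c * x i) F = c ^ e * eval₂ φ x F := by
  rw [eval₂_eq, eval₂_eq, Finset.mul_sum]
  refine Finset.sum_congr rfl fun m hm => ?_
  have hd : ∑ i ∈ m.support, m i = e := by
    have h := hF (mem_support_iff.1 hm)
    rw [← h, Finsupp.weight_apply, Finsupp.sum]
    simp
  have h1 : ∏ i ∈ m.support, (c * x i) ^ m i = c ^ e * ∏ i ∈ m.support, x i ^ m i := by
    simp only [mul_pow]
    rw [Finset.prod_mul_distrib, Finset.prod_pow_eq_pow_sum, hd]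
  rw [h1]
  ring

/-- a point with values in the local ring -/
theorem BPF_loc {R σ : Type} [Field R] (φ : R →+* ℂ) (O : Subalgebra ℂ Mer)
    (θ : O →ₐ[ℂ] ℂ) (x : σ → O) (F : MvPolynomial σ R) :
    ∃ h : eval₂ ((algebraMap ℂ Mer).comp φ) (fun i => (x i : Mer)) F ∈ O,
      θ ⟨eval₂ ((algebraMap ℂ Mer).comp φ) (fun i => (x i : Mer)) F, h⟩ =
        eval₂ φ (fun i => θ (x i)) F := by
  have h1 : ((eval₂ ((algebraMap ℂ O).comp φ) x F : O) : Mer) =
      eval₂ ((algebraMap ℂ Mer).comp φ) (fun i => (x i : Mer)) F := by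
    have h := eval₂_comp_left (O.val : O →+* Mer) ((algebraMap ℂ O).comp φ) x F
    exact h
  have h2 : eval₂ ((algebraMap ℂ Mer).comp φ) (fun i => (x i : Mer)) F ∈ O :=
    h1 ▸ (eval₂ ((algebraMap ℂ O).comp φ) x F : O).2
  refine ⟨h2, ?_⟩
  have h3 : (⟨eval₂ ((algebraMap ℂ Mer).comp φ) (fun i => (x i : Mer)) F, h2⟩ : O) =
      eval₂ ((algebraMap ℂ O).comp φ) x F := Subtype.ext h1.symm
  rw [h3]
  have h := eval₂_comp_left (θ : O →+* ℂ) ((algebraMap ℂ O).comp φ) x F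
  have h4 : ((θ : O →+* ℂ).comp ((algebraMap ℂ O).comp φ)) = φ := by
    ext a
    simp
  rw [h4] at h
  exact h

/-- nonnegative orders are `0` or at least `1` -/
theorem BPF_cases {a : WithTop ℤ} (h : 0 ≤ a) : a = 0 ∨ 1 ≤ a := by
  induction a using WithTop.recTopCoe with
  | top => exact Or.inr le_top
  | coe a =>
    have h3 : (0 : ℤ) ≤ a := by exact_mod_cast h
    rcases (by omega : a = 0 ∨ 1 ≤ a) with h4 | h4
    · left
      rw [h4]
      rfl
    · right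
      exact_mod_cast h4

theorem BPF_om_zero {z : ℂ} {O : Subalgebra ℂ Mer} {θ : O →ₐ[ℂ] ℂ}
    (h : Pool.ThmM.Chow.LocAt z O θ) (f : O) (hf : θ f ≠ 0) : om (f : Mer) z = 0 := by
  rcases BPF_cases ((h.mem _).1 f.2) with h1 | h1
  · exact h1
  · exact absurd ((h.zero f).2 h1) hf

/-- the order of a tuple is the order of an entry of minimal order -/
theorem BPF_dv (hV : Pool.ThmM.Stmt_VAL) (hD : Pool.ThmM.Stmt_ORD) {ι : Type} [Fintype ι]
    (c : ι → Mer) (z : ℂ) (i : ι) (hi : c i ≠ 0) (hmin : ∀ j, om (c i) z ≤ om (c j) z) :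
    om (c i) z = ((dv c z : ℤ) : WithTop ℤ) := by
  obtain ⟨v1, v2, v3, v4, v5, v6⟩ := hV z
  have hc : c ≠ 0 := fun h => hi (congrFun h i)
  obtain ⟨hD1, i', hi', hD2⟩ := (hD ι c).2 hc z
  apply le_antisymm
  · have h1 := hmin i'
    rw [v5 _ hi', hD2] at h1
    exact h1
  · rw [v5 _ hi]
    exact_mod_cast hD1 i hi

/-- the order of a power -/
theorem BPF_pow (hV : Pool.ThmM.Stmt_VAL) (f : Mer) (z : ℂ) (k : ℤ)
    (h : om f z = (k : WithTop ℤ)) (n : ℕ) : om (f ^ n) z = ((n * k : ℤ) : WithTop ℤ) := by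
  obtain ⟨v1, v2, v3, v4, v5, v6⟩ := hV z
  induction n with
  | zero =>
    have h1 := v4 1 one_ne_zero
    rw [map_one] at h1
    rw [pow_zero, h1]
    simp
  | succ n ih =>
    rw [pow_succ, v1, ih, h, ← WithTop.coe_add]
    congr 1
    push_cast
    ring

/-- Forms without common zero at a point over `Ω` have no common zero at points over larger
fields. -/
theorem BPF_nul (hNUL : Pool.ThmP.Stmt_NUL) {Ω κ : Type} [Field Ω] [IsAlgClosed Ω] [Field κ]
    {b r : ℕ} (v : Fin (r + 1) → MvPolynomial (Fin (b + 1)) Ω)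
    (hv : ∀ w : Fin (b + 1) → Ω, w ≠ 0 → ∃ i, eval w (v i) ≠ 0)
    (τ : Ω →+* κ) (y : Fin (b + 1) → κ) (hy : y ≠ 0) : ∃ i, eval₂ τ y (v i) ≠ 0 := by
  by_contra hcon
  push Not at hcon
  apply hy
  funext j
  have h1 := hNUL Ω Ω κ b ∅ (Set.range v) (X j) ?_ τ y ?_ ?_
  · rw [eval₂_X] at h1
    exact h1
  · intro w _ hw
    by_contra hwj
    rw [eval_X] at hwj
    obtain ⟨i, hi⟩ := hv w (fun h => hwj (by rw [h]; rfl))
    exact hi (hw (v i) ⟨i, rfl⟩)
  · intro F hF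
    exact absurd hF (Set.notMem_empty _)
  · rintro H ⟨i, rfl⟩
    exact hcon i

theorem p_BPF : Pool.ThmP.Stmt_NUL → Pool.ThmM.Stmt_VAL → Pool.ThmM.Stmt_ORD →
    Pool.ThmM.Chow.Stmt_OZE → Stmt_BPF := by
  intro hNUL hV hD hO Ω _ _ b r e v hve hv τ y hy
  refine ⟨BPF_nul hNUL v hv (tm τ) y hy, ?_⟩
  intro z₀
  obtain ⟨v1, v2, v3, v4, v5, v6⟩ := hV z₀
  obtain ⟨O, θ, hOθ⟩ := hO z₀
  -- a coordinate of minimal order
  obtain ⟨i₁, -, hi₁⟩ := Finset.exists_min_image (Finset.univ : Finset (Fin (b + 1)))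
    (fun i => om (y i) z₀) Finset.univ_nonempty
  have hxi : y i₁ ≠ 0 := by
    intro h0
    apply hy
    funext i
    have h := hi₁ i (Finset.mem_univ _)
    rw [(v3 (y i₁)).2 h0, top_le_iff, v3] at h
    exact h
  have hfin : om (y i₁) z₀ ≠ ⊤ := fun h => hxi ((v3 _).1 h)
  have hx'0 : ∀ i, 0 ≤ om ((y i₁)⁻¹ * y i) z₀ := by
    intro i
    have h1 : om ((y i₁)⁻¹ * y i) z₀ + om (y i₁) z₀ = om (y i) z₀ := by
      rw [← v1]
      congr 1
      field_simp
    have h2 := hi₁ i (Finset.mem_univ _)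
    change om (y i₁) z₀ ≤ om (y i) z₀ at h2
    rw [← h1] at h2
    by_contra h3
    rw [not_le] at h3
    have h4 := WithTop.add_lt_add_right hfin h3
    rw [zero_add] at h4
    exact absurd h4 (not_lt.2 h2)
  -- the point with values in the local ring
  obtain ⟨xo, hxo⟩ : ∃ xo : Fin (b + 1) → O, ∀ i, (xo i : Mer) = (y i₁)⁻¹ * y i :=
    ⟨fun i => ⟨(y i₁)⁻¹ * y i, (hOθ.mem _).2 (hx'0 i)⟩, fun _ => rfl⟩
  have hxo' : (fun i => (xo i : Mer)) = fun i => (y i₁)⁻¹ * y i := funext hxo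
  obtain ⟨x', hx'⟩ : ∃ x' : Fin (b + 1) → Mer, x' = fun i => (y i₁)⁻¹ * y i := ⟨_, rfl⟩
  have hxx : y = fun i => y i₁ * x' i := by
    funext i
    rw [hx']
    field_simp
  obtain ⟨p, hp⟩ : ∃ p : Fin (b + 1) → ℂ, p = fun i => θ (xo i) := ⟨_, rfl⟩
  have hp1 : p i₁ = 1 := by
    have h1 : xo i₁ = 1 := by
      apply Subtype.ext
      rw [hxo]
      exact inv_mul_cancel₀ hxi
    rw [hp]
    change θ (xo i₁) = 1
    rw [h1, map_one]
  have hp0 : p ≠ 0 := by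
    intro h
    have h1 := congrFun h i₁
    rw [hp1] at h1
    exact one_ne_zero h1
  have hev : ∀ F : MvPolynomial (Fin (b + 1)) Ω, ∃ f : O, (f : Mer) = eval₂ (tm τ) x' F ∧
      θ f = eval₂ τ p F := by
    intro F
    obtain ⟨h1, h2⟩ := BPF_loc τ O θ xo F
    refine ⟨⟨_, h1⟩, ?_, ?_⟩
    · change eval₂ ((algebraMap ℂ Mer).comp τ) (fun i => (xo i : Mer)) F = _
      rw [hxo', hx']
      rfl
    · rw [h2, hp]
  have hev0 : ∀ F : MvPolynomial (Fin (b + 1)) Ω, 0 ≤ om (eval₂ (tm τ) x' F) z₀ := by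
    intro F
    obtain ⟨f, hf, -⟩ := hev F
    rw [← hf]
    exact (hOθ.mem _).1 f.2
  -- an entry of order `0`
  obtain ⟨i, hi⟩ := BPF_nul hNUL v hv τ p hp0
  obtain ⟨f, hf, hf'⟩ := hev (v i)
  have hoi : om (eval₂ (tm τ) x' (v i)) z₀ = 0 := by
    rw [← hf]
    exact BPF_om_zero hOθ f (by rw [hf']; exact hi)
  -- orders
  have hdy : om (y i₁) z₀ = ((dv y z₀ : ℤ) : WithTop ℤ) :=
    BPF_dv hV hD y z₀ i₁ hxi fun j => hi₁ j (Finset.mem_univ _)
  have hsc : ∀ j, eval₂ (tm τ) y (v j) = y i₁ ^ e * eval₂ (tm τ) x' (v j) := by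
    intro j
    conv_lhs => rw [hxx]
    exact BPF_smul _ (hve j) _ _
  have hpow := BPF_pow hV (y i₁) z₀ _ hdy e
  have hom : om (eval₂ (tm τ) y (v i)) z₀ = ((e * dv y z₀ : ℤ) : WithTop ℤ) := by
    rw [hsc, v1, hoi, add_zero, hpow]
  have hne : eval₂ (tm τ) y (v i) ≠ 0 := by
    intro h
    rw [(v3 _).2 h] at hom
    exact WithTop.top_ne_coe hom
  have h2 := BPF_dv hV hD (fun i => eval₂ (tm τ) y (v i)) z₀ i hne (by
    intro j
    change om (eval₂ (tm τ) y (v i)) z₀ ≤ om (eval₂ (tm τ) y (v j)) z₀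
    rw [hom, hsc j, v1, hpow]
    exact le_add_of_nonneg_right (hev0 _))
  change om (eval₂ (tm τ) y (v i)) z₀ = _ at h2
  rw [hom] at h2
  exact (WithTop.coe_injective h2).symm

end Pool.MPH
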