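import Pool.Agent.Work.MP_f82ddf_H.Interface
import Pool.Agent.Work.MP_f82ddf_M.C_CORE

set_option autoImplicit false

/-! # Block CORS: every moving irreducible factor passes through some node (the proof of CORF with
`R = P`) -/

open Topology Filter
open scoped Differential
open Pool.Agent.Work.MP_f82ddf_nt.DQ

namespace Pool.MPH

open MvPolynomial
open Pool.Agent.Work.MP_f82ddf_M5 (lineAt resAt chow at2 comb Data)
open Pool.ThmM
open Pool.ThmM.Chow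

/-- the order at a node -/
theorem CORS_node (hPHG : Stmt_PHG) (hV : Pool.ThmM.Stmt_VAL)
    {r w e0 : ℕ} {Q : MvPolynomial (Fin (w + 2)) ℂ}
    {A : Fin (r + 1) → MvPolynomial (Fin (w + 2)) ℂ} {T : Finset (Fin (r + 1) → ℂ)}
    {lift : (Fin (r + 1) → ℂ) → (Fin (w + 2) → ℂ)} (h : HypData r w (e0 + 1) Q A T lift)
    (x : Fin (r + 1) → Mer) (hx0 : x ≠ 0)
    (hTs : ∀ y : Fin (r + 1) → ℂ, (∀ u ∈ T, ∑ i, u i * y i = 0) → y = 0)
    (hne0 : ∀ u ∈ T, ∑ i, algebraMap ℂ Mer (u i) * x i ≠ 0)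
    {u : Fin (r + 1) → ℂ} (hu : u ∈ T) :
    (∑ i, x i * algebraMap ℂ Mer (eval (lift u) (A i))) ≠ 0 ∧
    ∀ z, vP (subC Mer (gU (lift u)) (Phi Mer (e0 + 1) Q A x)) z =
      ((dv1 (∑ i, algebraMap ℂ Mer (u i) * x i) z + e0 * dv x z : ℤ) : WithTop ℤ) := by
  obtain ⟨c, hc, hval⟩ := CORE_val h x hu
  have hs0 : ∑ i, algebraMap ℂ Mer (u i) * x i ≠ 0 := hne0 u hu
  have hc' : algebraMap ℂ Mer c ≠ 0 := by
    intro h0
    apply hc
    exact (map_eq_zero (algebraMap ℂ Mer)).1 h0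
  have hne : (∑ i, x i * algebraMap ℂ Mer (eval (lift u) (A i))) ≠ 0 := by
    rw [hval]
    exact mul_ne_zero hc' hs0
  refine ⟨hne, fun z => ?_⟩
  have hD := CORE_data h hTs
  have h3 := (hPHG (w + 2) r e0 Q A x z hD hx0).2.2 (lift u) (h.zero u hu) ⟨_, h.smooth u hu⟩
  have h4 := (hV z).2.2.2.2.1 _ hs0
  rw [h3, hval, (hV z).1, (hV z).2.2.2.1 c hc, zero_add, h4, ← WithTop.coe_add]

theorem p_CORS (hCHP : Stmt_CHP) (hPLW : Stmt_PLW) (hPFA : Stmt_PFA) (_hFNC : Stmt_FNC)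
    (hFCH : Stmt_FCH) (hPHG : Stmt_PHG) (hLBD : Stmt_LBD) (hHTE : Stmt_HTE)
    (hCOP : Stmt_COP) (hGRO : Stmt_GRO) (hFTL : Stmt_FTL)
    (hNDC : Stmt_NDC) (hEXE : Stmt_EXE) (hNVH : Stmt_NVH) (hCOU : Stmt_COU) (hEND : Stmt_END)
    (hPRJ : Stmt_PRJ) (hV : Pool.ThmM.Stmt_VAL) : Stmt_CORS := by
  classical
  have hcou : ∀ w d ρ : ℕ, ∃ a : ℕ, (2 * (max 1 (d ^ 2)) - 1) * (2 * (a + ρ + w).choose w) <
      (4 * (max 1 (d ^ 2)) - 1) * (a + w).choose w := fun w d ρ =>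
    hCOU w (max 1 (d ^ 2)) ρ (le_max_left _ _)
  choose fa hfa using hcou
  refine ⟨fun w d => (Finset.range (d * d + 1)).sup fun ρ => fa w d ρ + 2 * ρ, ?_⟩
  intro r w d Q A T lift x tr h hdiv hTs hne0 htr3 htrx R hRirr hRmov hRdvd
  by_contra hcon
  push Not at hcon
  have hβ : ∀ ρ, ρ ≤ d * d → fa w d ρ + 2 * ρ ≤
      (Finset.range (d * d + 1)).sup fun ρ => fa w d ρ + 2 * ρ := by
    intro ρ hρ
    exact Finset.le_sup (f := fun ρ => fa w d ρ + 2 * ρ) (Finset.mem_range.2 (by omega))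
  have hd1 := h.hd
  have hD := CORE_data h hTs
  -- `x ≠ 0`
  have hTne : T.Nonempty := by
    rw [Finset.nonempty_iff_ne_empty]
    intro hT
    have h1 := hTs (fun _ => 1) (by
      intro u hu
      rw [hT] at hu
      exact absurd hu (Finset.notMem_empty u))
    exact one_ne_zero (congrFun h1 0)
  have hx0 : x ≠ 0 := by
    intro hx
    obtain ⟨u, hu⟩ := hTne
    apply hne0 u hu
    rw [hx]
    simp
  obtain ⟨e0, he0⟩ : ∃ e0, d = e0 + 1 := ⟨d - 1, by omega⟩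
  obtain ⟨Φ, hΦ⟩ : ∃ Φ, Φ = Phi Mer d Q A x := ⟨_, rfl⟩
  have hv1 : ∀ z, vP Φ z = ((((e0 : ℤ) + 1) * dv x z : ℤ) : WithTop ℤ) := by
    intro z
    rw [hΦ]
    subst he0
    exact (hPHG (w + 2) r e0 Q A x z hD hx0).1
  have hv2 : ∀ e : Fin (w + 2) → ℂ, eval e Q ≠ 0 → ∀ z, vP (subC Mer (gE e) Φ) z =
      ((((e0 : ℤ) + 1) * dv x z : ℤ) : WithTop ℤ) := by
    intro e he z
    rw [hΦ]
    subst he0
    exact (hPHG (w + 2) r e0 Q A x z hD hx0).2.1 e he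
  have hv3 : ∀ u ∈ T, (∑ i, x i * algebraMap ℂ Mer (eval (lift u) (A i))) ≠ 0 ∧
      ∀ z, ∃ b : ℤ, vP (subC Mer (gU (lift u)) Φ) z = ((b : ℤ) : WithTop ℤ) := by
    intro u hu
    rw [hΦ]
    subst he0
    obtain ⟨h1, h2⟩ := CORS_node hPHG hV h x hx0 hTs hne0 hu
    exact ⟨h1, fun z => ⟨_, h2 z⟩⟩
  have hΦ0 : Φ ≠ 0 := CORE_ne (hv1 0)
  have hPlu : PluF (d * d) Φ := by
    rw [hΦ]; exact CORE_plu hCHP x hD
  have hTr : map (tr : Mer →+* Mer) Φ = Φ := by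
    rw [hΦ]; exact CORE_tr hFCH x tr htrx
  obtain ⟨Rc, hΦR⟩ : ∃ Rc, Φ = R * Rc := by rw [hΦ]; exact hRdvd
  have hR0 : R ≠ 0 := hRirr.ne_zero
  have hPR : R ∣ R := dvd_rfl
  obtain ⟨ρ, hρ, hPluR⟩ := hPFA (w + 2) (d * d) Mer R Rc (by rw [← hΦR]; exact hΦ0)
    (by rw [← hΦR]; exact hPlu)
  have hρ1 : 1 ≤ ρ := by
    by_contra hρ0
    have hρ0' : ρ = 0 := by omega
    rw [hρ0'] at hPluR
    have h1 := CORE_const hPLW R hPluR
    apply hRirr.not_isUnit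
    rw [h1]
    refine IsUnit.map C (isUnit_iff_ne_zero.2 ?_)
    intro h2
    apply hR0
    rw [h1, h2, C_0]
  have hcop : IsRelPrime R (dz R) := by
    have h1 := hCOP _ {R} (fun P hP => by
      rw [Finset.mem_singleton] at hP
      rw [hP]
      exact ⟨hRirr, hRmov⟩) (by
      intro P hP P' hP' _
      rw [Finset.mem_singleton] at hP hP'
      rw [hP, hP'])
    rwa [Finset.prod_singleton] at h1
  -- nodes
  have hnod : ∀ u ∈ T, ∀ z, vP (subC Mer (gU (lift u)) R) z ≠ vP R z + 1 := hcon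
  have hgU : ∀ u ∈ T, subC Mer (gU (lift u)) R ≠ 0 := by
    intro u hu h0
    obtain ⟨b, hn1⟩ := (hv3 u hu).2 0
    apply CORE_ne hn1
    rw [hΦR, map_mul, h0, zero_mul]
  -- the centre of projection
  obtain ⟨e, heQ, hel, heT, hrel⟩ := hEXE w ρ Q (T.image lift) R h.irr.ne_zero hρ1 hPluR hR0 hcop
    (by
      intro u hu
      obtain ⟨u', hu', rfl⟩ := Finset.mem_image.1 hu
      exact ⟨_, h.smooth u' hu'⟩)
    (by
      intro u hu
      obtain ⟨u', hu', rfl⟩ := Finset.mem_image.1 hu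
      exact hgU u' hu')
  have hgE0 : subC Mer (gE e) R ≠ 0 := by
    intro h0
    apply CORE_ne (hv2 e heQ 0)
    rw [hΦR, map_mul, h0, zero_mul]
  have hL := hLBD (w + 2) r d Q A x e hD hx0 heQ
  rw [← hΦ] at hL
  obtain ⟨hvE, hTE⟩ := hHTE _ _ (gE e) Φ R Rc hΦR hΦ0 (fun z => by rw [hv1, hv2 e heQ]) hL
  obtain ⟨F, hF⟩ : ∃ F, F = subC Mer (gF e) R := ⟨_, rfl⟩
  have hPr := hPRJ w ρ Mer R e hPluR hel
  have hev : ∀ u ∈ T, evC (prj e (lift u)) F ≠ 0 := by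
    intro u hu
    have h1 := hPr.2.2.2 (lift u)
    rw [← hF] at h1
    change evC (prj e (lift u)) F = evC (ppt (lift u) e) R at h1
    rw [h1]
    exact (heT (lift u) (Finset.mem_image_of_mem _ hu)).2
  have hF0 : F ≠ 0 := by
    obtain ⟨u, hu⟩ := hTne
    intro h0
    apply hev u hu
    rw [h0]
    unfold evC
    exact map_zero _
  -- growth
  have hgr : Tendsto (fun r => TP F r / Real.log r) atTop atTop := by
    have h1 := hGRO _ tr Φ R R htr3 hΦ0 hTr ⟨Rc, hΦR⟩ hPR hRmov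
    obtain ⟨C1, hC1⟩ := hTE
    obtain ⟨C2, hC2⟩ := (hFTL w ρ R e hPluR hel).2 hgE0
    rw [← hF] at hC2
    refine CORE_tend (C := C2 + C1) (fun t ht => ?_) h1
    have h2 := hC1 t ht
    have h3 := hC2 t ht
    linarith
  have hmax : max 1 (d ^ 2) = d ^ 2 := max_eq_right (Nat.one_le_pow _ _ hd1)
  have hcnt := hfa w d ρ
  rw [hmax] at hcnt
  refine hEND w ρ (d ^ 2) (fa w d ρ) F ((fun u => prj e (lift u)) '' (T : Set (Fin (r + 1) → ℂ)))
    (Nat.one_le_pow _ _ hd1) hcnt (by rw [hF]; exact hPr.1) hF0 (by rw [hF]; exact hrel)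
    ?_ ?_ hgr ?_
  · rintro p ⟨u, hu, rfl⟩
    exact hev u hu
  · intro G hG hG0
    refine hNVH w d (fa w d ρ + 2 * ρ) Q (lift '' (T : Set (Fin (r + 1) → ℂ))) e hd1 h.homQ heQ
      hel ?_ G hG ?_
    · intro f hf hf0
      refine hdiv _ f (hβ ρ hρ) hf fun u hu => hf0 _ ⟨u, hu, rfl⟩
    · rintro p ⟨u, hu, rfl⟩
      exact hG0 _ ⟨u, hu, rfl⟩
  · rintro p ⟨u, hu, rfl⟩
    have h1 := hNDC w r d ρ Q A x (lift u) e R Rc hd1 hD (h.zero u hu)
      (heT (lift u) (Finset.mem_image_of_mem _ hu)).1 heQ hel (hv3 u hu).1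
      (by rw [← hΦ]; exact hΦR) hPluR (hnod u hu)
      (heT (lift u) (Finset.mem_image_of_mem _ hu)).2 hvE hTE
    rw [← hF] at h1
    exact h1

end Pool.MPH
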