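import Pool.Agent.Work.MP_f82ddf_H.Interface
import Pool.Agent.Work.MP_f82ddf_V.B_DIF

set_option autoImplicit false

/-! # THEOREM H, block DIH: surfaces and curves -/

open Pool.Agent.Work.MP_f82ddf_nt.DQ

namespace Pool.MPH

open MvPolynomial
open Pool.Agent.Work.MP_f82ddf_nt (PSpace HolomorphicOn complexPoints points KobayashiHyperbolic)
open Pool.ThmP (Mor OnX OnK tm FullF)

theorem p_DIH (h1 : Stmt_MPH) (hMPT : Pool.ThmP.Stmt_MPT) (hFIB : Pool.ThmP.Stmt_FIB)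
    (hTRX : Pool.ThmP.Stmt_TRX) (hHOMR : Pool.ThmM0.Stmt_HOMR) : Stmt_DIH := by
  intro b e₀ c hb hb2
  obtain ⟨N₀, hN₀⟩ := h1 b e₀ c hb
  refine ⟨N₀, ?_⟩
  intro N hN K _ _ F hF hsq hc m S hS g hg hfull σ x hx r
  have := Pool.MPV.DIF_countable K
  obtain ⟨E, D, hD, hD0, -, hDx⟩ := hN₀ (AlgebraicClosure K) N F hN hF hsq hc
  let τ : AlgebraicClosure K →+* ℂ :=
    letI : Algebra K ℂ := σ.toAlgebra
    (IsAlgClosed.lift (R := K) (M := ℂ) (S := AlgebraicClosure K)).toRingHom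
  have hτ : τ.comp (algebraMap K (AlgebraicClosure K)) = σ := by
    let : Algebra K ℂ := σ.toAlgebra
    exact AlgHom.comp_algebraMap
      (IsAlgClosed.lift (R := K) (M := ℂ) (S := AlgebraicClosure K))
  have hx' : OnK (tm τ) S x := by
    intro F hF
    have h6 : (tm τ).comp (algebraMap K (AlgebraicClosure K)) =
        (algebraMap ℂ Mer).comp σ := by
      rw [tm, RingHom.comp_assoc, hτ]
    rw [h6]
    exact hx F hF
  by_contra hcon
  push Not at hcon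
  have hr0 : x (r 0) ≠ 0 := by
    have h := hcon 1 (X 0) (X_ne_zero _) (isHomogeneous_X _ _)
    rwa [aeval_X] at h
  have hx0 : x ≠ 0 := fun h => hr0 (congrFun h _)
  have hind := hHOMR 1 (fun i => x (r i)) hr0 hcon
  have hnc : ∃ i₀ i, x i₀ ≠ 0 ∧ ∀ a : ℂ, x i ≠ algebraMap ℂ Mer a * x i₀ := by
    refine ⟨r 0, r 1, hr0, fun a ha => ?_⟩
    have h2 := hind.transcendental 0
    have h3 : x (r (Fin.succ 0)) / x (r 0) = algebraMap ℂ Mer a := by
      rw [div_eq_iff hr0]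
      exact ha
    rw [h3] at h2
    exact h2 (isAlgebraic_algebraMap a)
  obtain ⟨M1, -⟩ := hMPT K (AlgebraicClosure K) Mer m b S g (tm τ) x hx'
  obtain ⟨s, hs, c₀, hc₀⟩ := M1 hx0
  have hDy := hDx K m S hS g hg hfull τ x hx' hnc s hs
  have hDy' : eval₂ (algebraMap ℂ Mer) (fun c => eval₂ (tm τ) x (s c)) (map τ D) = 0 := by
    rw [eval₂_map]
    exact hDy
  set A : Set Mer := Set.range fun c => eval₂ (tm τ) x (s c) / eval₂ (tm τ) x (s c₀) with hA
  have h2 : ∀ j : Fin (1 + 1), IsAlgebraic (Algebra.adjoin ℂ A) (x (r j.succ) / x (r 0)) :=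
    fun j => hFIB K (AlgebraicClosure K) m b S g hS hg τ x hx' s hs c₀ hc₀ (r j.succ) (r 0) hr0
  have h3 : ∀ a ∈ A, IsAlgebraic (Algebra.adjoin ℂ A) a := fun a ha =>
    isAlgebraic_algebraMap (⟨a, Algebra.subset_adjoin ha⟩ : Algebra.adjoin ℂ A)
  obtain ⟨t, ht1, ht2⟩ := hTRX (1 + 1) _ A A hind h2 h3
  exact Pool.MPV.DIF_alg hb2 (fun c => eval₂ (tm τ) x (s c)) c₀ hc₀ (map τ D) (hD.map τ)
    (by
      intro h
      exact hD0 (map_injective τ τ.injective (by rw [h, map_zero]))) hDy' t ht1 ht2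

end Pool.MPH
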