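import Pool.Agent.Work.MP_f82ddf_H.Interface
import Pool.Agent.Work.MP_f82ddf_U.B_DSC

set_option autoImplicit false

/-! # THEOREM H, block DS1: common factors of two polynomials under specialisation -/

namespace Pool.MPH

open MvPolynomial
open Pool.MPL (lineG DSC_hom DSC_hom_apply DSC_deg DSC_map)

/-- The value at `s = 0`, `γ = 0`, `β = X`. -/
noncomputable def DS1_ev (σ R : Type) [CommRing R] :
    Polynomial (MvPolynomial (σ ⊕ σ) R) →+* MvPolynomial σ R :=
  Polynomial.eval₂RingHom (eval₂Hom C (Sum.elim (fun _ => 0) X)) 0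

theorem DS1_ev_line {σ R : Type} [CommRing R] (H : MvPolynomial σ R) :
    DS1_ev σ R (lineG H) = H := by
  rw [← DSC_hom_apply, ← RingHom.comp_apply]
  have h : (DS1_ev σ R).comp (DSC_hom σ R) = RingHom.id _ := by
    apply MvPolynomial.ringHom_ext
    · intro r
      simp [DS1_ev, DSC_hom]
    · intro i
      simp [DS1_ev, DSC_hom]
  rw [h]
  rfl

theorem p_DS1 : Pool.MPL.Stmt_PRG → Pool.Agent.Work.MP_f82ddf_M5.Stmt_RES → Stmt_DS1 := by
  intro hPRG hRES σ R _ _ _ _ _ H H' hH hH' hna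
  by_cases hc : ∃ r, H = C r
  · obtain ⟨r, hr⟩ := hc
    refine ⟨r, ?_, ?_⟩
    · rintro rfl
      rw [C_0] at hr
      exact hH.ne_zero hr
    · intro M _ φ P hP hdvd _
      by_contra hne
      rw [hr, map_C] at hdvd
      have h1 : IsUnit (C (φ r) : MvPolynomial σ M) := (IsUnit.mk0 _ hne).map C
      exact hP.not_isUnit (isUnit_of_dvd_unit hdvd h1)
  have hprime : Prime (lineG H) := hPRG σ R H hH.prime
  obtain ⟨m, hm⟩ : ∃ m, m = (lineG H).natDegree := ⟨_, rfl⟩
  have hm0 : 0 < m := by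
    rw [Nat.pos_iff_ne_zero]
    intro h
    rw [hm] at h
    exact hc (DSC_deg H h)
  obtain ⟨g, hg⟩ : ∃ g, g = lineG H' := ⟨_, rfl⟩
  obtain ⟨n, hn⟩ : ∃ n, n = g.natDegree := ⟨_, rfl⟩
  have hnd : ¬ lineG H ∣ g := by
    intro h
    rw [hg] at h
    have h1 := map_dvd (DS1_ev σ R) h
    rw [DS1_ev_line, DS1_ev_line] at h1
    exact hna ((hH.dvd_irreducible_iff_associated hH').mp h1)
  have hres := hRES _ (lineG H) g m n hprime hm.symm hm0 hn.ge hnd
  obtain ⟨d, hd⟩ : ∃ d, coeff d ((lineG H).resultant g m n) ≠ 0 := by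
    by_contra hcon
    push Not at hcon
    apply hres
    ext d
    rw [hcon d, coeff_zero]
  refine ⟨_, hd, ?_⟩
  intro M _ φ P hP hdvd hdvd'
  -- the specialisation
  have h2 : lineG P ∣ (lineG H).map (map φ) := by
    rw [← DSC_map, ← DSC_hom_apply, ← DSC_hom_apply]
    exact map_dvd _ hdvd
  have h3 : lineG P ∣ g.map (map φ) := by
    rw [hg, ← DSC_map, ← DSC_hom_apply, ← DSC_hom_apply]
    exact map_dvd _ hdvd'
  obtain ⟨p', q', -, -, hpq⟩ := Polynomial.exists_mul_add_mul_eq_C_resultant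
    ((lineG H).map (map φ)) (g.map (map φ)) (m := m) (n := n)
    (by rw [hm]; exact Polynomial.natDegree_map_le)
    (le_trans Polynomial.natDegree_map_le hn.ge) (Or.inl (by omega))
  rw [Polynomial.resultant_map_map] at hpq
  have h4 : lineG P ∣ Polynomial.C (map φ ((lineG H).resultant g m n)) := by
    rw [← hpq]
    exact dvd_add (h2.mul_right _) (h3.mul_right _)
  have h5 : map φ ((lineG H).resultant g m n) = 0 := by
    by_contra hne
    have h6 : (Polynomial.C (map φ ((lineG H).resultant g m n)) :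
        Polynomial (MvPolynomial (σ ⊕ σ) M)) ≠ 0 := by
      rw [Ne, Polynomial.C_eq_zero]
      exact hne
    have h7 := Polynomial.natDegree_le_of_dvd h4 h6
    rw [Polynomial.natDegree_C, Nat.le_zero] at h7
    obtain ⟨r, hr⟩ := DSC_deg P h7
    have hr0 : r ≠ 0 := by
      rintro rfl
      rw [C_0] at hr
      exact hP.ne_zero hr
    apply hP.not_isUnit
    rw [hr]
    exact (IsUnit.mk0 _ hr0).map C
  have h8 := congrArg (coeff d) h5
  rw [coeff_map, coeff_zero] at h8
  exact h8

end Pool.MPH
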