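import Pool.Agent.Work.MP_f82ddf_H.Interface
import Pool.Agent.Work.MP_f82ddf_M1.B_VAL

set_option autoImplicit false

/-! # EXO: the exponential function and the orders of `f (exp z)` -/

open Pool.Agent.Work.MP_f82ddf_nt.DQ

namespace Pool.MPH

open Topology Filter
open Pool.ThmM (om rep)
open Pool.ThmM0 (Per)

/-- the entire function `f (exp z)` -/
noncomputable def EXO_g (f : Polynomial ℂ) (z : ℂ) : ℂ := f.eval (Complex.exp z)

theorem EXO_diff (f : Polynomial ℂ) : Differentiable ℂ (EXO_g f) :=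
  f.differentiable.comp Complex.differentiable_exp

theorem EXO_an (f : Polynomial ℂ) (z : ℂ) : AnalyticAt ℂ (EXO_g f) z :=
  (EXO_diff f).analyticAt z

theorem EXO_mer (f : Polynomial ℂ) (z : ℂ) : MeromorphicAt (EXO_g f) z :=
  (EXO_an f z).meromorphicAt

theorem EXO_mexp (z : ℂ) : MeromorphicAt Complex.exp z :=
  (Complex.differentiable_exp.analyticAt z).meromorphicAt

/-- the class of the exponential function -/
noncomputable def EXO_E : Mer := Mer.mk Complex.exp EXO_mexp

theorem EXO_aeval (f : Polynomial ℂ) :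
    Polynomial.aeval EXO_E f = Mer.mk (EXO_g f) (EXO_mer f) := by
  induction f using Polynomial.induction_on with
  | C a =>
    rw [Polynomial.aeval_C, Mer.algebraMap_eq, Mer.mk_eq_mk]
    intro z₀
    refine Eventually.of_forall fun z => ?_
    simp [EXO_g]
  | add p q hp hq =>
    rw [map_add, hp, hq, Mer.mk_add, Mer.mk_eq_mk]
    intro z₀
    refine Eventually.of_forall fun z => ?_
    simp [EXO_g]
  | monomial n a _ =>
    rw [map_mul, Polynomial.aeval_C, map_pow, Polynomial.aeval_X, Mer.algebraMap_eq, EXO_E,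
      Mer.mk_pow, Mer.mk_mul, Mer.mk_eq_mk]
    intro z₀
    refine Eventually.of_forall fun z => ?_
    simp [EXO_g]

theorem EXO_om (hA : Pool.ThmM.Stmt_ALG) (f : Polynomial ℂ) (z : ℂ) :
    om (Polynomial.aeval EXO_E f) z = meromorphicOrderAt (EXO_g f) z :=
  Pool.ThmM.VAL.om_congr (hA.1 _ _ _ (EXO_aeval f)) z

theorem EXO_ne (f : Polynomial ℂ) (hf : f ≠ 0) : Polynomial.aeval EXO_E f ≠ 0 := by
  intro h
  rw [EXO_aeval, Mer.zero_eq, Mer.mk_eq_mk] at h
  have h1 : EXO_g f = fun _ => 0 := by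
    have ha : AnalyticOnNhd ℂ (EXO_g f) Set.univ := fun z _ => EXO_an f z
    have hb : AnalyticOnNhd ℂ (fun _ : ℂ => (0 : ℂ)) Set.univ := fun z _ => analyticAt_const
    exact ha.eq_of_frequently_eq hb (h 0).frequently
  apply hf
  apply Polynomial.eq_zero_of_infinite_isRoot
  have h2 : {x : ℂ | x ≠ 0} ⊆ {x | f.IsRoot x} := by
    intro x hx
    have h3 := congrFun h1 (Complex.log x)
    unfold EXO_g at h3
    rw [Complex.exp_log hx] at h3
    exact h3
  refine Set.Infinite.mono h2 ?_
  exact (Set.finite_singleton (0 : ℂ)).infinite_compl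

theorem EXO_sep (f : Polynomial ℂ) (hf : f.Separable) (z : ℂ) :
    meromorphicOrderAt (EXO_g f) z ≤ 1 := by
  rw [(EXO_an f z).meromorphicOrderAt_eq]
  by_cases h0 : EXO_g f z = 0
  · have h1 : deriv (EXO_g f) z ≠ 0 := by
      have h2 : HasDerivAt (EXO_g f) ((Polynomial.derivative f).eval (Complex.exp z) *
          Complex.exp z) z := by
        exact (f.hasDerivAt (Complex.exp z)).comp z (Complex.hasDerivAt_exp z)
      rw [h2.deriv]
      refine mul_ne_zero ?_ (Complex.exp_ne_zero z)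
      intro h3
      obtain ⟨a, b, hab⟩ := hf
      have h4 := congrArg (Polynomial.eval (Complex.exp z)) hab
      rw [Polynomial.eval_add, Polynomial.eval_mul, Polynomial.eval_mul, h3] at h4
      unfold EXO_g at h0
      rw [h0] at h4
      simp at h4
    have h5 := (EXO_an f z).analyticOrderAt_sub_eq_one_of_deriv_ne_zero h1
    rw [h0] at h5
    simp only [sub_zero] at h5
    have h6 : analyticOrderAt (EXO_g f) z = 1 := h5
    rw [h6]
    rfl
  · have h5 : analyticOrderAt (EXO_g f) z = 0 := (EXO_an f z).analyticOrderAt_eq_zero.2 h0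
    rw [h5]
    exact zero_le_one

theorem p_EXO (_ : Pool.ThmM.Stmt_REP) (hA : Pool.ThmM.Stmt_ALG) (_ : Pool.ThmM.Stmt_VAL) :
    Stmt_EXO := by
  refine ⟨EXO_E, fun f => ⟨?_, ?_, EXO_ne f, ?_⟩⟩
  · refine ⟨EXO_g f, EXO_mer f, EXO_aeval f, fun z => ?_⟩
    unfold EXO_g
    rw [Complex.exp_periodic z]
  · intro z
    rw [EXO_om hA]
    exact (EXO_an f z).meromorphicOrderAt_nonneg
  · intro hf z
    rw [EXO_om hA]
    exact EXO_sep f hf z

end Pool.MPH
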