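import Pool.Agent.Work.MP_f82ddf_H.Interface

/-!
# Theorem H, block FHS
-/

set_option autoImplicit false

namespace Pool.MPH

open MvPolynomial

/-- FHS -/
theorem p_FHS (h1 : Stmt_DIH) (h2 : Pool.ThmM0.Stmt_PAI) (h3 : Pool.MCL.stmt_P6C) : Stmt_FHS := by
  intro b e₀ c hb hb2
  obtain ⟨N₀, hN⟩ := h1 b e₀ c hb hb2
  refine ⟨N₀, fun N hNN K _ _ F hF hsq hc m S hS g hfin hfull => ?_⟩
  have hdim : Pool.ThmM0.DimMer S 1 := hN N hNN K F hF hsq hc m S hS g hfin hfull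
  refine h3 K m S hS ?_
  intro σ x i hi hFF
  exact h2 K m 1 S le_rfl hdim σ x i hi hFF

end Pool.MPH
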