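import Pool.Agent.Work.MP_f82ddf_H.Interface
import Pool.Agent.Work.MP_f82ddf_U.B_FNU

set_option autoImplicit false

/-! # THEOREM H (MP_f82ddf_nt), block FNH -/

open Pool.Agent.Work.MP_f82ddf_nt.DQ

namespace Pool.MPH

open MvPolynomial
open Pool.Agent.Work.MP_f82ddf_nt (PSpace HolomorphicOn complexPoints KobayashiHyperbolic
  exists_entire_curve not_kobayashi)
open Pool.ThmP (Mor OnX OnK tm FullF)
open Pool.MPL (ExcSet Onto FNU_countable FNU_G FNU_G_hom FNU_G_eval FNU_mono FNU_onto)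

/-- FNH -/
theorem p_FNH (h1 : Stmt_MPH) (hO : Stmt_OTN) (h2 : Pool.ThmM0.Stmt_MREL) : Stmt_FNH := by
  intro b e₀ c hb
  obtain ⟨N₀, hN⟩ := h1 b e₀ c hb
  refine ⟨N₀, fun N hNN K _ _ F hFd hFs hFc => ?_⟩
  have : Countable (AlgebraicClosure K) := FNU_countable K
  obtain ⟨E, D, hDh, hD0, hDP, hDX⟩ := hN (AlgebraicClosure K) N F hNN hFd hFs hFc
  refine ⟨E, D, hDh, hD0, fun τ f hf htng hab z => ?_,
    fun m S hS g hfin hdiv => ⟨fun hon => ?_, fun τ => ?_⟩⟩
  · -- entire curves in projective space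
    obtain ⟨φ, hφ, i₀, hi₀, -, hrep, hcon⟩ := exists_mer_of_curve (K := ℂ) (n := b) (S := ∅)
      (fun F hF => absurd hF (Set.notMem_empty _)) (RingHom.id ℂ) f hf
      (fun z F hF => absurd hF (Set.notMem_empty _))
    obtain ⟨j, hj⟩ := hcon hab
    have hFu : ∀ j e, (F j).IsHomogeneous e →
        FuF 2 (fun l => Mer.mk (φ l) (hφ l)) e (map τ (F j)) := fun j e he =>
      hO b e (map τ (F j)) f hf (he.map τ) (htng j) φ hφ i₀ hi₀ hrep
    have hNC : Pool.MPL.NC (fun l => Mer.mk (φ l) (hφ l)) := by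
      refine ⟨i₀, j, ?_, fun a => ?_⟩
      · change Mer.mk (φ i₀) (hφ i₀) ≠ 0
        rw [hi₀]
        exact one_ne_zero
      · change Mer.mk (φ j) (hφ j) ≠ algebraMap ℂ Mer a * Mer.mk (φ i₀) (hφ i₀)
        rw [hi₀, mul_one]
        exact hj a
    have h4 := hDP τ (fun l => Mer.mk (φ l) (hφ l)) hNC hFu
    have h5 : aeval (fun i => Mer.mk (φ (id i)) (hφ (id i))) (map τ D) = 0 := by
      rw [aeval_def, eval₂_map]
      exact h4
    have h6 := h2 b f φ hφ hf hrep (b + 1) E id (map τ D) (hDh.map τ) h5 z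
    rw [eval_map] at h6
    exact h6
  · have : Infinite (AlgebraicClosure K) := inferInstance
    exact FNU_onto g D hDh hD0 hon
  · set σ : K →+* ℂ := τ.comp (algebraMap K (AlgebraicClosure K)) with hσ
    have hcurve : ∀ f : ℂ → PSpace ℂ m, HolomorphicOn f Set.univ →
        (∀ z, f z ∈ complexPoints S σ) → (∃ a b, f a ≠ f b) → ∀ z, f z ∈ ExcSet g D τ := by
      intro f hf hfX hab z
      obtain ⟨φ, hφ, i₀, hi₀, hF, hrep, hcon⟩ := exists_mer_of_curve hS σ f hf hfX
      obtain ⟨j, hj⟩ := hcon hab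
      refine ⟨hfX z, fun s hs => ?_⟩
      obtain ⟨a, ha⟩ := g.homogeneous s hs
      have hon : OnK (tm τ) S (fun j => Mer.mk (φ j) (hφ j)) := by
        intro F hFS
        have h3 : (tm τ).comp (algebraMap K (AlgebraicClosure K)) = (algebraMap ℂ Mer).comp σ := by
          rw [tm, RingHom.comp_assoc, hσ]
        rw [h3]
        exact hF F hFS
      have h4 := hDX K m S hS g hfin hdiv τ (fun j => Mer.mk (φ j) (hφ j)) hon
        ⟨i₀, j, by rw [hi₀]; exact one_ne_zero, fun a => by rw [hi₀, mul_one]; exact hj a⟩ s hs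
      have h5 : aeval (fun i => Mer.mk (φ (id i)) (hφ (id i))) (FNU_G τ s D) = 0 := by
        rw [aeval_def, FNU_G_eval]
        exact h4
      have h6 := h2 m f φ hφ hf hrep (m + 1) (a * E) id (FNU_G τ s D)
        (FNU_G_hom τ s D ha hDh) h5 z
      have h7 : eval (fun i => (f z).rep (id i)) (FNU_G τ s D) =
          eval₂ (RingHom.id ℂ) (f z).rep (FNU_G τ s D) := rfl
      rw [h7, FNU_G_eval, RingHom.id_comp] at h6
      exact h6
    refine ⟨hcurve, fun hX => ?_, fun hZ => ?_⟩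
    · exact FNU_mono (fun p hp => hp.1) hX
    · by_contra hX
      obtain ⟨f, hf, hfX, a, b, hab⟩ := exists_entire_curve hS σ hX
      exact not_kobayashi f hf (hcurve f hf hfX ⟨a, b, hab⟩) a b hab hZ

end Pool.MPH
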