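import Pool.Agent.Work.MP_f82ddf_H.Interface

set_option autoImplicit false

/-! # Block MVL of THEOREM H (MP_f82ddf_nt): moving factors on a generic line -/

open Pool.Agent.Work.MP_f82ddf_nt.DQ

namespace Pool.MPH

open MvPolynomial
open Pool.ThmM.Chow (Mov)
open Pool.MPL (RX)

/-- The value of a form at the base point of the generic line. -/
noncomputable def MVL_B0 (b : ℕ) : RX b →ₐ[ℂ] MvPolynomial (Fin (b + 1) ⊕ Fin (b + 1)) ℂ :=
  aeval fun i => X (Sum.inr i)

/-- The value of a form at the second point of the generic line. -/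
noncomputable def MVL_B1 (b : ℕ) : RX b →ₐ[ℂ] MvPolynomial (Fin (b + 1) ⊕ Fin (b + 1)) ℂ :=
  aeval fun i => X (Sum.inr i) + X (Sum.inl i)

lemma MVL_eval0 {b : ℕ} (p q : Fin (b + 1) → ℂ) (F : RX b) :
    eval (Sum.elim p q) (MVL_B0 b F) = eval q F := by
  have h : ((eval (Sum.elim p q)).comp (MVL_B0 b).toRingHom : RX b →+* ℂ) = eval q := by
    apply MvPolynomial.ringHom_ext
    · intro r
      simp [MVL_B0]
    · intro i
      simp [MVL_B0]
  exact RingHom.congr_fun h F

lemma MVL_eval1 {b : ℕ} (p q : Fin (b + 1) → ℂ) (F : RX b) :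
    eval (Sum.elim p q) (MVL_B1 b F) = eval (fun i => q i + p i) F := by
  have h : ((eval (Sum.elim p q)).comp (MVL_B1 b).toRingHom : RX b →+* ℂ) =
      eval (fun i => q i + p i) := by
    apply MvPolynomial.ringHom_ext
    · intro r
      simp [MVL_B1]
    · intro i
      simp [MVL_B1]
  exact RingHom.congr_fun h F

lemma MVL_line0 {b : ℕ} (p q : Fin (b + 1) → ℂ) (F : RX b) :
    Polynomial.eval 0 (onLine p q F) = eval q F := by
  have h : ((Polynomial.evalRingHom (0 : ℂ)).comp (onLine p q).toRingHom : RX b →+* ℂ) =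
      eval q := by
    apply MvPolynomial.ringHom_ext
    · intro r
      simp [onLine, Polynomial.algebraMap_eq]
    · intro i
      simp [onLine]
  exact RingHom.congr_fun h F

lemma MVL_line1 {b : ℕ} (p q : Fin (b + 1) → ℂ) (F : RX b) :
    Polynomial.eval 1 (onLine p q F) = eval (fun i => q i + p i) F := by
  have h : ((Polynomial.evalRingHom (1 : ℂ)).comp (onLine p q).toRingHom : RX b →+* ℂ) =
      eval (fun i => q i + p i) := by
    apply MvPolynomial.ringHom_ext
    · intro r
      simp [onLine, Polynomial.algebraMap_eq]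
    · intro i
      simp [onLine, add_comm]
  exact RingHom.congr_fun h F

/-- A polynomial over a domain of complex polynomials all of whose coefficients are multiples of one
of them is not moving. -/
lemma MVL_coeff {b : ℕ} {σ : Type} (H : MvPolynomial σ (RX b)) (hH : MovR H) :
    ∃ μ ν : σ →₀ ℕ, coeff μ H ≠ 0 ∧ ∀ a : ℂ, coeff ν H ≠ a • coeff μ H := by
  classical
  have hH0 : H ≠ 0 := by
    intro h0
    apply hH 0 0
    rw [h0, map_zero, zero_mul]
  obtain ⟨μ, hμ⟩ := MvPolynomial.ne_zero_iff.1 hH0
  by_contra hcon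
  have h1 : ∀ ν : σ →₀ ℕ, ∃ a : ℂ, coeff ν H = a • coeff μ H := by
    intro ν
    by_contra h2
    refine hcon ⟨μ, ν, hμ, ?_⟩
    intro a ha
    exact h2 ⟨a, ha⟩
  choose a ha using h1
  apply hH (coeff μ H) (∑ ν ∈ H.support, monomial ν (a ν))
  ext1 ν
  rw [coeff_C_mul, coeff_map, coeff_sum]
  by_cases hν : ν ∈ H.support
  · rw [Finset.sum_eq_single ν]
    · rw [coeff_monomial, if_pos rfl, ha ν, MvPolynomial.algebraMap_eq, smul_eq_C_mul, mul_comm]
    · intro ν' _ hne
      rw [coeff_monomial, if_neg hne]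
    · intro h
      exact absurd hν h
  · rw [Finset.sum_eq_zero]
    · rw [map_zero, mul_zero]
      exact notMem_support_iff.1 hν
    · intro ν' hν'
      rw [coeff_monomial, if_neg]
      rintro rfl
      exact hν hν'

theorem p_MVL (hFAC : Pool.ThmM.Chow.Stmt_FAC) : Stmt_MVL := by
  intro b σ _ H hH
  obtain ⟨μ, ν, hμ, hν⟩ := MVL_coeff H hH
  set A : RX b := coeff μ H with hA
  set B : RX b := coeff ν H with hB
  refine ⟨MVL_B0 b A * MVL_B1 b B - MVL_B0 b B * MVL_B1 b A, ?_, ?_⟩
  · -- `Z ≠ 0`
    intro hZ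
    obtain ⟨β₀, hβ₀⟩ : ∃ β₀ : Fin (b + 1) → ℂ, eval β₀ A ≠ 0 := by
      by_contra hcon
      push Not at hcon
      apply hμ
      apply MvPolynomial.funext
      intro x
      rw [hcon x, map_zero]
    have hG : C (eval β₀ A) * B - C (eval β₀ B) * A ≠ 0 := by
      intro h0
      apply hν ((eval β₀ A)⁻¹ * eval β₀ B)
      have h1 : C (eval β₀ A) * B = C (eval β₀ B) * A := sub_eq_zero.1 h0
      rw [smul_eq_C_mul, map_mul, mul_assoc, ← h1, ← mul_assoc, ← map_mul,
        inv_mul_cancel₀ hβ₀, map_one, one_mul]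
    obtain ⟨β₁, hβ₁⟩ : ∃ β₁ : Fin (b + 1) → ℂ,
        eval β₁ (C (eval β₀ A) * B - C (eval β₀ B) * A) ≠ 0 := by
      by_contra hcon
      push Not at hcon
      apply hG
      apply MvPolynomial.funext
      intro x
      rw [hcon x, map_zero]
    apply hβ₁
    have h1 := congrArg (eval (Sum.elim (fun i => β₁ i - β₀ i) β₀)) hZ
    rw [map_sub, map_mul, map_mul, MVL_eval0, MVL_eval0, MVL_eval1, MVL_eval1, map_zero] at h1
    have h2 : (fun i => β₀ i + (β₁ i - β₀ i)) = β₁ := by
      funext i
      ring
    rw [h2] at h1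
    rw [map_sub, map_mul, map_mul, eval_C, eval_C]
    exact h1
  · intro p q hZ E hE
    rw [map_sub, map_mul, map_mul, MVL_eval0, MVL_eval0, MVL_eval1, MVL_eval1] at hZ
    set θ : RX b →ₐ[ℂ] Mer := (Polynomial.aeval E).comp (onLine p q) with hθ
    have hθA : ∀ F : RX b, θ F = Polynomial.aeval E (onLine p q F) := fun F => rfl
    have hmov : Mov (map θ.toRingHom H) := by
      intro c G hG
      have h1 : ∀ κ : σ →₀ ℕ, θ (coeff κ H) = c * algebraMap ℂ Mer (coeff κ G) := by
        intro κ
        have h2 := congrArg (coeff κ) hG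
        rw [coeff_map, coeff_C_mul, coeff_map] at h2
        exact h2
      have hAe := h1 μ
      have hBe := h1 ν
      rw [← hA] at hAe
      rw [← hB] at hBe
      have h3 : Polynomial.aeval E (Polynomial.C (coeff ν G) * onLine p q A -
          Polynomial.C (coeff μ G) * onLine p q B) = 0 := by
        rw [map_sub, map_mul, map_mul, Polynomial.aeval_C, Polynomial.aeval_C, ← hθA, ← hθA, hAe,
          hBe]
        ring
      have h4 : Polynomial.C (coeff ν G) * onLine p q A -
          Polynomial.C (coeff μ G) * onLine p q B = 0 := by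
        by_contra h5
        exact hE _ h5 h3
      have h50 := congrArg (Polynomial.eval (0 : ℂ)) h4
      have h51 := congrArg (Polynomial.eval (1 : ℂ)) h4
      rw [Polynomial.eval_sub, Polynomial.eval_mul, Polynomial.eval_mul, Polynomial.eval_C,
        Polynomial.eval_C, MVL_line0, MVL_line0, Polynomial.eval_zero] at h50
      rw [Polynomial.eval_sub, Polynomial.eval_mul, Polynomial.eval_mul, Polynomial.eval_C,
        Polynomial.eval_C, MVL_line1, MVL_line1, Polynomial.eval_zero] at h51
      have hGμ : coeff μ G = 0 := by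
        have h6 : coeff μ G * (eval q A * eval (fun i => q i + p i) B -
            eval q B * eval (fun i => q i + p i) A) = 0 := by
          linear_combination (-eval q A) * h51 + (eval (fun i => q i + p i) A) * h50
        rcases mul_eq_zero.1 h6 with h7 | h7
        · exact h7
        · exact absurd h7 hZ
      have hA0 : onLine p q A = 0 := by
        by_contra h8
        apply hE _ h8
        rw [← hθA, hAe, hGμ, map_zero, mul_zero]
      apply hZ
      rw [← MVL_line0 p q A, ← MVL_line1 p q A, hA0, Polynomial.eval_zero, Polynomial.eval_zero]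
      ring
    have hne : map θ.toRingHom H ≠ 0 := by
      intro h0
      apply hmov 0 0
      rw [h0, map_zero, zero_mul]
    obtain ⟨c', Fix', Psi', s, m, h1, h2, h3⟩ := hFAC σ 0 (map θ.toRingHom H) hne
    rw [pow_zero, mul_one] at h1
    by_cases hs : s = ∅
    · exfalso
      rw [hs, Finset.prod_empty, mul_one] at h1
      exact hmov c' Fix' h1
    · obtain ⟨P, hP⟩ := Finset.nonempty_iff_ne_empty.mpr hs
      obtain ⟨hi, hM, hm⟩ := h2 P hP
      have hm0 : m P ≠ 0 := by
        intro h0
        apply hm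
        rw [h0]
      refine ⟨P, hi, hM, ?_⟩
      rw [h1]
      have h4 : P ∣ P ^ m P := dvd_pow_self P hm0
      have h5 : P ^ m P ∣ ∏ P ∈ s, P ^ m P := Finset.dvd_prod_of_mem (fun P => P ^ m P) hP
      exact dvd_mul_of_dvd_right (h4.trans h5) _

end Pool.MPH
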