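import Pool.Agent.Work.MP_f82ddf_H.B_CORS

set_option autoImplicit false

/-! # Block NSQ: simple zeros at the nodes exclude moving double factors -/

open Pool.Agent.Work.MP_f82ddf_nt.DQ

namespace Pool.MPH

open MvPolynomial
open Pool.Agent.Work.MP_f82ddf_M5 (lineAt resAt chow at2 comb Data)
open Pool.ThmM
open Pool.ThmM.Chow
open Pool.ThmM0 (Per)

theorem NSQ_top {a b : WithTop ℤ} {c : ℤ} (h : a + b = (c : WithTop ℤ)) : a ≠ ⊤ ∧ b ≠ ⊤ := by
  constructor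
  · rintro rfl
    rw [top_add] at h
    exact WithTop.coe_ne_top h.symm
  · rintro rfl
    rw [add_top] at h
    exact WithTop.coe_ne_top h.symm

theorem p_NSQ (hCORS : Stmt_CORS) (hPHG : Stmt_PHG) (hLSB : Stmt_LSB)
    (hG : Pool.ThmM.Stmt_GAU) (hV : Pool.ThmM.Stmt_VAL) (hT : Pool.ThmM.Stmt_TRA) : Stmt_NSQ := by
  classical
  obtain ⟨β, hβ⟩ := hCORS
  obtain ⟨tr, -, -, htr3, htr4⟩ := hT
  refine ⟨β, ?_⟩
  intro r w d Q A T lift h hdiv hTs x hper hne0 hsimple P hirr hmov hdvd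
  have htrx : ∀ i, tr (x i) = x i := by
    intro i
    obtain ⟨f, hf, hx, hp⟩ := hper i
    obtain ⟨hf', h'⟩ := htr4 f hf
    rw [hx, h']
    congr 1
    funext z
    exact hp z
  have hdP : P ∣ Phi Mer d Q A x := (dvd_pow_self P two_ne_zero).trans hdvd
  obtain ⟨u, hu, z, hz⟩ := hβ r w d Q A T lift x tr h hdiv hTs hne0 htr3 htrx P hirr hmov hdP
  have hx0 : x ≠ 0 := by
    intro hx
    apply hne0 u hu
    rw [hx]
    simp
  obtain ⟨e0, rfl⟩ : ∃ e0, d = e0 + 1 := ⟨d - 1, by have := h.hd; omega⟩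
  have hD := CORE_data h hTs
  have hv1 := (hPHG (w + 2) r e0 Q A x z hD hx0).1
  have hv2 := (CORS_node hPHG hV h x hx0 hTs hne0 hu).2 z
  have h4 := (hV z).2.2.2.2.1 _ (hne0 u hu)
  have h5 := hsimple u hu z
  rw [h4] at h5
  have h6 : dv1 (∑ i, algebraMap ℂ Mer (u i) * x i) z ≤ dv x z + 1 := by exact_mod_cast h5
  obtain ⟨G, hG'⟩ := hdvd
  rw [hG', pow_two, hG _ _ _ z, hG _ _ _ z] at hv1
  rw [hG', map_mul, map_pow, pow_two, hG _ _ _ z, hG _ _ _ z] at hv2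
  have h7 := ((hLSB _ G).2 _ (gU (lift u))).1 z
  obtain ⟨h8, h9⟩ := NSQ_top hv1
  obtain ⟨h10, h11⟩ := NSQ_top hv2
  have h12 : vP P z ≠ ⊤ := fun h0 => h8 (by rw [h0, top_add])
  have h13 : vP (subC Mer (gU (lift u)) P) z ≠ ⊤ := fun h0 => h10 (by rw [h0, top_add])
  obtain ⟨a, ha⟩ := WithTop.ne_top_iff_exists.1 h12
  obtain ⟨b, hb⟩ := WithTop.ne_top_iff_exists.1 h9
  obtain ⟨s, hs⟩ := WithTop.ne_top_iff_exists.1 h13
  obtain ⟨t, ht⟩ := WithTop.ne_top_iff_exists.1 h11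
  rw [← ha, ← hb] at hv1
  rw [← hs, ← ht] at hv2
  rw [← hb, ← ht] at h7
  rw [← ha, ← hs] at hz
  have e1 : a + a + b = (e0 + 1) * dv x z := by exact_mod_cast hv1
  have e2 : s + s + t = dv1 (∑ i, algebraMap ℂ Mer (u i) * x i) z + e0 * dv x z := by
    exact_mod_cast hv2
  have e3 : b ≤ t := by exact_mod_cast h7
  have e4 : s = a + 1 := by exact_mod_cast hz
  nlinarith

end Pool.MPH
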