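import Pool.Agent.Work.MP_f82ddf_H.Interface
import Pool.Agent.Work.MP_f82ddf_U.B_PTS
import Pool.Agent.Work.MP_f82ddf_M1.All1

set_option autoImplicit false

/-! # THEOREM H, block PTH: the result for all the conjugates -/

open Pool.Agent.Work.MP_f82ddf_nt.DQ

namespace Pool.MPH

open MvPolynomial
open Pool.Agent.Work.MP_f82ddf_M5 (lineAt resAt chow at2 comb Data)
open Pool.ThmM (NonProp HypData IsRat om dv dv1 vP)
open Pool.ThmM0 (Per)
open Pool.ThmM.Chow (ppt Phi Mov subC gU)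
open Pool.MPL (RX NC aq ae NPr Spn lineG ExcSet Onto PTS_comp)
open Pool.MPV (Ful)

theorem PTH_comp (α : ℂ ≃+* ℂ) {N : ℕ} (e : ℕ) (D : MvPolynomial (Fin N) ℂ) :
    homogeneousComponent e (aq α D) = aq α (homogeneousComponent e D) := by
  ext m
  rw [aq, aq, coeff_homogeneousComponent, coeff_map, coeff_map, coeff_homogeneousComponent]
  split_ifs
  · rfl
  · exact (map_zero _).symm

theorem PTH_om {t : ℂ} (ht : t ≠ 0) (f : Mer) (z : ℂ) :
    om (algebraMap ℂ Mer t * f) z = om f z := by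
  obtain ⟨h1, -, -, h4, -, -⟩ := Pool.ThmM.all_VAL z
  rw [h1, h4 t ht, zero_add]

theorem PTH_dv {n : ℕ} {t : ℂ} (ht : t ≠ 0) (x : Fin (n + 1) → Mer) (z : ℂ) :
    dv (fun i => algebraMap ℂ Mer t * x i) z = dv x z := by
  have ht' : algebraMap ℂ Mer t ≠ 0 := (map_ne_zero _).2 ht
  by_cases hx : x = 0
  · have : (fun i => algebraMap ℂ Mer t * x i) = x := by
      funext i
      simp [hx]
    rw [this]
  have hd : ∀ i, x i ≠ 0 → dv1 (algebraMap ℂ Mer t * x i) z = dv1 (x i) z := by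
    intro i hi
    rw [Pool.ThmM.all_DV1.1 _ _ ht' hi, Pool.ThmM.all_DV1.2.2.1 t ht, zero_add]
  have hx' : (fun i => algebraMap ℂ Mer t * x i) ≠ 0 := by
    intro h
    apply hx
    funext i
    have := congrFun h i
    exact (mul_eq_zero.1 this).resolve_left ht'
  obtain ⟨h1, i, hi, hi2⟩ := (Pool.ThmM.all_ORD _ x).2 hx z
  obtain ⟨h3, j, hj, hj2⟩ := (Pool.ThmM.all_ORD _ (fun i => algebraMap ℂ Mer t * x i)).2 hx' z
  have hj0 : x j ≠ 0 := fun h => hj (by simp [h])
  apply le_antisymm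
  · have := h3 i (mul_ne_zero ht' hi)
    rw [hd i hi, hi2] at this
    exact this
  · have := h1 j hj0
    rw [← hd j hj0, hj2] at this
    exact this

/-- the values of a form at multiples of a point -/
theorem PTH_hom {b e : ℕ} (F : RX b) (hF : F.IsHomogeneous e) (t : ℂ) (x : Fin (b + 1) → Mer) :
    aeval (fun i => algebraMap ℂ Mer t * x i) F = algebraMap ℂ Mer (t ^ e) * aeval x F := by
  rw [aeval_def, aeval_def, eval₂_eq', eval₂_eq', Finset.mul_sum]
  refine Finset.sum_congr rfl fun m hm => ?_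
  have h1 : ∑ i, m i = e := by
    have h2 := hF (mem_support_iff.1 hm)
    rw [← h2, Finsupp.weight_apply, Finsupp.sum_fintype _ _ (by simp)]
    simp
  simp_rw [mul_pow, Finset.prod_mul_distrib, Finset.prod_pow_eq_pow_sum, h1, map_pow]
  ring

theorem p_PTH (hT3 : Pool.ThmM.Stmt_T3) (hDRF : Pool.MPV.Stmt_DRF) (hSQB : Stmt_SQB)
    (hUNH : Stmt_UNH) (hTRP : Pool.MPL.Stmt_TRP) (hEXF : Pool.MPV.Stmt_EXF)
    (hMVP : Pool.MPL.Stmt_MVP) : Stmt_PTH := by
  classical
  intro r c hr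
  obtain ⟨β, hβ0, hβ⟩ := hDRF r c
  obtain ⟨γ, hγ⟩ := hSQB
  obtain ⟨N₁, dmax, hT⟩ := hT3 r (fun w d => β w d + γ w d)
  refine ⟨N₁, fun b e v S hv hS hSp hcard hsq => ?_⟩
  obtain ⟨w, d, Q, A, T, lift, hyp, -, hTS, hβT, hdiv⟩ := hT S hS hcard
  have hβT1 : β w d ≤ T.card := le_trans (Nat.le_add_right _ _) hβT
  have hdiv1 : ∀ (e : ℕ) (f : MvPolynomial (Fin (w + 2)) ℂ), e ≤ β w d → f.IsHomogeneous e →
      (∀ u ∈ T, eval (lift u) f = 0) → Q ∣ f := fun e f he =>
    hdiv e f (he.trans (Nat.le_add_right _ _))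
  have hdiv2 : ∀ (e : ℕ) (f : MvPolynomial (Fin (w + 2)) ℂ), e ≤ γ w d → f.IsHomogeneous e →
      (∀ u ∈ T, eval (lift u) f = 0) → Q ∣ f := fun e f he =>
    hdiv e f (he.trans (Nat.le_add_left _ _))
  have hSpT : Spn c T := fun U hU hc => hSp U (hU.trans hTS) hc
  have hTs : ∀ y : Fin (r + 1) → ℂ, (∀ u ∈ T, ∑ i, u i * y i = 0) → y = 0 := by
    intro y hy
    refine hSpT T (Finset.Subset.refl _) ?_ y fun u hu => ?_
    · have h3 := hβ0 w d
      omega
    · rw [← hy u hu]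
      exact Finset.sum_congr rfl fun i _ => mul_comm _ _
  have hD := Pool.ThmM.Chow.CORE_data hyp hTs
  have hsqT : ∀ u ∈ T, Squarefree (∑ i, C (u i) * v i) := fun u hu => hsq u (hTS hu)
  have hv0 : v ≠ 0 := by
    rintro rfl
    have h3 := hβ0 w d
    obtain ⟨u, hu⟩ : T.Nonempty := Finset.card_pos.1 (by omega)
    have h4 := hsqT u hu
    simp only [Pi.zero_apply, mul_zero, Finset.sum_const_zero] at h4
    exact not_squarefree_zero h4
  obtain ⟨D₀, hD₀, hU⟩ := hUNH (w + 2) r b d Q A v hD hv0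
    (hγ r w d Q A T lift hyp hdiv2 hTs b v hsqT)
  have hD₁ : D₀ * X 0 ≠ 0 := mul_ne_zero hD₀ (X_ne_zero _)
  obtain ⟨E, hE⟩ : ∃ e, homogeneousComponent e (D₀ * X 0) ≠ 0 := by
    by_contra hcon
    push Not at hcon
    apply hD₁
    rw [← sum_homogeneousComponent (D₀ * X 0)]
    exact Finset.sum_eq_zero fun i _ => hcon i
  have hE1 : 1 ≤ E := by
    rcases Nat.eq_zero_or_pos E with h0 | h0
    · exfalso
      apply hE
      rw [h0, homogeneousComponent_zero, coeff_mul_X']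
      simp
    · exact h0
  refine ⟨E, homogeneousComponent E (D₀ * X 0), hE1, homogeneousComponent_isHomogeneous _ _, hE,
    fun α x hNC hful => ?_⟩
  obtain ⟨hTR1, hTR2, hTR3, hTR4⟩ := hTRP α
  have hyp' := hTR1 r w d Q A T lift hyp
  have hdiv' := hTR2 r w (β w d) Q T lift hdiv1
  have hdat' := hTR3 (w + 2) r d Q A hD
  have hSp' := hTR4 r c T hSpT
  have hβT' : β w d ≤ (T.map (ae α (r + 1))).card := by
    rw [Finset.card_map]
    exact hβT1
  have hfil : ∀ v : Fin (r + 1) → ℂ, v ≠ 0 →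
      ((T.map (ae α (r + 1))).filter fun u => ∑ i, v i * u i = 0).card ≤ c := by
    intro v hv
    by_contra hcon
    exact hv (hSp' _ (Finset.filter_subset _ _) (not_le.1 hcon) v fun u hu =>
      (Finset.mem_filter.1 hu).2)
  obtain ⟨φ, hφ, hφo, hφd⟩ := hEXF
  have hinj : Function.Injective φ := (φ : Mer →+* Mer).injective
  have hvα : ∀ i, (aq α (v i)).IsHomogeneous e := fun i => (hv i).map _
  set y : Fin (r + 1) → Mer := fun i => aeval x (aq α (v i)) with hydef
  have hcompφ : ∀ (z : Fin (b + 1) → Mer) (F : RX b),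
      aeval (fun i => φ (z i)) F = φ (aeval z F) := by
    intro z F
    rw [← AlgHom.comp_apply]
    congr 1
    refine MvPolynomial.algHom_ext fun i => ?_
    simp
  have hkey : ∀ t : ℂ, t ≠ 0 →
      aeval (fun i => algebraMap ℂ Mer t * φ (x i)) (aq α (D₀ * X 0)) = 0 := by
    intro t ht
    have hte : t ^ e ≠ 0 := pow_ne_zero _ ht
    have hYeq : (fun i => aeval (fun i => algebraMap ℂ Mer t * φ (x i)) (aq α (v i))) =
        fun i => φ (algebraMap ℂ Mer (t ^ e) * y i) := by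
      funext i
      rw [PTH_hom _ (hvα i), hcompφ, map_mul, AlgHom.commutes]
    have ht' : algebraMap ℂ Mer (t ^ e) ≠ 0 := (map_ne_zero _).2 hte
    obtain ⟨i₀, j₀, hi₀, hj₀⟩ := hNC
    have hNC' : NC (fun i => φ (algebraMap ℂ Mer (t ^ e) * y i)) := by
      refine ⟨i₀, j₀, (map_ne_zero _).2 (mul_ne_zero ht' hi₀), fun z hz => hj₀ z ?_⟩
      have h1 : φ (algebraMap ℂ Mer (t ^ e) * y j₀) =
          φ (algebraMap ℂ Mer z * (algebraMap ℂ Mer (t ^ e) * y i₀)) := by
        rw [map_mul φ (algebraMap ℂ Mer z), AlgHom.commutes]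
        exact hz
      have h2 := hinj h1
      apply mul_left_cancel₀ ht'
      rw [h2]
      ring
    have hx0 : (fun i => φ (algebraMap ℂ Mer (t ^ e) * y i)) ≠ 0 := by
      intro h
      have h1 := congrFun h i₀
      exact (map_ne_zero φ).2 (mul_ne_zero ht' hi₀) h1
    have hful' : ∀ u ∈ T.map (ae α (r + 1)),
        Ful 2 (fun i => φ (algebraMap ℂ Mer (t ^ e) * y i)) u := by
      intro u hu
      obtain ⟨u₀, hu₀, rfl⟩ := Finset.mem_map.1 hu
      have h0 := hful u₀ (hTS hu₀)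
      intro z
      have h1 : ∑ i, algebraMap ℂ Mer ((ae α (r + 1)) u₀ i) *
          φ (algebraMap ℂ Mer (t ^ e) * y i) =
          φ (algebraMap ℂ Mer (t ^ e) * ∑ i, algebraMap ℂ Mer (α (u₀ i)) * y i) := by
        rw [Finset.mul_sum, map_sum]
        refine Finset.sum_congr rfl fun i _ => ?_
        have h1 : (ae α (r + 1)) u₀ i = α (u₀ i) := rfl
        rw [h1, map_mul, map_mul, map_mul, AlgHom.commutes, AlgHom.commutes]
        ring
      rw [h1, hφo, hφd r (fun i => algebraMap ℂ Mer (t ^ e) * y i) z, PTH_om hte, PTH_dv hte]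
      exact h0 (Complex.exp z)
    have hmov := hMVP (w + 2) r d (aq α Q) (fun i => aq α (A i)) hdat' _ hNC'
    obtain ⟨P, hPirr, hPmov, hPd⟩ := hβ w d (aq α Q) (fun i => aq α (A i))
      (T.map (ae α (r + 1))) _ hyp' hβT' hfil hdiv' 2 _ hx0 (fun i => hφ _) hful' hmov
    rw [← hYeq] at hPd
    have h3 := hU α _ P hPirr hPmov hPd
    have h4 : aq α (D₀ * X 0) = aq α D₀ * X 0 := by
      rw [aq, aq, map_mul, map_X]
    rw [h4, map_mul, h3, zero_mul]
  have h4 := PTS_comp (aq α (D₀ * X 0)) (fun i => φ (x i)) hkey E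
  rw [PTH_comp, hcompφ] at h4
  exact hinj (by rw [h4, map_zero])

end Pool.MPH
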