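import Pool.Agent.Work.MP_f82ddf_H.Interface
import Pool.Agent.Work.MP_f82ddf_U.B_DSC

set_option autoImplicit false

/-! # THEOREM H, block SEP: squarefree polynomials are separable on the generic line -/

namespace Pool.MPH

open MvPolynomial
open Pool.MPL (lineG DSC_hom DSC_hom_apply DSC_deg)

/-- The value at `s = 0`, `γ = 0`, `β = X`. -/
noncomputable def SEP_ev (σ F : Type) [CommRing F] :
    Polynomial (MvPolynomial (σ ⊕ σ) F) →+* MvPolynomial σ F :=
  Polynomial.eval₂RingHom (eval₂Hom C (Sum.elim (fun _ => 0) X)) 0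

theorem SEP_ev_line {σ F : Type} [CommRing F] (H : MvPolynomial σ F) :
    SEP_ev σ F (lineG H) = H := by
  rw [← DSC_hom_apply, ← RingHom.comp_apply]
  conv_rhs => rw [← RingHom.id_apply H]
  congr 1
  apply MvPolynomial.ringHom_ext
  · intro r
    simp [SEP_ev, DSC_hom]
  · intro i
    simp [SEP_ev, DSC_hom]

theorem SEP_dvd {σ F : Type} [CommRing F] {P H : MvPolynomial σ F} (h : lineG P ∣ lineG H) :
    P ∣ H := by
  have h1 := map_dvd (SEP_ev σ F) h
  rwa [SEP_ev_line, SEP_ev_line] at h1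

theorem SEP_mul {σ F : Type} [CommRing F] (P H : MvPolynomial σ F) :
    lineG (P * H) = lineG P * lineG H := by
  rw [← DSC_hom_apply, map_mul]
  rfl

/-- one prime factor -/
theorem SEP_one (hPRG : Pool.MPL.Stmt_PRG) (hRES : Pool.Agent.Work.MP_f82ddf_M5.Stmt_RES)
    {σ F : Type} [Field F] [CharZero F] (G P : MvPolynomial σ F) (hG : Squarefree G)
    (hP : Prime P) (hPG : P ∣ G) :
    ∃ (δ : MvPolynomial (σ ⊕ σ) F) (U V : Polynomial (MvPolynomial (σ ⊕ σ) F)), δ ≠ 0 ∧
      U * lineG P + V * Polynomial.derivative (lineG G) = Polynomial.C δ := by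
  obtain ⟨H, hH⟩ := hPG
  have hPH : ¬ P ∣ H := by
    rintro ⟨H', hH'⟩
    apply hP.not_isUnit
    apply hG P
    rw [hH, hH']
    exact ⟨H', by ring⟩
  have hp : Prime (lineG P) := hPRG σ F P hP
  have hp0 : 0 < (lineG P).natDegree := by
    rw [Nat.pos_iff_ne_zero]
    intro h
    obtain ⟨r, hr⟩ := DSC_deg P h
    have hr0 : r ≠ 0 := by
      rintro rfl
      rw [C_0] at hr
      exact hP.ne_zero hr
    apply hP.not_isUnit
    rw [hr]
    exact (IsUnit.mk0 _ hr0).map C
  have hnd : ¬ lineG P ∣ Polynomial.derivative (lineG G) := by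
    intro h
    rw [hH, SEP_mul, Polynomial.derivative_mul] at h
    have h1 : lineG P ∣ Polynomial.derivative (lineG P) * lineG H := by
      rwa [dvd_add_left (Dvd.intro _ rfl)] at h
    rcases hp.dvd_or_dvd h1 with h2 | h2
    · have h3 : Polynomial.derivative (lineG P) ≠ 0 := by
        rw [Polynomial.derivative_ne_zero]
        omega
      have h4 := Polynomial.natDegree_le_of_dvd h2 h3
      have h5 := Polynomial.natDegree_derivative_lt (p := lineG P) (by omega)
      omega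
    · exact hPH (SEP_dvd h2)
  obtain ⟨m, hm⟩ : ∃ m, m = (lineG P).natDegree := ⟨_, rfl⟩
  obtain ⟨n, hn⟩ : ∃ n, n = (Polynomial.derivative (lineG G)).natDegree := ⟨_, rfl⟩
  have hres := hRES _ (lineG P) (Polynomial.derivative (lineG G)) m n hp hm.symm
    (by rw [hm]; exact hp0) hn.ge hnd
  obtain ⟨p', q', -, -, hpq⟩ := Polynomial.exists_mul_add_mul_eq_C_resultant
    (lineG P) (Polynomial.derivative (lineG G)) (m := m) (n := n) hm.ge hn.ge
    (Or.inl (by omega))
  refine ⟨_, p', q', hres, ?_⟩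
  rw [← hpq]
  ring

theorem p_SEP : Pool.MPL.Stmt_PRG → Pool.Agent.Work.MP_f82ddf_M5.Stmt_RES → Stmt_SEP := by
  intro hPRG hRES σ F _ _ _ G hG
  have hG0 : G ≠ 0 := hG.ne_zero
  obtain ⟨s, hs, hsG⟩ := UniqueFactorizationMonoid.exists_prime_factors G hG0
  have key : ∀ s : Multiset (MvPolynomial σ F), (∀ b ∈ s, Prime b ∧ b ∣ G) →
      ∃ (δ : MvPolynomial (σ ⊕ σ) F) (U V : Polynomial (MvPolynomial (σ ⊕ σ) F)), δ ≠ 0 ∧
        U * lineG s.prod + V * Polynomial.derivative (lineG G) = Polynomial.C δ := by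
    intro s
    induction s using Multiset.induction_on with
    | empty =>
      intro _
      refine ⟨1, 1, 0, one_ne_zero, ?_⟩
      rw [Multiset.prod_zero, ← DSC_hom_apply, map_one]
      simp
    | cons a s ih =>
      intro h
      obtain ⟨δ, U, V, h1, h2⟩ := ih fun b hb => h b (Multiset.mem_cons_of_mem hb)
      obtain ⟨ha, haG⟩ := h a (Multiset.mem_cons_self a s)
      obtain ⟨ε, U', V', h3, h4⟩ := SEP_one hPRG hRES G a hG ha haG
      refine ⟨ε * δ, U' * U, U' * lineG a * V + V' * (U * lineG s.prod) +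
        V' * V * Polynomial.derivative (lineG G), mul_ne_zero h3 h1, ?_⟩
      rw [Polynomial.C_mul, ← h2, ← h4, Multiset.prod_cons, SEP_mul]
      ring
  obtain ⟨δ, U, V, h1, h2⟩ := key s fun b hb => ⟨hs b hb,
    (Multiset.dvd_prod hb).trans hsG.dvd⟩
  obtain ⟨u, hu⟩ := hsG
  refine ⟨δ, U * lineG (↑u⁻¹ : MvPolynomial σ F), V, h1, ?_⟩
  rw [← h2]
  congr 1
  rw [mul_assoc, ← SEP_mul, ← hu]
  congr 2
  rw [mul_comm, mul_assoc, Units.mul_inv, mul_one]

end Pool.MPH
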