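import Pool.Agent.Work.MP_f82ddf_H.Interface

set_option autoImplicit false

/-! # SL1: many forms of the same degree -/

namespace Pool.MPH

open MvPolynomial

theorem SL1_evalpoly {Ω : Type} [Field Ω] {n : ℕ} (p : Fin (n + 1) → Polynomial Ω)
    (F : MvPolynomial (Fin (n + 1)) Ω) (t : Ω) :
    Polynomial.eval t (aeval p F) = eval (fun i => (p i).eval t) F := by
  have h2 := eval₂_comp_left (Polynomial.evalRingHom t) (algebraMap Ω (Polynomial Ω)) p F
  rw [← aeval_def] at h2
  rw [← Polynomial.coe_evalRingHom, h2]
  have h3 : (Polynomial.evalRingHom t).comp (algebraMap Ω (Polynomial Ω)) = RingHom.id Ω := by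
    ext x
    simp
  rw [h3]
  rfl

theorem SL1_smul {Ω : Type} [Field Ω] {n e : ℕ} {F : MvPolynomial (Fin (n + 1)) Ω}
    (hF : F.IsHomogeneous e) (v : Fin (n + 1) → Ω) (a : Ω) :
    eval (a • v) F = a ^ e * eval v F := by
  have h := Pool.Agent.Work.MP_f82ddf_nt.eval₂_smul_hom hF (RingHom.id Ω) v a
  exact h

/-- a form of positive degree in at least two variables has a nontrivial zero -/
theorem SL1_zero {Ω : Type} [Field Ω] [IsAlgClosed Ω] {n e : ℕ} (hb : 1 ≤ n) (he : 1 ≤ e)
    (G : MvPolynomial (Fin (n + 1)) Ω) (hG : G.IsHomogeneous e) :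
    ∃ w : Fin (n + 1) → Ω, w ≠ 0 ∧ eval w G = 0 := by
  classical
  obtain ⟨a, b, hab⟩ : ∃ a b : Fin (n + 1), a ≠ b :=
    ⟨⟨0, by omega⟩, ⟨1, by omega⟩, by intro h; exact absurd (congrArg Fin.val h) (by norm_num)⟩
  let p : Polynomial Ω :=
    aeval (fun k => if k = a then Polynomial.X else if k = b then 1 else 0) G
  have hp : ∀ t : Ω, p.eval t =
      eval (fun k => if k = a then t else if k = b then 1 else 0) G := by
    intro t
    have h : (fun k => if k = a then t else if k = b then 1 else 0) =
        fun k => Polynomial.eval t (if k = a then Polynomial.X else if k = b then 1 else 0) := by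
      funext k
      split_ifs <;> simp
    rw [h]
    exact SL1_evalpoly _ G t
  by_cases hdeg : p.degree = 0
  · refine ⟨Pi.single a 1, ?_, ?_⟩
    · intro h
      have := congrFun h a
      simp at this
    · obtain ⟨c, _, hc⟩ := Polynomial.isUnit_iff.mp (Polynomial.isUnit_iff_degree_eq_zero.mpr hdeg)
      let q : Polynomial Ω :=
        aeval (fun k => if k = a then 1 else if k = b then Polynomial.X else 0) G
      have hq : ∀ t : Ω, q.eval t =
          eval (fun k => if k = a then 1 else if k = b then t else 0) G := by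
        intro t
        have h : (fun k => if k = a then (1 : Ω) else if k = b then t else 0) =
            fun k => Polynomial.eval t (if k = a then 1 else if k = b then Polynomial.X else 0) := by
          funext k
          split_ifs <;> simp
        rw [h]
        exact SL1_evalpoly _ G t
      have hqc : q = Polynomial.C c * Polynomial.X ^ e := by
        apply Polynomial.eq_of_infinite_eval_eq
        have hinf : ({t : Ω | t ≠ 0}).Infinite := by
          have h1 : ({t : Ω | t ≠ 0}) = ({0} : Set Ω)ᶜ := rfl
          have : Infinite Ω := inferInstance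
          rw [h1]
          exact (Set.finite_singleton _).infinite_compl
        refine hinf.mono ?_
        intro t ht
        have ht0 : t ≠ 0 := ht
        show q.eval t = _
        rw [hq]
        have h2 : (fun k => if k = a then (1 : Ω) else if k = b then t else 0) =
            t • (fun k => if k = a then t⁻¹ else if k = b then 1 else 0) := by
          funext k
          simp only [Pi.smul_apply, smul_eq_mul]
          split_ifs
          · rw [mul_inv_cancel₀ ht0]
          · rw [mul_one]
          · rw [mul_zero]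
        rw [h2, SL1_smul hG, ← hp, ← hc, Polynomial.eval_C,
          Polynomial.eval_mul, Polynomial.eval_C, Polynomial.eval_pow, Polynomial.eval_X,
          mul_comm]
      have h3 := hq 0
      rw [hqc] at h3
      have h4 : (fun k => if k = a then (1 : Ω) else if k = b then 0 else 0) =
          Pi.single a 1 := by
        funext k
        by_cases hk : k = a
        · subst hk; simp
        · simp [hk]
      rw [h4] at h3
      rw [← h3]
      simp only [Polynomial.eval_mul, Polynomial.eval_C, Polynomial.eval_pow, Polynomial.eval_X]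
      rw [zero_pow (by omega), mul_zero]
  · obtain ⟨t, ht⟩ := IsAlgClosed.exists_root p hdeg
    refine ⟨fun k => if k = a then t else if k = b then 1 else 0, ?_, ?_⟩
    · intro h
      have := congrFun h b
      simp [hab.symm] at this
    · rw [← hp]
      exact ht

/-- greedy choice -/
theorem SL1_greedy {Ω : Type} [Field Ω] [IsAlgClosed Ω] {b e c N : ℕ} (hb : 1 ≤ b) (he : 1 ≤ e)
    (F : Fin (N + 1) → MvPolynomial (Fin (b + 1)) Ω)
    (hc : ∀ w : Fin (b + 1) → Ω, w ≠ 0 → {j | eval w (F j) = 0}.ncard ≤ c) (t : ℕ) :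
    ∀ J : Finset (Fin (N + 1)), (∀ j ∈ J, F j ≠ 0 ∧ (F j).IsHomogeneous e) → c * t < J.card →
      ∃ L : Finset (MvPolynomial (Fin (b + 1)) Ω), L.card = t ∧ (∀ G ∈ L, ∃ j ∈ J, F j = G) ∧
        ∀ G ∈ L, ∀ G' ∈ L, G ≠ G' → ∀ a a' : Ω, a • G = a' • G' → a = 0 ∧ a' = 0 := by
  classical
  induction t with
  | zero =>
    intro J _ _
    exact ⟨∅, by simp, by simp, by simp⟩
  | succ t ih =>
    intro J hJ hcard
    obtain ⟨j0, hj0⟩ : J.Nonempty := Finset.card_pos.1 (by omega)
    obtain ⟨w, hw0, hw⟩ := SL1_zero hb he (F j0) (hJ j0 hj0).2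
    set J2 := J.filter (fun j => ∀ a a' : Ω, a • F j0 = a' • F j → a = 0 ∧ a' = 0) with hJ2
    have hbad : (J.filter (fun j => ¬ ∀ a a' : Ω, a • F j0 = a' • F j → a = 0 ∧ a' = 0)).card ≤ c := by
      refine le_trans ?_ (hc w hw0)
      rw [← Set.ncard_coe_finset]
      refine Set.ncard_le_ncard ?_ (Set.toFinite _)
      intro j hj
      rw [Finset.mem_coe, Finset.mem_filter] at hj
      obtain ⟨hjJ, hj⟩ := hj
      push Not at hj
      obtain ⟨a, a', haa, hne⟩ := hj
      have ha' : a' ≠ 0 := by
        intro h0
        by_cases ha : a = 0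
        · exact hne ha h0
        · rw [h0, zero_smul] at haa
          exact (hJ j0 hj0).1 ((smul_eq_zero.1 haa).resolve_left ha)
      show eval w (F j) = 0
      have h := congrArg (eval w) haa
      rw [smul_eval, smul_eval, hw, mul_zero] at h
      exact (mul_eq_zero.1 h.symm).resolve_left ha'
    have hsum := Finset.card_filter_add_card_filter_not (s := J)
      (fun j => ∀ a a' : Ω, a • F j0 = a' • F j → a = 0 ∧ a' = 0)
    change J2.card + _ = _ at hsum
    obtain ⟨L, hL1, hL2, hL3⟩ := ih J2 (fun j hj => hJ j (Finset.mem_filter.1 hj).1) (by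
      have : c * (t + 1) = c * t + c := by ring
      omega)
    have hnot : F j0 ∉ L := by
      intro h
      obtain ⟨j, hj, hjF⟩ := hL2 _ h
      have h2 := (Finset.mem_filter.1 hj).2 1 1 (by rw [hjF])
      exact one_ne_zero h2.1
    refine ⟨insert (F j0) L, ?_, ?_, ?_⟩
    · rw [Finset.card_insert_of_notMem hnot, hL1]
    · intro G hG
      rcases Finset.mem_insert.1 hG with h | h
      · exact ⟨j0, hj0, h.symm⟩
      · obtain ⟨j, hj, hjF⟩ := hL2 G h
        exact ⟨j, (Finset.mem_filter.1 hj).1, hjF⟩
    · intro G hG G' hG' hne a a' haa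
      rcases Finset.mem_insert.1 hG with h | h
      · rcases Finset.mem_insert.1 hG' with h' | h'
        · exact absurd (h.trans h'.symm) hne
        · obtain ⟨j, hj, hjF⟩ := hL2 G' h'
          rw [h, ← hjF] at haa
          exact (Finset.mem_filter.1 hj).2 a a' haa
      · rcases Finset.mem_insert.1 hG' with h' | h'
        · obtain ⟨j, hj, hjF⟩ := hL2 G h
          rw [h', ← hjF] at haa
          exact ((Finset.mem_filter.1 hj).2 a' a haa.symm).symm
        · exact hL3 G h G' h' hne a a' haa

theorem p_SL1 : Stmt_SL1 := by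
  classical
  intro b e₀ c t hb
  refine ⟨e₀ * (c + c * t), ?_⟩
  intro Ω _ _ N F hN hF hc
  choose d hd using hF
  obtain ⟨e, he, hcard⟩ := Finset.exists_lt_card_fiber_of_mul_lt_card_of_maps_to
    (s := (Finset.univ : Finset (Fin (N + 1)))) (t := Finset.Icc 1 e₀) (f := d) (n := c + c * t)
    (fun j _ => Finset.mem_Icc.2 ⟨(hd j).1, (hd j).2.1⟩) (by
      rw [Nat.card_Icc, Finset.card_univ, Fintype.card_fin]
      simp only [Nat.add_sub_cancel]
      omega)
  rw [Finset.mem_Icc] at he
  set J := Finset.univ.filter (fun j : Fin (N + 1) => d j = e) with hJ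
  have hz : (J.filter (fun j => ¬ F j ≠ 0)).card ≤ c := by
    refine le_trans ?_ (hc (fun _ => 1) (fun h => one_ne_zero (congrFun h 0)))
    rw [← Set.ncard_coe_finset]
    refine Set.ncard_le_ncard ?_ (Set.toFinite _)
    intro j hj
    rw [Finset.mem_coe, Finset.mem_filter, not_not] at hj
    show eval _ (F j) = 0
    rw [hj.2, map_zero]
  have hsum := Finset.card_filter_add_card_filter_not (s := J) (fun j => F j ≠ 0)
  obtain ⟨L, hL1, hL2, hL3⟩ := SL1_greedy hb he.1 F hc t (J.filter (fun j => F j ≠ 0))
    (fun j hj => by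
      rw [Finset.mem_filter, hJ, Finset.mem_filter] at hj
      refine ⟨hj.2, ?_⟩
      have := (hd j).2.2
      rw [hj.1.2] at this
      exact this) (by omega)
  refine ⟨e, L, he.1, he.2, hL1.ge, ?_, hL3⟩
  intro G hG
  obtain ⟨j, hj, hjG⟩ := hL2 G hG
  rw [Finset.mem_filter, hJ, Finset.mem_filter] at hj
  refine ⟨?_, j, hjG⟩
  have := (hd j).2.2
  rw [hj.1.2, hjG] at this
  exact this

end Pool.MPH
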