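import Pool.Agent.Work.MP_f82ddf_H.Interface

set_option autoImplicit false

/-! Block SL2: a subspace in which all the large subsets span. -/

namespace Pool.MPH

open Pool.MPL (NPr Spn)

/-- The thresholds `t_r`. -/
def SL2_t (f : ℕ → ℕ → ℕ) (c : ℕ) : ℕ → ℕ
  | 0 => max 2 (c + 1)
  | r + 1 => max (f (r + 1) (SL2_t f c r)) (SL2_t f c r)

theorem SL2_t_ge (f : ℕ → ℕ → ℕ) (c r : ℕ) : max 2 (c + 1) ≤ SL2_t f c r := by
  induction r with
  | zero => exact le_rfl
  | succ r ih => exact ih.trans (le_max_right _ _)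

/-- The core: from a minimal subspace to the basis and the coordinates. -/
theorem SL2_core {Ω W : Type} [Field Ω] [AddCommGroup W] [Module Ω W] (L : Finset W)
    (hL : ∀ G ∈ L, ∀ G' ∈ L, G ≠ G' → ∀ a a' : Ω, a • G = a' • G' → a = 0 ∧ a' = 0)
    (U : Submodule Ω W) (hU : U ≤ Submodule.span Ω (L : Set W)) (r c' s : ℕ)
    (hr : Module.finrank Ω U = r + 1) (hs : ∃ F : Finset W, F ⊆ L ∧ (∀ G ∈ F, G ∈ U) ∧ s ≤ F.card)
    (hmin : ∀ U' : Submodule Ω W, U' ≤ Submodule.span Ω (L : Set W) →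
      Module.finrank Ω U' ≤ r → ∀ F : Finset W, F ⊆ L → (∀ G ∈ F, G ∈ U') → F.card < c') :
    ∃ (v : Fin (r + 1) → W) (S : Finset (Fin (r + 1) → Ω)),
      (∀ i, v i ∈ Submodule.span Ω (L : Set W)) ∧
      (∀ u ∈ S, ∀ u' ∈ S, u ≠ u' → NPr u u') ∧ Spn c' S ∧ s ≤ S.card ∧
      (∀ u ∈ S, ∑ i, u i • v i ∈ L) ∧
      ∀ u ∈ S, ∀ u' ∈ S, ∑ i, u i • v i = ∑ i, u' i • v i → u = u' := by
  classical
  obtain ⟨F, hFL, hFU, hFs⟩ := hs
  have : FiniteDimensional Ω (Submodule.span Ω (L : Set W)) :=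
    FiniteDimensional.span_finset Ω L
  have : FiniteDimensional Ω U := Submodule.finiteDimensional_of_le hU
  let b : Module.Basis (Fin (r + 1)) Ω U := Module.finBasisOfFinrankEq Ω U hr
  let g : W → (Fin (r + 1) → Ω) := fun G => if h : G ∈ U then b.repr ⟨G, h⟩ else 0
  have hg : ∀ G ∈ U, ∑ i, g G i • (b i : W) = G := by
    intro G hG
    have h1 := b.sum_repr ⟨G, hG⟩
    have h2 := congrArg (fun x : U => (x : W)) h1
    simp only [Submodule.coe_sum, Submodule.coe_smul] at h2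
    simp only [g, dif_pos hG]
    exact h2
  have hinj : Set.InjOn g (F : Set W) := by
    intro G hG G' hG' h
    rw [← hg G (hFU G hG), ← hg G' (hFU G' hG'), h]
  have hS : ∀ u ∈ F.image g, ∃ G ∈ F, g G = u ∧ ∑ i, u i • (b i : W) = G := by
    intro u hu
    obtain ⟨G, hG, rfl⟩ := Finset.mem_image.mp hu
    exact ⟨G, hG, rfl, hg G (hFU G hG)⟩
  refine ⟨fun i => (b i : W), F.image g, fun i => hU (b i).2, ?_, ?_, ?_, ?_, ?_⟩
  · intro u hu u' hu' hne a a' h
    obtain ⟨G, hG, e1, e2⟩ := hS u hu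
    obtain ⟨G', hG', e1', e2'⟩ := hS u' hu'
    have hGG : G ≠ G' := by
      rintro rfl
      exact hne (e1.symm.trans e1')
    refine hL G (hFL hG) G' (hFL hG') hGG a a' ?_
    rw [← e2, ← e2', Finset.smul_sum, Finset.smul_sum]
    refine Finset.sum_congr rfl fun i _ => ?_
    rw [smul_smul, smul_smul]
    have := congrFun h i
    simp only [Pi.smul_apply, smul_eq_mul] at this
    rw [this]
  · intro T hT hcard y hy
    by_contra hy0
    -- the functional
    let φ : U →ₗ[Ω] Ω := b.constr Ω y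
    have hφb : ∀ i, φ (b i) = y i := fun i => b.constr_basis Ω y i
    have hφ0 : φ ≠ 0 := by
      intro h0
      apply hy0
      funext i
      rw [← hφb i, h0]
      rfl
    have hφ : ∀ G (hG : G ∈ U), φ ⟨G, hG⟩ = ∑ i, y i * g G i := by
      intro G hG
      have h1 := b.sum_repr ⟨G, hG⟩
      conv_lhs => rw [← h1]
      rw [map_sum]
      refine Finset.sum_congr rfl fun i _ => ?_
      rw [map_smul, hφb i, smul_eq_mul, mul_comm]
      simp only [g, dif_pos hG]
    let U' : Submodule Ω W := (LinearMap.ker φ).map U.subtype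
    have hU'1 : U' ≤ Submodule.span Ω (L : Set W) := by
      intro x hx
      obtain ⟨z, -, rfl⟩ := Submodule.mem_map.mp hx
      exact hU z.2
    have hU'2 : Module.finrank Ω U' ≤ r := by
      have h1 : Module.finrank Ω U' = Module.finrank Ω (LinearMap.ker φ) :=
        Submodule.finrank_map_subtype_eq U (LinearMap.ker φ)
      have h2 := LinearMap.finrank_range_add_finrank_ker φ
      have h3 : 0 < Module.finrank Ω (LinearMap.range φ) := by
        rw [Module.finrank_pos_iff_exists_ne_zero]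
        by_contra hcon
        push Not at hcon
        apply hφ0
        ext x
        have := hcon ⟨φ x, ⟨x, rfl⟩⟩
        simpa using congrArg Subtype.val this
      rw [hr] at h2
      omega
    have hF' := hmin U' hU'1 hU'2 (T.image fun u => ∑ i, u i • (b i : W)) (by
      intro G hG
      obtain ⟨u, hu, rfl⟩ := Finset.mem_image.mp hG
      obtain ⟨G', hG', -, e⟩ := hS u (hT hu)
      rw [e]
      exact hFL hG') (by
      intro G hG
      obtain ⟨u, hu, rfl⟩ := Finset.mem_image.mp hG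
      obtain ⟨G', hG', e1, e⟩ := hS u (hT hu)
      rw [e]
      refine Submodule.mem_map.mpr ⟨⟨G', hFU G' hG'⟩, ?_, rfl⟩
      rw [LinearMap.mem_ker, hφ, e1]
      exact hy u hu)
    rw [Finset.card_image_of_injOn] at hF'
    · omega
    · intro u hu u' hu' h
      obtain ⟨G, hG, e1, e2⟩ := hS u (hT hu)
      obtain ⟨G', hG', e1', e2'⟩ := hS u' (hT hu')
      have h : G = G' := by rw [← e2, ← e2']; exact h
      rw [← e1, ← e1', h]
  · rw [Finset.card_image_of_injOn hinj]
    exact hFs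
  · intro u hu
    obtain ⟨G, hG, -, e⟩ := hS u hu
    rw [e]
    exact hFL hG
  · intro u hu u' hu' h
    obtain ⟨G, hG, e1, e2⟩ := hS u hu
    obtain ⟨G', hG', e1', e2'⟩ := hS u' hu'
    rw [e2, e2'] at h
    rw [← e1, ← e1', h]

theorem p_SL2 : Stmt_SL2 := by
  intro f n c
  refine ⟨SL2_t f c n, ?_⟩
  intro Ω W _ _ _ L hL hn ht
  classical
  have : FiniteDimensional Ω (Submodule.span Ω (L : Set W)) :=
    FiniteDimensional.span_finset Ω L
  let P : ℕ → Prop := fun r => ∃ U : Submodule Ω W, U ≤ Submodule.span Ω (L : Set W) ∧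
    Module.finrank Ω U ≤ r + 1 ∧ ∃ F : Finset W, F ⊆ L ∧ (∀ G ∈ F, G ∈ U) ∧ SL2_t f c r ≤ F.card
  have hP : ∃ r, P r := ⟨n, Submodule.span Ω (L : Set W), le_rfl, hn, L, subset_rfl,
    fun G hG => Submodule.subset_span hG, ht⟩
  obtain ⟨U, hU, hUr, F, hFL, hFU, hFc⟩ := Nat.find_spec hP
  have hmin : ∀ r < Nat.find hP, ¬ P r := fun r hr => Nat.find_min hP hr
  set r := Nat.find hP with hrdef
  have : FiniteDimensional Ω U := Submodule.finiteDimensional_of_le hU
  have hr1 : r ≠ 0 := by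
    intro h0
    rw [h0] at hUr hFc
    have h2 : 1 < F.card := lt_of_lt_of_le (by norm_num) ((le_max_left 2 (c + 1)).trans hFc)
    obtain ⟨G, hG, G', hG', hne⟩ := Finset.one_lt_card.mp h2
    obtain ⟨w, hw⟩ := (finrank_le_one_iff (K := Ω) (V := U)).mp (by simpa using hUr)
    obtain ⟨a, ha⟩ := hw ⟨G, hFU G hG⟩
    obtain ⟨a', ha'⟩ := hw ⟨G', hFU G' hG'⟩
    have ea : a • (w : W) = G := congrArg Subtype.val ha
    have ea' : a' • (w : W) = G' := congrArg Subtype.val ha'
    have h := hL G (hFL hG) G' (hFL hG') hne a' a (by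
      rw [← ea, ← ea', smul_smul, smul_smul, mul_comm])
    apply hne
    rw [← ea, ← ea', h.1, h.2]
  obtain ⟨r', hr'⟩ := Nat.exists_eq_succ_of_ne_zero hr1
  have hm := hmin r' (by rw [hr']; exact Nat.lt_succ_self r')
  have hm' : ∀ U' : Submodule Ω W, U' ≤ Submodule.span Ω (L : Set W) →
      Module.finrank Ω U' ≤ r → ∀ F : Finset W, F ⊆ L → (∀ G ∈ F, G ∈ U') →
      F.card < SL2_t f c r' := by
    intro U' h1 h2 F' h3 h4
    by_contra h5
    exact hm ⟨U', h1, by rw [hr'] at h2; exact h2, F', h3, h4, not_lt.mp h5⟩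
  have hfr : Module.finrank Ω U = r + 1 := by
    refine le_antisymm hUr ?_
    by_contra hcon
    have h1 := hm' U hU (by omega) F hFL hFU
    rw [hr'] at hFc
    have h2 : SL2_t f c r' ≤ SL2_t f c (r' + 1) := le_max_right _ _
    have h3 : SL2_t f c (r' + 1) ≤ F.card := hFc
    omega
  obtain ⟨v, S, h1, h2, h3, h4, h5, h6⟩ := SL2_core L hL U hU r (SL2_t f c r') (SL2_t f c r) hfr
    ⟨F, hFL, hFU, hFc⟩ hm'
  refine ⟨r, SL2_t f c r', v, S, Nat.one_le_iff_ne_zero.mpr hr1, h1, h2, h3, ?_, ?_, h5, h6⟩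
  · refine le_trans ?_ h4
    rw [hr']
    exact le_max_left _ _
  · have := SL2_t_ge f c r
    have h7 : c + 1 ≤ max 2 (c + 1) := le_max_right _ _
    omega

end Pool.MPH
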