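import Pool.Agent.Work.MP_f82ddf_H.Interface

set_option autoImplicit false

/-! # Block SLF: choice of the nodes -/

open Pool.Agent.Work.MP_f82ddf_nt.DQ

namespace Pool.MPH

open MvPolynomial

/-- The monomials with all exponents at most `e₀`. -/
noncomputable def SLF_mons (Ω : Type) [Field Ω] (b e₀ : ℕ) :
    Finset (MvPolynomial (Fin (b + 1)) Ω) := by
  classical
  exact (Finset.univ : Finset (Fin (b + 1) → Fin (e₀ + 1))).image
    (fun d => monomial (Finsupp.equivFunOnFinite.symm (fun i => ((d i : Fin (e₀ + 1)) : ℕ))) 1)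

theorem SLF_mons_card (Ω : Type) [Field Ω] (b e₀ : ℕ) :
    (SLF_mons Ω b e₀).card ≤ (e₀ + 1) ^ (b + 1) := by
  classical
  unfold SLF_mons
  refine Finset.card_image_le.trans ?_
  simp

theorem SLF_span (Ω : Type) [Field Ω] (b e₀ e : ℕ) (he : e ≤ e₀)
    (G : MvPolynomial (Fin (b + 1)) Ω) (hG : G.IsHomogeneous e) :
    G ∈ Submodule.span Ω ((SLF_mons Ω b e₀ : Finset _) : Set (MvPolynomial (Fin (b + 1)) Ω)) := by
  classical
  rw [G.as_sum]
  refine Submodule.sum_mem _ fun d hd => ?_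
  have h1 : monomial d (coeff d G) = coeff d G • monomial d (1 : Ω) := by
    rw [smul_monomial, smul_eq_mul, mul_one]
  rw [h1]
  refine Submodule.smul_mem _ _ (Submodule.subset_span ?_)
  have hdeg : d.degree = e := by
    have h2 := hG (mem_support_iff.1 hd)
    rw [← h2, Finsupp.degree_eq_weight_one]
    rfl
  have hle : ∀ i, d i ≤ e₀ := fun i => by
    have h3 : d i ≤ d.degree := Finsupp.le_degree i d
    omega
  unfold SLF_mons
  rw [Finset.mem_coe, Finset.mem_image]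
  refine ⟨fun i => ⟨d i, Nat.lt_succ_of_le (hle i)⟩, Finset.mem_univ _, ?_⟩
  have h4 : (Finsupp.equivFunOnFinite.symm (fun i => d i) : Fin (b + 1) →₀ ℕ) = d := by
    ext i
    rfl
  show monomial (Finsupp.equivFunOnFinite.symm (fun i => d i)) (1 : Ω) = monomial d 1
  rw [h4]

theorem p_SLF (hSL1 : Stmt_SL1) (hSL2 : Stmt_SL2) : Stmt_SLF := by
  intro b e₀ c f hb
  obtain ⟨t, ht⟩ := hSL2 f ((e₀ + 1) ^ (b + 1)) c
  obtain ⟨N₀, hN₀⟩ := hSL1 b e₀ c t hb
  refine ⟨N₀, ?_⟩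
  intro Ω _ _ N F hN hF hc
  obtain ⟨e, L, he1, he2, htL, hL1, hL2⟩ := hN₀ Ω N F hN hF hc
  have hrank : Module.finrank Ω (Submodule.span Ω (L : Set (MvPolynomial (Fin (b + 1)) Ω))) ≤
      (e₀ + 1) ^ (b + 1) + 1 := by
    have hle : Submodule.span Ω (L : Set (MvPolynomial (Fin (b + 1)) Ω)) ≤
        Submodule.span Ω ((SLF_mons Ω b e₀ : Finset _) :
          Set (MvPolynomial (Fin (b + 1)) Ω)) :=
      Submodule.span_le.2 fun G hG => SLF_span Ω b e₀ e he2 G (hL1 G (Finset.mem_coe.1 hG)).1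
    haveI : FiniteDimensional Ω (Submodule.span Ω ((SLF_mons Ω b e₀ : Finset _) :
          Set (MvPolynomial (Fin (b + 1)) Ω))) := FiniteDimensional.span_finset Ω _
    calc Module.finrank Ω (Submodule.span Ω (L : Set (MvPolynomial (Fin (b + 1)) Ω)))
        ≤ Module.finrank Ω (Submodule.span Ω ((SLF_mons Ω b e₀ : Finset _) :
          Set (MvPolynomial (Fin (b + 1)) Ω))) := Submodule.finrank_mono hle
      _ ≤ (SLF_mons Ω b e₀).card := finrank_span_finset_le_card _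
      _ ≤ (e₀ + 1) ^ (b + 1) := SLF_mons_card Ω b e₀
      _ ≤ _ := Nat.le_succ _
  obtain ⟨r, c', v, S, hr, hv, hNPr, hSpn, hfS, hcS, hSL, hinj⟩ := ht Ω _ L hL2 hrank htL
  have hvh : ∀ i, (v i).IsHomogeneous e := by
    have hle : Submodule.span Ω (L : Set (MvPolynomial (Fin (b + 1)) Ω)) ≤
        homogeneousSubmodule (Fin (b + 1)) Ω e :=
      Submodule.span_le.2 fun G hG => by
        rw [SetLike.mem_coe, mem_homogeneousSubmodule]
        exact (hL1 G (Finset.mem_coe.1 hG)).1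
    intro i
    exact (mem_homogeneousSubmodule _ _).1 (hle (hv i))
  have hsum : ∀ u : Fin (r + 1) → Ω, ∑ i, C (u i) * v i = ∑ i, u i • v i := fun u =>
    Finset.sum_congr rfl fun i _ => by rw [smul_eq_C_mul]
  have hSF : ∀ u ∈ S, ∃ j, F j = ∑ i, C (u i) * v i := by
    intro u hu
    obtain ⟨j, hj⟩ := (hL1 _ (hSL u hu)).2
    exact ⟨j, by rw [hj, hsum]⟩
  refine ⟨e, r, c', v, S, he1, hr, hvh, hNPr, hSpn, hfS, hSF, ?_⟩
  intro w hw
  by_contra hcon
  push Not at hcon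
  choose! φ hφ using hSF
  have hmaps : ∀ u ∈ S, φ u ∈ {j | eval w (F j) = 0} := by
    intro u hu
    rw [Set.mem_ofPred_eq, hφ u hu, map_sum]
    refine Finset.sum_eq_zero fun i _ => ?_
    rw [map_mul, hcon i, mul_zero]
  have hinjφ : Set.InjOn φ (S : Set (Fin (r + 1) → Ω)) := by
    intro u hu u' hu' h
    refine hinj u (Finset.mem_coe.1 hu) u' (Finset.mem_coe.1 hu') ?_
    rw [← hsum, ← hsum, ← hφ u (Finset.mem_coe.1 hu), ← hφ u' (Finset.mem_coe.1 hu'), h]
  have hcard : (S : Set (Fin (r + 1) → Ω)).ncard ≤ {j | eval w (F j) = 0}.ncard :=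
    Set.ncard_le_ncard_of_injOn φ (fun u hu => hmaps u (Finset.mem_coe.1 hu)) hinjφ
      (Set.toFinite _)
  rw [Set.ncard_coe_finset] at hcard
  have := hc w hw
  omega

end Pool.MPH
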