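import Pool.Agent.Work.MP_f82ddf_H.Interface

set_option autoImplicit false

/-! Block SQB of THEOREM H (helper96): the generic Chow form has no moving double factor. -/

open Pool.Agent.Work.MP_f82ddf_nt.DQ

namespace Pool.MPH

open MvPolynomial
open Pool.ThmM (NonProp HypData IsRat om dv vP)
open Pool.ThmM0 (Per)
open Pool.ThmM.Chow (ppt Phi Mov subC gU)
open Pool.MPL (RX)

theorem SQB_nonempty {r : ℕ} {T : Finset (Fin (r + 1) → ℂ)}
    (h : ∀ y : Fin (r + 1) → ℂ, (∀ u ∈ T, ∑ i, u i * y i = 0) → y = 0) : ∃ u, u ∈ T := by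
  by_contra hne
  have h1 := h (fun _ => 1) (fun u hu => absurd ⟨u, hu⟩ hne)
  have h2 := congrFun h1 0
  exact one_ne_zero h2

theorem SQB_sum {r b : ℕ} (θ : RX b →ₐ[ℂ] Mer) (v : Fin (r + 1) → RX b) (u : Fin (r + 1) → ℂ) :
    ∑ i, algebraMap ℂ Mer (u i) * θ (v i) = θ (∑ i, C (u i) * v i) := by
  rw [map_sum]
  refine Finset.sum_congr rfl fun i _ => ?_
  rw [map_mul]
  congr 1
  exact (θ.commutes (u i)).symm

theorem SQB_dv (hORD : Pool.ThmM.Stmt_ORD) (hVAL : Pool.ThmM.Stmt_VAL) {r : ℕ}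
    (y : Fin (r + 1) → Mer) (hy : y ≠ 0) (z : ℂ) (h0 : ∀ i, 0 ≤ om (y i) z) : 0 ≤ dv y z := by
  obtain ⟨i, hi, he⟩ := ((hORD (Fin (r + 1)) y).2 hy z).2
  have h1 := (hVAL z).2.2.2.2.1 (y i) hi
  have h2 := h0 i
  rw [h1, he] at h2
  exact_mod_cast h2

theorem p_SQB (hNSQ : Stmt_NSQ) (hSQL : Stmt_SQL) (hEXO : Stmt_EXO) (hMVL : Stmt_MVL)
    (hFCH : Pool.ThmM.Chow.Stmt_FCH) (hORD : Pool.ThmM.Stmt_ORD)
    (hVAL : Pool.ThmM.Stmt_VAL) : Stmt_SQB := by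
  classical
  obtain ⟨β, hβ⟩ := hNSQ
  refine ⟨β, ?_⟩
  intro r w d Q A T lift hdat hdiv hspan b v hsq H _ hHmov hdvd
  obtain ⟨Z, hZ, hZ2⟩ := hMVL b (Fin 2 × Fin (w + 2)) H hHmov
  obtain ⟨p, q, hpq, hsep⟩ := hSQL b (T.image fun u => ∑ i, C (u i) * v i) Z (by
    intro F hF
    obtain ⟨u, hu, rfl⟩ := Finset.mem_image.mp hF
    exact hsq u hu) hZ
  obtain ⟨E, hE⟩ := hEXO
  obtain ⟨P, hPirr, hPmov, hPdvd⟩ := hZ2 p q hpq E fun f hf => (hE f).2.2.1 hf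
  let θ : RX b →ₐ[ℂ] Mer := (Polynomial.aeval E).comp (onLine p q)
  have hθ : ∀ f, θ f = Polynomial.aeval E (onLine p q f) := fun f => rfl
  have hcomp : θ.toRingHom.comp (algebraMap ℂ (RX b)) = algebraMap ℂ Mer := θ.comp_algebraMap
  have hPhi := hFCH.1 (w + 2) r d (RX b) Mer θ.toRingHom Q A v hcomp
  have hsep2 : ∀ u ∈ T, (onLine p q (∑ i, C (u i) * v i)).Separable := fun u hu =>
    hsep _ (Finset.mem_image.mpr ⟨u, hu, rfl⟩)
  have hne : ∀ u ∈ T, ∑ i, algebraMap ℂ Mer (u i) * θ (v i) ≠ 0 := by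
    intro u hu
    rw [SQB_sum, hθ]
    exact (hE _).2.2.1 (hsep2 u hu).ne_zero
  have hy : (fun i => θ (v i)) ≠ 0 := by
    intro h0
    obtain ⟨u, hu⟩ := SQB_nonempty hspan
    apply hne u hu
    refine Finset.sum_eq_zero fun i _ => ?_
    have h1 : θ (v i) = 0 := congrFun h0 i
    rw [h1, mul_zero]
  have hdv : ∀ z, 0 ≤ dv (fun i => θ (v i)) z := fun z =>
    SQB_dv hORD hVAL _ hy z fun i => by
      rw [hθ]
      exact (hE _).2.1 z
  refine hβ r w d Q A T lift hdat hdiv hspan (fun i => θ (v i)) (fun i => ?_) hne ?_ P hPirr hPmov ?_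
  · show Per _
    rw [hθ]
    exact (hE _).1
  · intro u hu z
    have h1 : om (∑ i, algebraMap ℂ Mer (u i) * θ (v i)) z ≤ 1 := by
      rw [SQB_sum, hθ]
      exact (hE _).2.2.2 (hsep2 u hu) z
    refine h1.trans ?_
    have h2 := hdv z
    have h3 : (1 : ℤ) ≤ dv (fun i => θ (v i)) z + 1 := by omega
    exact_mod_cast h3
  · have h1 : P ^ 2 ∣ map θ.toRingHom H ^ 2 := pow_dvd_pow_of_dvd hPdvd 2
    have h2 : map θ.toRingHom H ^ 2 ∣ map θ.toRingHom (Phi (RX b) d Q A v) := by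
      rw [← map_pow]
      exact map_dvd _ hdvd
    have h3 := h1.trans h2
    rw [hPhi] at h3
    exact h3

end Pool.MPH
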