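import Pool.Agent.Work.MP_f82ddf_H.Interface
import Pool.Agent.Work.MP_f82ddf_U.B_DSC

set_option autoImplicit false

open Pool.Agent.Work.MP_f82ddf_nt.DQ

namespace Pool.MPH

open MvPolynomial
open Pool.MPL (RX lineG)

theorem SQLx_line {b : ℕ} (p q : Fin (b + 1) → ℂ) (F : RX b) :
    (lineG F).map (eval (Sum.elim p q)) = onLine p q F := by
  unfold lineG onLine
  have h1 : ∀ G : RX b, (eval₂ (Polynomial.C.comp C)
    (fun i => Polynomial.C (X (Sum.inl i)) * Polynomial.X + Polynomial.C (X (Sum.inr i))) G :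
      Polynomial (MvPolynomial (Fin (b + 1) ⊕ Fin (b + 1)) ℂ)).map (eval (Sum.elim p q)) =
      (Polynomial.mapRingHom (eval (Sum.elim p q))) (eval₂ (Polynomial.C.comp C)
    (fun i => Polynomial.C (X (Sum.inl i)) * Polynomial.X + Polynomial.C (X (Sum.inr i))) G) :=
    fun G => rfl
  rw [h1, hom_eval₂]
  rw [aeval_def]
  congr 1
  · ext r
    simp
  · funext i
    simp

theorem p_SQLx (hSEP : Stmt_SEP) : Stmt_SQL := by
  classical
  intro b L Z hL hZ
  have h1 : ∀ F ∈ L, ∃ (δ : MvPolynomial (Fin (b + 1) ⊕ Fin (b + 1)) ℂ)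
      (U V : Polynomial (MvPolynomial (Fin (b + 1) ⊕ Fin (b + 1)) ℂ)), δ ≠ 0 ∧
      U * lineG F + V * Polynomial.derivative (lineG F) = Polynomial.C δ :=
    fun F hF => hSEP _ _ F (hL F hF)
  choose! δ U V hδ hUV using h1
  have h2 : Z * ∏ F ∈ L, δ F ≠ 0 := mul_ne_zero hZ (Finset.prod_ne_zero_iff.2 hδ)
  obtain ⟨w, hw⟩ : ∃ w : Fin (b + 1) ⊕ Fin (b + 1) → ℂ, eval w (Z * ∏ F ∈ L, δ F) ≠ 0 := by
    by_contra hcon
    push Not at hcon
    exact h2 (MvPolynomial.funext fun w => by rw [hcon w, map_zero])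
  refine ⟨fun i => w (Sum.inl i), fun i => w (Sum.inr i), ?_, ?_⟩
  · have h3 : Sum.elim (fun i => w (Sum.inl i)) (fun i => w (Sum.inr i)) = w := by
      funext i; cases i <;> rfl
    rw [h3]
    intro h0
    apply hw
    rw [map_mul, h0, zero_mul]
  · intro F hF
    have h3 : Sum.elim (fun i => w (Sum.inl i)) (fun i => w (Sum.inr i)) = w := by
      funext i; cases i <;> rfl
    have h4 : eval w (δ F) ≠ 0 := by
      intro h0
      apply hw
      rw [map_mul, map_prod, Finset.prod_eq_zero hF h0, mul_zero]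
    have h5 := congrArg (Polynomial.map (eval w)) (hUV F hF)
    rw [Polynomial.map_add, Polynomial.map_mul, Polynomial.map_mul, Polynomial.map_C,
      ← Polynomial.derivative_map, ← h3, SQLx_line] at h5
    rw [h3] at h5
    refine ⟨Polynomial.C (eval w (δ F))⁻¹ * (U F).map (eval w),
      Polynomial.C (eval w (δ F))⁻¹ * (V F).map (eval w), ?_⟩
    rw [mul_assoc, mul_assoc, ← mul_add, h5, ← Polynomial.C_mul, inv_mul_cancel₀ h4, map_one]

end Pool.MPH
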