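import Pool.Agent.Work.MP_f82ddf_H.Interface

set_option autoImplicit false

/-! # THEOREM H, block UNH -/

open Pool.Agent.Work.MP_f82ddf_nt.DQ

namespace Pool.MPH

open MvPolynomial
open Pool.Agent.Work.MP_f82ddf_M5 (lineAt resAt chow at2 comb Data)
open Pool.ThmM.Chow (ppt Phi Mov)
open Pool.MPL (RX aq UF inc)

/-- `φ = (aeval x) ∘ (map α)` -/
private noncomputable def UNH_phi {n : ℕ} (α : ℂ ≃+* ℂ) (x : Fin (n + 1) → Mer) : RX n →+* Mer :=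
  ((aeval x : RX n →ₐ[ℂ] Mer) : RX n →+* Mer).comp (map (α : ℂ →+* ℂ))

private lemma UNH_phi_alg {n : ℕ} (α : ℂ ≃+* ℂ) (x : Fin (n + 1) → Mer) :
    (UNH_phi α x).comp (algebraMap ℂ (RX n)) = (algebraMap ℂ Mer).comp (α : ℂ →+* ℂ) := by
  ext a
  simp [UNH_phi, algebraMap_eq]

private lemma UNH_map {σ : Type} {n : ℕ} (α : ℂ ≃+* ℂ) (x : Fin (n + 1) → Mer)
    (F : MvPolynomial σ ℂ) : map (UNH_phi α x) (map (algebraMap ℂ (RX n)) F) =
      map (algebraMap ℂ Mer) (map (α : ℂ →+* ℂ) F) := by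
  rw [map_map, map_map, UNH_phi_alg]

private lemma UNH_Phi {N r b : ℕ} (hFUN : Pool.Agent.Work.MP_f82ddf_M5.Stmt_FUN) (d : ℕ)
    (Q : MvPolynomial (Fin N) ℂ) (A : Fin (r + 1) → MvPolynomial (Fin N) ℂ)
    (v : Fin (r + 1) → RX b) (α : ℂ ≃+* ℂ) (x : Fin (b + 1) → Mer) :
    map (UNH_phi α x) (Phi (RX b) d Q A v) =
      Phi Mer d (aq α Q) (fun i => aq α (A i)) (fun i => aeval x (aq α (v i))) := by
  unfold Phi
  rw [hFUN.2.2.2.2.2, UNH_map]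
  congr 1
  unfold comb
  rw [map_sum]
  refine Finset.sum_congr rfl fun i _ => ?_
  rw [map_mul, map_C, UNH_map]
  rfl

theorem p_UNH : Stmt_UNZ → Stmt_DS2 → Pool.Agent.Work.MP_f82ddf_M5.Stmt_FUN → Stmt_UNH := by
  intro hUNZ hDS2 hFUN N r b d Q A v hdat hv hsq
  have h0 := hUNZ N r b d Q A v hdat hv
  obtain ⟨D, hD, hD2⟩ := hDS2 (Fin 2 × Fin N) b _ h0 hsq
  refine ⟨D, hD, ?_⟩
  intro α x P hPirr hPmov hPsq
  rw [← UNH_Phi hFUN] at hPsq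
  have h := hD2 α (UNH_phi α x) (fun z => by simp [UNH_phi]) P hPirr hPmov hPsq
  exact h

end Pool.MPH
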