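import Pool.Agent.Work.MP_f82ddf_H.Interface

set_option autoImplicit false

/-! # Block UNZ of THEOREM H (MP_f82ddf_nt) -/

namespace Pool.MPH

open MvPolynomial
open Pool.Agent.Work.MP_f82ddf_M5 (lineAt resAt chow at2 comb Data)
open Pool.ThmM.Chow (Phi)
open Pool.MPL (RX)

theorem p_UNZ (hFCH : Pool.ThmM.Chow.Stmt_FCH)
    (hLINE : Pool.Agent.Work.MP_f82ddf_M5.Stmt_LINE) : Stmt_UNZ := by
  intro N r b d Q A v hD hv h0
  obtain ⟨i, hi⟩ : ∃ i, v i ≠ 0 := Function.ne_iff.1 hv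
  obtain ⟨ξ, hξ⟩ : ∃ ξ : Fin (b + 1) → ℂ, eval ξ (v i) ≠ 0 := by
    by_contra hcon
    push Not at hcon
    exact hi (MvPolynomial.funext fun ξ => by rw [hcon ξ, map_zero])
  have h1 := hFCH.1 N r d (RX b) ℂ (eval ξ : RX b →+* ℂ) Q A v (by
    ext z
    · simp)
  rw [h0, map_zero, hFCH.2.1] at h1
  refine hLINE N d d Q (comb (RingHom.id ℂ) A (fun j => eval ξ (v j))) hD.irr hD.hom ?_ ?_ h1.symm
  · unfold comb
    refine IsHomogeneous.sum _ _ _ fun j _ => ?_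
    have h2 : (map (RingHom.id ℂ) (A j)).IsHomogeneous d := by
      rw [map_id]
      exact hD.homA j
    simpa using (isHomogeneous_C (Fin N) (eval ξ (v j))).mul h2
  · intro hdvd
    have h4 := hD.nd _ hdvd
    exact hξ (congrFun h4 i)

end Pool.MPH
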