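import Pool.Agent.Work.MP_f82ddf_H.Interface
import Pool.Agent.Work.MP_f82ddf_M0.B_CST

set_option autoImplicit false

/-! # Theorem H, block VFN: `v(y)` is not constant if `y` is not -/

open Pool.Agent.Work.MP_f82ddf_nt.DQ

namespace Pool.MPH

open MvPolynomial
open Pool.ThmP (Mor OnX OnK tm)
open Pool.MPL (RX NC)
open Pool.ThmM (dv)

/-- A form of degree `e` as a sum over all the exponents of degree `e`. -/
theorem VFN_sum {Ω R : Type} [Field Ω] [CommRing R] (b e N : ℕ)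
    (ε : Fin (N + 1) → Fin (b + 1) →₀ ℕ) (hinj : Function.Injective ε)
    (hε : ∀ μ : Fin (b + 1) →₀ ℕ, ∑ i, μ i = e ↔ ∃ c, ε c = μ) (f : Ω →+* R)
    (y : Fin (b + 1) → R) (F : MvPolynomial (Fin (b + 1)) Ω) (hF : F.IsHomogeneous e) :
    ∑ c, f (coeff (ε c) F) * ∏ i, y i ^ ε c i = eval₂ f y F := by
  classical
  rw [eval₂_eq']
  have h1 : ∑ c, f (coeff (ε c) F) * ∏ i, y i ^ ε c i
      = ∑ d ∈ Finset.univ.image ε, f (coeff d F) * ∏ i, y i ^ d i := by
    rw [Finset.sum_image (fun a _ a' _ h => hinj h)]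
  rw [h1]
  symm
  apply Finset.sum_subset
  · intro d hd
    have hd1 : ∑ i, d i = e := by
      have h2 := hF (mem_support_iff.1 hd)
      rw [← h2]
      simp [Finsupp.weight_apply, Finsupp.sum_fintype]
    obtain ⟨c, hc⟩ := (hε d).1 hd1
    exact Finset.mem_image.2 ⟨c, Finset.mem_univ _, hc⟩
  · intro d _ hd
    rw [notMem_support_iff.1 hd]
    simp

/-- The identity morphism of a projective space. -/
def VFN_id (Ω : Type) [Field Ω] (b : ℕ) : Mor Ω Ω b b (∅ : Set (MvPolynomial (Fin (b + 1)) Ω)) where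
  tuples := {X}
  homogeneous := by
    intro s hs
    rw [Set.mem_singleton_iff] at hs
    subst hs
    exact ⟨1, fun c => isHomogeneous_X _ _⟩
  compatible := by
    intro s hs t ht v _ c d
    rw [Set.mem_singleton_iff] at hs ht
    subst hs
    subst ht
    ring
  defined := by
    intro v hv _
    obtain ⟨c, hc⟩ := Function.ne_iff.1 hv
    exact ⟨X, rfl, c, by simpa using hc⟩

theorem p_VFN (hBPF : Stmt_BPF) (hVAL : Pool.ThmP.Stmt_VAL) (hVER : Pool.ThmP.Stmt_VER) :
    Stmt_VFN := by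
  classical
  intro Ω _ _ b r e v he hv hnz τ y hy
  obtain ⟨i, j, hyi, hyj⟩ := hy
  have hy0 : y ≠ 0 := fun h => hyi (by rw [h]; rfl)
  obtain ⟨⟨l₀, hl₀⟩, -⟩ := hBPF Ω b r e v hv hnz τ y hy0
  by_contra hNC
  have hconst : ∀ l, ∃ z : ℂ, eval₂ (tm τ) y (v l) = algebraMap ℂ Mer z * eval₂ (tm τ) y (v l₀) := by
    intro l
    by_contra h
    push Not at h
    exact hNC ⟨l₀, l, hl₀, h⟩
  obtain ⟨ε, g', hinj, hε, htup, -, hM⟩ := hVER Ω Ω b b e ∅ (VFN_id Ω b) he
  have hs : (fun c => ∏ i, (X i : MvPolynomial (Fin (b + 1)) Ω) ^ ε c i) ∈ g'.tuples := by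
    rw [htup]
    exact ⟨X, rfl, rfl⟩
  have hsum : ∀ l, ∑ c, tm τ (coeff (ε c) (v l)) *
      eval₂ (tm τ) y (∏ i, (X i : MvPolynomial (Fin (b + 1)) Ω) ^ ε c i)
        = eval₂ (tm τ) y (v l) := by
    intro l
    rw [← VFN_sum b e _ ε hinj hε (tm τ) y (v l) (hv l)]
    refine Finset.sum_congr rfl fun c _ => ?_
    congr 1
    simp [eval₂_prod, eval₂_pow]
  have key : ∀ c, ∃ z : ℂ, (∏ i, y i ^ ε c i) = algebraMap ℂ Mer z * eval₂ (tm τ) y (v l₀) := by
    intro c
    have h1 := hVAL Ω Ω b _ r ∅ g' (fun l c => coeff (ε c) (v l)) Finset.univ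
      (fun F hF => absurd hF (Set.notMem_empty F)) (by
        intro u hu _
        obtain ⟨l, hl⟩ := hnz u hu
        refine ⟨l, Finset.mem_univ _, ?_⟩
        rw [(hM (v l) (hv l)).1 u]
        intro h
        have := h X rfl
        simp only [eval_X] at this
        exact hl this) τ y (fun F hF => absurd hF (Set.notMem_empty F)) hy0 _ hs l₀
      (Finset.mem_univ _) (by
        rw [hsum l₀]
        exact hl₀) c
    beta_reduce at h1
    have hset : {q : Mer | ∃ j ∈ (Finset.univ : Finset (Fin (r + 1))),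
        q = (∑ c, tm τ (coeff (ε c) (v j)) *
          eval₂ (tm τ) y (∏ i, (X i : MvPolynomial (Fin (b + 1)) Ω) ^ ε c i)) /
          ∑ c, tm τ (coeff (ε c) (v l₀)) *
            eval₂ (tm τ) y (∏ i, (X i : MvPolynomial (Fin (b + 1)) Ω) ^ ε c i)}
        = Set.range (fun j => eval₂ (tm τ) y (v j) / eval₂ (tm τ) y (v l₀)) := by
      ext q
      simp only [hsum]
      simp [eq_comm]
    rw [hset, hsum] at h1
    obtain ⟨z, hz⟩ := Pool.ThmM0.stmt_CST r (fun l => eval₂ (tm τ) y (v l)) l₀ hl₀ hconst _ h1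
    refine ⟨z, ?_⟩
    rw [← hz, div_mul_cancel₀ _ hl₀]
    simp [eval₂_prod, eval₂_pow]
  -- the exponent `e δ_i`
  obtain ⟨c, hc⟩ := (hε (Finsupp.single i e)).1 (by
    rw [Finset.sum_eq_single i]
    · simp
    · intro k _ hk
      simp [hk.symm]
    · simp)
  obtain ⟨a, ha⟩ := key c
  obtain ⟨c', hc'⟩ := (hε (Finsupp.single i (e - 1) + Finsupp.single j 1)).1 (by
    simp only [Finsupp.add_apply, Finset.sum_add_distrib]
    rw [Finset.sum_eq_single i, Finset.sum_eq_single j]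
    · simp
      omega
    · intro k _ hk
      simp [hk.symm]
    · simp
    · intro k _ hk
      simp [hk.symm]
    · simp)
  obtain ⟨a', ha'⟩ := key c'
  have h1 : ∀ (k : Fin (b + 1)) (q : ℕ), ∏ i, y i ^ (Finsupp.single k q : Fin (b + 1) →₀ ℕ) i = y k ^ q := by
    intro k q
    rw [Finset.prod_eq_single k]
    · simp
    · intro m _ hm
      simp [hm.symm]
    · simp
  rw [hc, h1] at ha
  rw [hc'] at ha'
  simp only [Finsupp.add_apply, pow_add, Finset.prod_mul_distrib] at ha'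
  rw [h1, h1, pow_one] at ha'
  have ha0 : a ≠ 0 := by
    intro h
    rw [h, map_zero, zero_mul] at ha
    exact pow_ne_zero _ hyi ha
  refine hyj (a' / a) ?_
  have hpow : y i ^ e = y i ^ (e - 1) * y i := by
    rw [← pow_succ]
    congr 1
    omega
  have h2 : y i ^ (e - 1) * y j = y i ^ (e - 1) * (algebraMap ℂ Mer (a' / a) * y i) := by
    rw [ha', mul_left_comm, ← hpow, ha, ← mul_assoc, ← map_mul, div_mul_cancel₀ _ ha0]
  exact mul_left_cancel₀ (pow_ne_zero _ hyi) h2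

end Pool.MPH
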