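import Pool.Agent.Work.MP_f82ddf_V.All
import Pool.Agent.Work.MP_f82ddf_P.B_VER
import Pool.Agent.Work.MP_f82ddf_H.B_BPF
import Pool.Agent.Work.MP_f82ddf_H.B_CORS
import Pool.Agent.Work.MP_f82ddf_H.B_DIH
import Pool.Agent.Work.MP_f82ddf_H.B_DS1
import Pool.Agent.Work.MP_f82ddf_H.B_DS2
import Pool.Agent.Work.MP_f82ddf_H.B_EXO
import Pool.Agent.Work.MP_f82ddf_H.B_FHS
import Pool.Agent.Work.MP_f82ddf_H.B_FNH
import Pool.Agent.Work.MP_f82ddf_H.B_MPH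
import Pool.Agent.Work.MP_f82ddf_H.B_MVL
import Pool.Agent.Work.MP_f82ddf_H.B_NSQ
import Pool.Agent.Work.MP_f82ddf_H.B_OFF
import Pool.Agent.Work.MP_f82ddf_H.B_OTN
import Pool.Agent.Work.MP_f82ddf_H.B_PTH
import Pool.Agent.Work.MP_f82ddf_H.B_SEP
import Pool.Agent.Work.MP_f82ddf_H.B_SL1
import Pool.Agent.Work.MP_f82ddf_H.B_SL2
import Pool.Agent.Work.MP_f82ddf_H.B_SLF
import Pool.Agent.Work.MP_f82ddf_H.B_SQB
import Pool.Agent.Work.MP_f82ddf_H.B_SQE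
import Pool.Agent.Work.MP_f82ddf_H.B_SQLx
import Pool.Agent.Work.MP_f82ddf_H.B_UEH
import Pool.Agent.Work.MP_f82ddf_H.B_UNH
import Pool.Agent.Work.MP_f82ddf_H.B_UNZ
import Pool.Agent.Work.MP_f82ddf_H.B_VFN

/-!
# THEOREM H: assembly
-/

set_option autoImplicit false

namespace Pool.MPH

open Pool.ThmM.Chow Pool.MPL
open Pool.Agent.Work.MP_f82ddf_M5 (stmt_FUN stmt_DEG stmt_RES stmt_PRI all_LINE all_PTD all_IDE
  all_P5)

theorem all_CORS : Stmt_CORS := p_CORS q_CHP q_PLW q_PFA q_FNC q_FCH q_PHG q_LBD q_HTE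
    q_COP q_GRO q_FTL q_NDC q_EXE q_NVH q_COU q_END q_PRJ Pool.ThmM.all_VAL
theorem all_NSQ : Stmt_NSQ := p_NSQ all_CORS q_PHG q_LSB Pool.ThmM.all_GAU Pool.ThmM.all_VAL
    Pool.ThmM.all_TRA
theorem all_SEP : Stmt_SEP := p_SEP all_PRG stmt_RES
theorem all_SQE : Stmt_SQE := p_SQE all_SEP
theorem all_SQL : Stmt_SQL := p_SQLx all_SEP
theorem all_EXO : Stmt_EXO := p_EXO Pool.ThmM.all_REP Pool.ThmM.all_ALG Pool.ThmM.all_VAL
theorem all_MVL : Stmt_MVL := p_MVL q_FAC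
theorem all_SQB : Stmt_SQB := p_SQB all_NSQ all_SQL all_EXO all_MVL q_FCH Pool.ThmM.all_ORD
    Pool.ThmM.all_VAL
theorem all_UNZ : Stmt_UNZ := p_UNZ q_FCH all_LINE
theorem all_DS1 : Stmt_DS1 := p_DS1 all_PRG stmt_RES
theorem all_DS2 : Stmt_DS2 := p_DS2 all_DS1 all_DSC all_MIR
theorem all_UNH : Stmt_UNH := p_UNH all_UNZ all_DS2 stmt_FUN
theorem all_PTH : Stmt_PTH := p_PTH Pool.ThmM0.all_T3 Pool.MPV.all_DRF all_SQB all_UNH all_TRP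
    Pool.MPV.all_EXF all_MVP
theorem all_UEH : Stmt_UEH := p_UEH all_PTH all_AUT all_DSE all_RKT all_SQE
theorem all_SLF : Stmt_SLF := p_SLF p_SL1 p_SL2
theorem all_BPF : Stmt_BPF := p_BPF Pool.ThmP.all_NUL Pool.ThmM.all_VAL Pool.ThmM.all_ORD q_OZE
theorem all_VFN : Stmt_VFN := p_VFN all_BPF Pool.ThmP.all_VAL Pool.ThmP.p_VER
theorem all_OFF : Stmt_OFF := p_OFF Pool.ThmP.all_NUL Pool.ThmP.all_MPT Pool.ThmM.all_VAL
    Pool.ThmM.all_ORD q_OZE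
theorem all_MPH : Stmt_MPH := p_MPH all_SLF all_UEH all_BPF all_VFN all_OFF Pool.ThmP.all_MPT
    Pool.ThmP.all_FIB Pool.ThmM0.stmt_CST
theorem all_OTN : Stmt_OTN := p_OTN Pool.ThmM.all_REP Pool.ThmM.all_ALG Pool.ThmM.all_POL
    Pool.ThmM.all_ORD Pool.ThmM.all_VAL
/-- THEOREM H. -/
theorem all_H : Stmt_H := p_FNH all_MPH all_OTN Pool.ThmM0.stmt_MREL
theorem all_DIH : Stmt_DIH := p_DIH all_MPH Pool.ThmP.all_MPT Pool.ThmP.all_FIB Pool.ThmP.p_TRX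
    Pool.ThmM0.stmt_HOMR
/-- THEOREM H for curves and surfaces. -/
theorem all_HS : Stmt_HS := p_FHS all_DIH (Pool.ThmM0.stmt_PAI Pool.ThmM0.stmt_DHO)
    Pool.MCL.all_P6C

end Pool.MPH
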