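import Pool.Agent.Work.MP_f82ddf_P.Interface6

set_option autoImplicit false

/-! # THEOREM H (MP_f82ddf_nt), second file: morphisms which need not be finite

Table `mph_blocks`, same rules as in `Interface.lean` (import this file instead; namespace
`Pool.MPH`).  In the column `uses` `P.X` means `Pool.ThmP.Stmt_X`.

For ANY morphism `g : X → P^b` with multiplicities at least 2 over the `F j` every entire curve in `X`
is contained in the inverse image of `D = 0` or in a fibre of `g`; Lang's criterion for all `X` of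
dimension at most `d + 1`, `d ≤ 1`, such that the preimages of all the hypersurfaces of `P^b` are of
dimension at most `d` (`g.Thin d`), for example all surfaces with a generically finite morphism to the
plane, or with a morphism onto a curve. -/

open Pool.Agent.Work.MP_f82ddf_nt.DQ

namespace Pool.MPH

open MvPolynomial
open Pool.Agent.Work.MP_f82ddf_nt (PSpace HolomorphicOn complexPoints points KobayashiHyperbolic)
open Pool.ThmM (om dv)
open Pool.ThmP (Mor OnX OnK tm FullF NoRel RelP)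
open Pool.MPL (NC ExcSet Onto)

/-- The entire curve `f` in `X_τ` is contained in a fibre of `g`. -/
def InFibre {K Ω : Type} [Field K] [Field Ω] [Algebra K Ω] {m n : ℕ}
    {S : Set (MvPolynomial (Fin (m + 1)) K)} (g : Mor K Ω m n S) (τ : Ω →+* ℂ)
    (f : ℂ → PSpace ℂ m) : Prop :=
  ∃ w : Fin (n + 1) → ℂ, w ≠ 0 ∧ ∀ z, ∀ s ∈ g.tuples, ∀ c c',
    eval₂ τ (f z).rep (s c) * w c' = eval₂ τ (f z).rep (s c') * w c

/-- THEOREM H for all morphisms. -/
def Stmt_HG : Prop :=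
  ∀ b e₀ c : ℕ, 1 ≤ b → ∃ N₀ : ℕ, ∀ N : ℕ, N₀ ≤ N →
    ∀ (K : Type) [Field K] [NumberField K]
      (F : Fin (N + 1) → MvPolynomial (Fin (b + 1)) (AlgebraicClosure K)),
      (∀ j, ∃ e, 1 ≤ e ∧ e ≤ e₀ ∧ (F j).IsHomogeneous e) → (∀ j, Squarefree (F j)) →
      (∀ w : Fin (b + 1) → AlgebraicClosure K, w ≠ 0 → {j | eval w (F j) = 0}.ncard ≤ c) →
      ∃ (E : ℕ) (D : MvPolynomial (Fin (b + 1)) (AlgebraicClosure K)),
        D.IsHomogeneous E ∧ D ≠ 0 ∧
        (∀ (τ : AlgebraicClosure K →+* ℂ) (f : ℂ → PSpace ℂ b), HolomorphicOn f Set.univ →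
          (∀ j, Tng f (map τ (F j))) → (∃ z₁ z₂, f z₁ ≠ f z₂) → ∀ z, eval₂ τ (f z).rep D = 0) ∧
        ∀ (m : ℕ) (S : Set (MvPolynomial (Fin (m + 1)) K)),
          (∀ F ∈ S, ∃ d, F.IsHomogeneous d) →
          ∀ (g : Mor K (AlgebraicClosure K) m b S), (∀ j, FullF g 2 (F j)) →
          (Onto g → ∃ v : Fin (m + 1) → AlgebraicClosure K, v ≠ 0 ∧ OnX S v ∧
            ∃ s ∈ g.tuples, eval (fun c => eval v (s c)) D ≠ 0) ∧
          ∀ (τ : AlgebraicClosure K →+* ℂ),
            (∀ f : ℂ → PSpace ℂ m, HolomorphicOn f Set.univ →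
              (∀ z, f z ∈ complexPoints S (τ.comp (algebraMap K (AlgebraicClosure K)))) →
              (∀ z, f z ∈ ExcSet g D τ) ∨ InFibre g τ f) ∧
            (g.Finite → (∀ f : ℂ → PSpace ℂ m, HolomorphicOn f Set.univ →
                (∀ z, f z ∈ complexPoints S (τ.comp (algebraMap K (AlgebraicClosure K)))) →
                (∃ z₁ z₂, f z₁ ≠ f z₂) → ∀ z, f z ∈ ExcSet g D τ) ∧
              (KobayashiHyperbolic
                  (complexPoints S (τ.comp (algebraMap K (AlgebraicClosure K)))) ↔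
                KobayashiHyperbolic (ExcSet g D τ)))

/-- FHG (180 lines), uses MPH OTN M0.MREL OFF P.MPT.  PROOF of `Stmt_HG`.  `N₀`, `E`, `D` from MPH.
Everything except the clause with `InFibre` is the proof of FNH (`B_FNH.lean`): copy it.  THE NEW
CLAUSE.  `exists_mer_of_curve` as in `B_FNH.lean`: `φ`, `x_l = Mer.mk (φ l) (hφ l)`, `x i₀ = 1`,
`OnK (tm τ) S x`, so `x ≠ 0`.  MPT (1): `s₀ ∈ g.tuples`, `c₀` with `y_(c₀) ≠ 0`, `y_c = s₀_c(x)`.
CASE `NC y`: OFF gives `FuF 2 y e (map τ (F j))` for all degrees `e` of `F j`, so by MPH (1)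
`eval₂ (tm τ) y D = 0`; for all `s ∈ g.tuples` the vector `s(x)` is a multiple of `y` (MPT (2); as at
the end of `B_MPH.lean`), so `D(s(x)) = 0`, and MREL as in FNH: `f z ∈ ExcSet g D τ` for all `z`.
CASE NOT `NC y`: `y_c = a_c y_(c₀)` with `a_c ∈ ℂ` for all `c`, `w = a`, `a_(c₀) = 1`: `InFibre` as at the
end of `MP_f82ddf_P/B_GXC.lean` (the form `map τ (s c) * C (a c') - map τ (s c') * C (a c)` vanishes
at `x`, MREL with `id`). -/
def Stmt_FHG : Prop := Stmt_HG

/-- DIT (100 lines), uses MPH OFF P.MPT P.THN.  Thin morphisms.  PROOF.  As `B_DIH.lean` without FIB,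
TRX, HOMR.  Let `σ`, `x` be given, `x ≠ 0` (for `x = 0` the relation `X 0`), `τ` an extension of `σ` to the
algebraic closure, `OnK (tm τ) S x` as in `B_DIH.lean`.  MPT (1): `s ∈ g.tuples`, `c₀` with
`y_(c₀) ≠ 0`, `y_c = s_c(x)`.  THN: it is enough that `¬ NoRel y`.  If `NC y`: OFF and MPH (1):
`eval₂ (tm τ) y D = aeval y (map τ D) = 0`, `map τ D ≠ 0` a form.  If not `NC y`: as `1 ≤ b` there is an
index `c ≠ c₀`, and `y_c = a y_(c₀)`, `a ∈ ℂ`: the form `X c - C a * X c₀ ≠ 0` vanishes at `y`. -/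
def Stmt_DIT : Prop :=
  ∀ b e₀ c : ℕ, 1 ≤ b → ∃ N₀ : ℕ, ∀ N : ℕ, N₀ ≤ N →
    ∀ (K : Type) [Field K] [NumberField K]
      (F : Fin (N + 1) → MvPolynomial (Fin (b + 1)) (AlgebraicClosure K)),
      (∀ j, ∃ e, 1 ≤ e ∧ e ≤ e₀ ∧ (F j).IsHomogeneous e) → (∀ j, Squarefree (F j)) →
      (∀ w : Fin (b + 1) → AlgebraicClosure K, w ≠ 0 → {j | eval w (F j) = 0}.ncard ≤ c) →
      ∀ (m d : ℕ) (S : Set (MvPolynomial (Fin (m + 1)) K)), (∀ F ∈ S, ∃ d, F.IsHomogeneous d) →
        ∀ (g : Mor K (AlgebraicClosure K) m b S), g.Thin d → (∀ j, FullF g 2 (F j)) →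
          Pool.ThmM0.DimMer S d

/-- THEOREM H, Lang's criterion. -/
def Stmt_HL : Prop :=
  ∀ b e₀ c : ℕ, 1 ≤ b → ∃ N₀ : ℕ, ∀ N : ℕ, N₀ ≤ N →
    ∀ (K : Type) [Field K] [NumberField K]
      (F : Fin (N + 1) → MvPolynomial (Fin (b + 1)) (AlgebraicClosure K)),
      (∀ j, ∃ e, 1 ≤ e ∧ e ≤ e₀ ∧ (F j).IsHomogeneous e) → (∀ j, Squarefree (F j)) →
      (∀ w : Fin (b + 1) → AlgebraicClosure K, w ≠ 0 → {j | eval w (F j) = 0}.ncard ≤ c) →
      ∀ (m : ℕ) (S : Set (MvPolynomial (Fin (m + 1)) K)), (∀ F ∈ S, ∃ d, F.IsHomogeneous d) →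
        ∀ (g : Mor K (AlgebraicClosure K) m b S), (∀ j, FullF g 2 (F j)) →
          ((g.Finite ∧ b ≤ 2) ∨ ∃ d ≤ 1, g.Thin d) →
          (∀ σ : K →+* ℂ, KobayashiHyperbolic (complexPoints S σ) ↔
            ¬ Pool.MCL.CubicImage S (AlgebraicClosure K) (algebraMap K (AlgebraicClosure K))) ∧
          (Pool.MCL.CubicImage S (AlgebraicClosure K) (algebraMap K (AlgebraicClosure K)) →
            ∃ (L : Type) (_ : Field L) (_ : Algebra K L) (_ : FiniteDimensional K L),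
              (points S L).Infinite)

/-- FHL (60 lines), uses DIH DIT M0.PAI P6C (`Pool.MCL.stmt_P6C`).  PROOF of `Stmt_HL`.  `N₀` = the
maximum of the numbers from DIH (if `b ≤ 2`) and DIT.  `DimMer S 1`: DIH, or DIT and
`DimMer S 0 → DimMer S 1` (apply it to the first two of the three coordinates and rename the
variables; see `MP_f82ddf_P/B_FDX.lean`).  Then as `B_FHS.lean`. -/
def Stmt_FHL : Prop := Stmt_HL

end Pool.MPH
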