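import Pool.Agent.Work.MP_f82ddf_H.Interface2
import Pool.Agent.Work.MP_f82ddf_V.B_DIF

set_option autoImplicit false

/-! # THEOREM H, block DIT: thin morphisms -/

open Pool.Agent.Work.MP_f82ddf_nt.DQ

namespace Pool.MPH

open MvPolynomial
open Pool.Agent.Work.MP_f82ddf_nt (PSpace HolomorphicOn complexPoints points KobayashiHyperbolic)
open Pool.ThmP (Mor OnX OnK tm FullF NoRel RelP)

/-- A point which is constant satisfies a linear relation. -/
private theorem DIT_const {b : ℕ} (hb : 1 ≤ b) (y : Fin (b + 1) → Mer) (c₀ : Fin (b + 1))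
    (hc₀ : y c₀ ≠ 0) (h : ¬ Pool.MPL.NC y) : ¬ NoRel y := by
  intro hno
  obtain ⟨c, hc⟩ : ∃ c : Fin (b + 1), c ≠ c₀ := by
    have : Nontrivial (Fin (b + 1)) := Fin.nontrivial_iff_two_le.2 (by omega)
    exact exists_ne c₀
  obtain ⟨a, ha⟩ : ∃ a : ℂ, y c = algebraMap ℂ Mer a * y c₀ := by
    by_contra hcon
    push Not at hcon
    exact h ⟨c₀, c, hc₀, hcon⟩
  refine hno 1 (X c - C a * X c₀) ?_ ?_ ?_
  · intro h0
    have h1 := congrArg (eval (Pi.single c (1 : ℂ))) h0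
    rw [map_sub, map_mul, eval_X, eval_X, eval_C, Pi.single_eq_same,
      Pi.single_eq_of_ne (Ne.symm hc), mul_zero, sub_zero, map_zero] at h1
    exact one_ne_zero h1
  · have h3 := isHomogeneous_X ℂ c
    have h4 := (isHomogeneous_C (Fin (b + 1)) a).mul (isHomogeneous_X ℂ c₀)
    rw [zero_add] at h4
    exact h3.sub h4
  · rw [map_sub, map_mul, aeval_X, aeval_X, aeval_C, ha, sub_self]

/-- DIT -/
theorem p_DIT (h1 : Stmt_MPH) (h2 : Stmt_OFF) (hMPT : Pool.ThmP.Stmt_MPT)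
    (hTHN : Pool.ThmP.Stmt_THN) : Stmt_DIT := by
  intro b e₀ c hb
  obtain ⟨N₀, hN₀⟩ := h1 b e₀ c hb
  refine ⟨N₀, ?_⟩
  intro N hN K _ _ F hF hsq hc m d S hS g hthin hfull σ x hx
  have := Pool.MPV.DIF_countable K
  obtain ⟨E, D, hD, hD0, hDP, -⟩ := hN₀ (AlgebraicClosure K) N F hN hF hsq hc
  let τ : AlgebraicClosure K →+* ℂ :=
    letI : Algebra K ℂ := σ.toAlgebra
    (IsAlgClosed.lift (R := K) (M := ℂ) (S := AlgebraicClosure K)).toRingHom
  have hτ : τ.comp (algebraMap K (AlgebraicClosure K)) = σ := by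
    let : Algebra K ℂ := σ.toAlgebra
    exact AlgHom.comp_algebraMap
      (IsAlgClosed.lift (R := K) (M := ℂ) (S := AlgebraicClosure K))
  have hx' : OnK (tm τ) S x := by
    intro F hF
    have h6 : (tm τ).comp (algebraMap K (AlgebraicClosure K)) =
        (algebraMap ℂ Mer).comp σ := by
      rw [tm, RingHom.comp_assoc, hτ]
    rw [h6]
    exact hx F hF
  by_cases hx0 : x = 0
  · intro r
    refine ⟨1, X 0, X_ne_zero _, isHomogeneous_X _ _, ?_⟩
    rw [aeval_X, hx0]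
    rfl
  obtain ⟨s, hs, c₀, hc₀⟩ := (hMPT K (AlgebraicClosure K) Mer m b S g (tm τ) x hx').1 hx0
  refine hTHN K (AlgebraicClosure K) m b d S hS g hthin τ x hx' s hs ⟨c₀, hc₀⟩ ?_
  by_cases hNC : Pool.MPL.NC (fun c => eval₂ (tm τ) x (s c))
  · intro hno
    have hDy := hDP τ (fun c => eval₂ (tm τ) x (s c)) hNC fun j e he =>
      h2 K (AlgebraicClosure K) m b 2 S g hS τ x hx' s hs ⟨c₀, hc₀⟩ e (F j) he (hfull j)
    refine hno E (map τ D) ?_ (hD.map τ) ?_
    · intro h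
      exact hD0 (map_injective τ τ.injective (by rw [h, map_zero]))
    · rw [aeval_def, eval₂_map]
      exact hDy
  · exact DIT_const hb _ c₀ hc₀ hNC

end Pool.MPH
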