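import Pool.Agent.Work.MP_f82ddf_H.Interface2
import Pool.Agent.Work.MP_f82ddf_U.B_FNU

set_option autoImplicit false

/-! # THEOREM H (MP_f82ddf_nt), block FHG (helper18): morphisms which need not be finite -/

open Pool.Agent.Work.MP_f82ddf_nt.DQ

namespace Pool.MPH

open MvPolynomial
open Pool.Agent.Work.MP_f82ddf_nt (PSpace HolomorphicOn complexPoints KobayashiHyperbolic
  exists_entire_curve not_kobayashi)
open Pool.ThmP (Mor OnX OnK tm FullF)
open Pool.MPL (ExcSet Onto FNU_countable FNU_G FNU_G_hom FNU_G_eval FNU_mono FNU_onto)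

/-- FHG -/
theorem p_FHG (h1 : Stmt_MPH) (hO : Stmt_OTN) (h2 : Pool.ThmM0.Stmt_MREL) (hOFF : Stmt_OFF)
    (hMPT : Pool.ThmP.Stmt_MPT) : Stmt_FHG := by
  intro b e₀ c hb
  obtain ⟨N₀, hN⟩ := h1 b e₀ c hb
  refine ⟨N₀, fun N hNN K _ _ F hFd hFs hFc => ?_⟩
  have : Countable (AlgebraicClosure K) := FNU_countable K
  obtain ⟨E, D, hDh, hD0, hDP, hDX⟩ := hN (AlgebraicClosure K) N F hNN hFd hFs hFc
  refine ⟨E, D, hDh, hD0, fun τ f hf htng hab z => ?_,
    fun m S hS g hdiv => ⟨fun hon => ?_, fun τ => ⟨?_, fun hfin => ?_⟩⟩⟩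
  · -- entire curves in projective space
    obtain ⟨φ, hφ, i₀, hi₀, -, hrep, hcon⟩ := exists_mer_of_curve (K := ℂ) (n := b) (S := ∅)
      (fun F hF => absurd hF (Set.notMem_empty _)) (RingHom.id ℂ) f hf
      (fun z F hF => absurd hF (Set.notMem_empty _))
    obtain ⟨j, hj⟩ := hcon hab
    have hFu : ∀ j e, (F j).IsHomogeneous e →
        FuF 2 (fun l => Mer.mk (φ l) (hφ l)) e (map τ (F j)) := fun j e he =>
      hO b e (map τ (F j)) f hf (he.map τ) (htng j) φ hφ i₀ hi₀ hrep
    have hNC : Pool.MPL.NC (fun l => Mer.mk (φ l) (hφ l)) := by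
      refine ⟨i₀, j, ?_, fun a => ?_⟩
      · change Mer.mk (φ i₀) (hφ i₀) ≠ 0
        rw [hi₀]
        exact one_ne_zero
      · change Mer.mk (φ j) (hφ j) ≠ algebraMap ℂ Mer a * Mer.mk (φ i₀) (hφ i₀)
        rw [hi₀, mul_one]
        exact hj a
    have h4 := hDP τ (fun l => Mer.mk (φ l) (hφ l)) hNC hFu
    have h5 : aeval (fun i => Mer.mk (φ (id i)) (hφ (id i))) (map τ D) = 0 := by
      rw [aeval_def, eval₂_map]
      exact h4
    have h6 := h2 b f φ hφ hf hrep (b + 1) E id (map τ D) (hDh.map τ) h5 z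
    rw [eval_map] at h6
    exact h6
  · have : Infinite (AlgebraicClosure K) := inferInstance
    exact FNU_onto g D hDh hD0 hon
  · -- all entire curves
    intro f hf hfX
    obtain ⟨φ, hφ, i₀, hi₀, hFx, hrep, -⟩ :=
      exists_mer_of_curve hS (τ.comp (algebraMap K (AlgebraicClosure K))) f hf hfX
    obtain ⟨x, hxdef⟩ : ∃ x : Fin (m + 1) → Mer, x = fun j => Mer.mk (φ j) (hφ j) := ⟨_, rfl⟩
    have hx' : OnK (tm τ) S x := by
      intro F hF
      have h6 : (tm τ).comp (algebraMap K (AlgebraicClosure K)) =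
          (algebraMap ℂ Mer).comp (τ.comp (algebraMap K (AlgebraicClosure K))) := by
        rw [tm, RingHom.comp_assoc]
      rw [h6, hxdef]
      exact hFx F hF
    have hx0 : x ≠ 0 := by
      intro h
      have h3 : x i₀ = 1 := by
        rw [hxdef]
        exact hi₀
      rw [h] at h3
      exact zero_ne_one h3
    have hM := hMPT K (AlgebraicClosure K) Mer m b S g (tm τ) x hx'
    obtain ⟨s₀, hs₀, c₀, hc₀⟩ := hM.1 hx0
    have hsc : ∀ s ∈ g.tuples, ∀ d, eval₂ (tm τ) x (s d)
        = eval₂ (tm τ) x (s c₀) / eval₂ (tm τ) x (s₀ c₀) * eval₂ (tm τ) x (s₀ d) := by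
      intro s hs d
      have h4 := hM.2 s hs s₀ hs₀ d c₀
      rw [div_mul_eq_mul_div, eq_div_iff hc₀]
      exact h4
    by_cases hNC : Pool.MPL.NC (fun c => eval₂ (tm τ) x (s₀ c))
    · left
      have hDy := hDP τ (fun c => eval₂ (tm τ) x (s₀ c)) hNC fun j e he =>
        hOFF K (AlgebraicClosure K) m b 2 S g hS τ x hx' s₀ hs₀ ⟨c₀, hc₀⟩ e (F j) he (hdiv j)
      intro z
      refine ⟨hfX z, fun s hs => ?_⟩
      obtain ⟨a, ha⟩ := g.homogeneous s hs
      have h4 : eval₂ (tm τ) (fun c => eval₂ (tm τ) x (s c)) D = 0 := by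
        have hprop : (fun c => eval₂ (tm τ) x (s c)) =
            (eval₂ (tm τ) x (s c₀) / eval₂ (tm τ) x (s₀ c₀)) •
              fun c => eval₂ (tm τ) x (s₀ c) := by
          funext d
          rw [Pi.smul_apply, smul_eq_mul]
          exact hsc s hs d
        rw [hprop, Pool.Agent.Work.MP_f82ddf_nt.eval₂_smul_hom hDh, hDy, mul_zero]
      rw [hxdef] at h4
      have h5 : aeval (fun i => Mer.mk (φ (id i)) (hφ (id i))) (FNU_G τ s D) = 0 := by
        rw [aeval_def, FNU_G_eval]
        exact h4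
      have h6 := h2 m f φ hφ hf hrep (m + 1) (a * E) id (FNU_G τ s D)
        (FNU_G_hom τ s D ha hDh) h5 z
      have h7 : eval (fun i => (f z).rep (id i)) (FNU_G τ s D) =
          eval₂ (RingHom.id ℂ) (f z).rep (FNU_G τ s D) := rfl
      rw [h7, FNU_G_eval, RingHom.id_comp] at h6
      exact h6
    · right
      have hconst : ∀ d, ∃ a : ℂ,
          eval₂ (tm τ) x (s₀ d) = algebraMap ℂ Mer a * eval₂ (tm τ) x (s₀ c₀) := by
        intro d
        by_contra hcon
        push Not at hcon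
        exact hNC ⟨c₀, d, hc₀, hcon⟩
      choose a ha using hconst
      have ha0 : a c₀ ≠ 0 := by
        intro h
        apply hc₀
        rw [ha c₀, h, map_zero, zero_mul]
      refine ⟨a, fun h => ha0 (congrFun h c₀), ?_⟩
      intro z s hs d d'
      obtain ⟨es, hes⟩ := g.homogeneous s hs
      have hmap : ∀ l, eval₂ (algebraMap ℂ Mer) x (map τ (s l)) = eval₂ (tm τ) x (s l) := by
        intro l
        rw [eval₂_map]
        rfl
      have hvan : aeval x (map τ (s d) * C (a d') - map τ (s d') * C (a d)) = 0 := by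
        rw [aeval_def, eval₂_sub, eval₂_mul, eval₂_mul, eval₂_C, eval₂_C, hmap, hmap,
          hsc s hs d, hsc s hs d']
        rw [ha d, ha d']
        ring
      rw [hxdef] at hvan
      have hhom : (map τ (s d) * C (a d') - map τ (s d') * C (a d)).IsHomogeneous es := by
        have h3 := ((hes d).map τ).mul (isHomogeneous_C (Fin (m + 1)) (a d'))
        have h4 := ((hes d').map τ).mul (isHomogeneous_C (Fin (m + 1)) (a d))
        exact h3.sub h4
      have h5 := h2 m f φ hφ hf hrep (m + 1) es id _ hhom hvan z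
      rw [map_sub, map_mul, map_mul, eval_C, eval_C, eval_map, eval_map, sub_eq_zero] at h5
      exact h5
  · set σ : K →+* ℂ := τ.comp (algebraMap K (AlgebraicClosure K)) with hσ
    have hcurve : ∀ f : ℂ → PSpace ℂ m, HolomorphicOn f Set.univ →
        (∀ z, f z ∈ complexPoints S σ) → (∃ a b, f a ≠ f b) → ∀ z, f z ∈ ExcSet g D τ := by
      intro f hf hfX hab z
      obtain ⟨φ, hφ, i₀, hi₀, hF, hrep, hcon⟩ := exists_mer_of_curve hS σ f hf hfX
      obtain ⟨j, hj⟩ := hcon hab
      refine ⟨hfX z, fun s hs => ?_⟩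
      obtain ⟨a, ha⟩ := g.homogeneous s hs
      have hon : OnK (tm τ) S (fun j => Mer.mk (φ j) (hφ j)) := by
        intro F hFS
        have h3 : (tm τ).comp (algebraMap K (AlgebraicClosure K)) = (algebraMap ℂ Mer).comp σ := by
          rw [tm, RingHom.comp_assoc, hσ]
        rw [h3]
        exact hF F hFS
      have h4 := hDX K m S hS g hfin hdiv τ (fun j => Mer.mk (φ j) (hφ j)) hon
        ⟨i₀, j, by rw [hi₀]; exact one_ne_zero, fun a => by rw [hi₀, mul_one]; exact hj a⟩ s hs
      have h5 : aeval (fun i => Mer.mk (φ (id i)) (hφ (id i))) (FNU_G τ s D) = 0 := by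
        rw [aeval_def, FNU_G_eval]
        exact h4
      have h6 := h2 m f φ hφ hf hrep (m + 1) (a * E) id (FNU_G τ s D)
        (FNU_G_hom τ s D ha hDh) h5 z
      have h7 : eval (fun i => (f z).rep (id i)) (FNU_G τ s D) =
          eval₂ (RingHom.id ℂ) (f z).rep (FNU_G τ s D) := rfl
      rw [h7, FNU_G_eval, RingHom.id_comp] at h6
      exact h6
    refine ⟨hcurve, fun hX => ?_, fun hZ => ?_⟩
    · exact FNU_mono (fun p hp => hp.1) hX
    · by_contra hX
      obtain ⟨f, hf, hfX, a, b, hab⟩ := exists_entire_curve hS σ hX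
      exact not_kobayashi f hf (hcurve f hf hfX ⟨a, b, hab⟩) a b hab hZ

end Pool.MPH
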