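import Pool.Agent.Work.MP_f82ddf_H.Interface2

set_option autoImplicit false

/-! # THEOREM H, block FHL: the criterion of Lang -/

namespace Pool.MPH

open MvPolynomial

/-- Relations between fewer coordinates give relations between more coordinates. -/
private theorem FHL_mono {K : Type} [Field K] {m : ℕ} (S : Set (MvPolynomial (Fin (m + 1)) K))
    {a b : ℕ} (hab : a ≤ b) (h : Pool.ThmM0.DimMer S a) : Pool.ThmM0.DimMer S b := by
  intro σ x hx s
  have hle : a + 2 ≤ b + 2 := by omega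
  obtain ⟨e, P, hP, hPh, hPe⟩ := h σ x hx (fun i => s (Fin.castLE hle i))
  refine ⟨e, rename (Fin.castLE hle) P, ?_, hPh.rename_isHomogeneous, ?_⟩
  · intro h0
    apply hP
    have hinj := rename_injective (R := ℂ) (Fin.castLE hle) (Fin.castLE_injective hle)
    exact hinj (by simpa using h0)
  · rw [aeval_rename]
    exact hPe

/-- FHL -/
theorem p_FHL (h1 : Stmt_DIH) (h2 : Stmt_DIT) (h3 : Pool.ThmM0.Stmt_PAI)
    (h4 : Pool.MCL.stmt_P6C) : Stmt_FHL := by
  intro b e₀ c hb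
  obtain ⟨N₂, hN₂⟩ := h2 b e₀ c hb
  by_cases hb2 : b ≤ 2
  · obtain ⟨N₁, hN₁⟩ := h1 b e₀ c hb hb2
    refine ⟨max N₁ N₂, fun N hNN K _ _ F hF hsq hc m S hS g hfull hg => ?_⟩
    have hdim : Pool.ThmM0.DimMer S 1 := by
      rcases hg with ⟨hfin, -⟩ | ⟨d, hd, hthin⟩
      · exact hN₁ N (le_trans (le_max_left _ _) hNN) K F hF hsq hc m S hS g hfin hfull
      · exact FHL_mono S hd (hN₂ N (le_trans (le_max_right _ _) hNN) K F hF hsq hc m d S hS g
          hthin hfull)
    refine h4 K m S hS ?_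
    intro σ x i hi hFF
    exact h3 K m 1 S le_rfl hdim σ x i hi hFF
  · refine ⟨N₂, fun N hNN K _ _ F hF hsq hc m S hS g hfull hg => ?_⟩
    have hdim : Pool.ThmM0.DimMer S 1 := by
      rcases hg with ⟨-, hb3⟩ | ⟨d, hd, hthin⟩
      · exact absurd hb3 hb2
      · exact FHL_mono S hd (hN₂ N hNN K F hF hsq hc m d S hS g hthin hfull)
    refine h4 K m S hS ?_
    intro σ x i hi hFF
    exact h3 K m 1 S le_rfl hdim σ x i hi hFF

end Pool.MPH
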