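import Pool.Agent.Work.MP_f82ddf_P.All4
import Pool.Agent.Work.MP_f82ddf_H.B_FHG
import Pool.Agent.Work.MP_f82ddf_H.B_DIT
import Pool.Agent.Work.MP_f82ddf_H.B_FHL

/-!
# THEOREM H for morphisms which need not be finite: assembly
-/

set_option autoImplicit false

namespace Pool.MPH

/-- THEOREM H for all morphisms. -/
theorem all_HG : Stmt_HG := p_FHG all_MPH all_OTN Pool.ThmM0.stmt_MREL all_OFF Pool.ThmP.all_MPT
theorem all_DIT : Stmt_DIT := p_DIT all_MPH all_OFF Pool.ThmP.all_MPT Pool.ThmP.all_THN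
/-- THEOREM H, Lang's criterion. -/
theorem all_HL : Stmt_HL := p_FHL all_DIH all_DIT (Pool.ThmM0.stmt_PAI Pool.ThmM0.stmt_DHO)
    Pool.MCL.all_P6C

end Pool.MPH
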