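import Pool.Agent.Work.MP_f82ddf_H.Interface

set_option autoImplicit false

/-! # THEOREM H: block MPH (points with values in `Mer`) -/

open Pool.Agent.Work.MP_f82ddf_nt.DQ

namespace Pool.MPH

open MvPolynomial
open Pool.Agent.Work.MP_f82ddf_nt (PSpace HolomorphicOn complexPoints KobayashiHyperbolic)
open Pool.ThmM (om dv)
open Pool.ThmP (Mor OnX OnK tm FullF)
open Pool.MPL (RX NC aq ae NPr Spn ExcSet Onto)
open Pool.MPV (Ful)

theorem p_MPH (hSLF : Stmt_SLF) (hUEH : Stmt_UEH) (hBPF : Stmt_BPF) (hVFN : Stmt_VFN)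
    (hOFF : Stmt_OFF) (hMPT : Pool.ThmP.Stmt_MPT) (hFIB : Pool.ThmP.Stmt_FIB)
    (hCST : Pool.ThmM0.Stmt_CST) : Stmt_MPH := by
  classical
  intro b e₀ c hb
  have hU : ∀ r c' : ℕ, ∃ N₁ : ℕ, 1 ≤ r → ∀ (Ω : Type) [Field Ω] [IsAlgClosed Ω]
      [Countable Ω] (b e : ℕ) (v : Fin (r + 1) → MvPolynomial (Fin (b + 1)) Ω)
      (S : Finset (Fin (r + 1) → Ω)),
      (∀ i, (v i).IsHomogeneous e) → (∀ u ∈ S, ∀ u' ∈ S, u ≠ u' → NPr u u') → Spn c' S →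
      N₁ ≤ S.card → (∀ u ∈ S, Squarefree (∑ i, C (u i) * v i)) →
      ∃ (E : ℕ) (D : MvPolynomial (Fin (b + 1)) Ω), 1 ≤ E ∧ D.IsHomogeneous E ∧ D ≠ 0 ∧
        ∀ (τ : Ω →+* ℂ) (x : Fin (b + 1) → Mer), NC (fun i => eval₂ (tm τ) x (v i)) →
          (∀ u ∈ S, Ful 2 (fun i => eval₂ (tm τ) x (v i)) (fun i => τ (u i))) →
          eval₂ (tm τ) x D = 0 := by
    intro r c'
    by_cases h : 1 ≤ r
    · obtain ⟨N₁, h1⟩ := hUEH r c' h
      exact ⟨N₁, fun _ => h1⟩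
    · exact ⟨0, fun h' => absurd h' h⟩
  choose f hf using hU
  obtain ⟨N₀, hN₀⟩ := hSLF b e₀ c f hb
  refine ⟨N₀, ?_⟩
  intro Ω _ _ _ N F hN hFd hFs hFc
  obtain ⟨e, r, c', v, S₁, he, hr, hv, hNPr, hSpn, hcard, hFj, hnz⟩ := hN₀ Ω N F hN hFd hFc
  have hsq : ∀ u ∈ S₁, Squarefree (∑ i, C (u i) * v i) := by
    intro u hu
    obtain ⟨j, hj⟩ := hFj u hu
    rw [← hj]
    exact hFs j
  obtain ⟨E, D, -, hD, hD0, hDx⟩ := hf r c' hr Ω b e v S₁ hv hNPr hSpn hcard hsq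
  have hFhom : ∀ u ∈ S₁, (∑ i, C (u i) * v i).IsHomogeneous e := by
    intro u _
    refine IsHomogeneous.sum _ _ _ fun i _ => ?_
    have := (isHomogeneous_C (Fin (b + 1)) (u i)).mul (hv i)
    rwa [zero_add] at this
  have key : ∀ (τ : Ω →+* ℂ) (y : Fin (b + 1) → Mer), NC y →
      (∀ j e, (F j).IsHomogeneous e → FuF 2 y e (map τ (F j))) → eval₂ (tm τ) y D = 0 := by
    intro τ y hy hful
    have hy0 : y ≠ 0 := by
      obtain ⟨i, j, hi, -⟩ := hy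
      exact fun h => hi (congrFun h i)
    refine hDx τ y (hVFN Ω b r e v he hv hnz τ y hy) ?_
    intro u hu z
    obtain ⟨j, hj⟩ := hFj u hu
    have h1 := hful j e (by rw [hj]; exact hFhom u hu) z
    have h2 : aeval y (map τ (F j)) =
        ∑ i, algebraMap ℂ Mer (τ (u i)) * eval₂ (tm τ) y (v i) := by
      rw [aeval_def, eval₂_map]
      change eval₂ (tm τ) y (F j) = _
      rw [hj, ← coe_eval₂Hom, map_sum]
      refine Finset.sum_congr rfl fun i _ => ?_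
      rw [map_mul, coe_eval₂Hom, eval₂_C]
      rfl
    have h3 := (hBPF Ω b r e v hv hnz τ y hy0).2 z
    rw [h2] at h1
    rw [h3]
    exact h1
  refine ⟨E, D, hD, hD0, key, ?_⟩
  intro K _ _ m S hS g hg hful τ x hx hnc s hs
  obtain ⟨i₀, i, hi₀, hi⟩ := hnc
  obtain ⟨M1, M2⟩ := hMPT K Ω Mer m b S g (tm τ) x hx
  have hx0 : x ≠ 0 := fun h => hi₀ (congrFun h i₀)
  obtain ⟨s₀, hs₀, c₀, hc₀⟩ := M1 hx0
  -- the image is not constant
  have hNC : ∃ j, ∀ z : ℂ, eval₂ (tm τ) x (s₀ j) ≠ algebraMap ℂ Mer z * eval₂ (tm τ) x (s₀ c₀) := by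
    by_contra hcon
    push Not at hcon
    have h1 := hFIB K Ω m b S g hS hg τ x hx s₀ hs₀ c₀ hc₀ i i₀ hi₀
    obtain ⟨z, hz⟩ := hCST b (fun c => eval₂ (tm τ) x (s₀ c)) c₀ hc₀ hcon _ h1
    exact hi z ((div_eq_iff hi₀).1 hz)
  obtain ⟨j₁, hj₁⟩ := hNC
  have hNCx : NC (fun c => eval₂ (tm τ) x (s₀ c)) := ⟨c₀, j₁, hc₀, hj₁⟩
  have hDx' := key τ _ hNCx fun j e' he' =>
    hOFF K Ω m b 2 S g hS τ x hx s₀ hs₀ ⟨c₀, hc₀⟩ e' (F j) he' (hful j)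
  -- all the tuples are proportional
  have hprop : (fun c => eval₂ (tm τ) x (s c)) =
      (eval₂ (tm τ) x (s c₀) / eval₂ (tm τ) x (s₀ c₀)) •
        fun c => eval₂ (tm τ) x (s₀ c) := by
    funext d
    have h1 := M2 s hs s₀ hs₀ d c₀
    rw [Pi.smul_apply, smul_eq_mul]
    field_simp
    linear_combination h1
  rw [hprop, Pool.Agent.Work.MP_f82ddf_nt.eval₂_smul_hom hD, hDx', mul_zero]

end Pool.MPH
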