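import Pool.Agent.Work.MP_f82ddf_H.Interface
import Pool.Agent.Work.MP_f82ddf_U.B_DSC

set_option autoImplicit false

/-! # THEOREM H, block SQE: squarefree polynomials stay squarefree over larger fields -/

namespace Pool.MPH

open MvPolynomial
open Pool.MPL (lineG DSC_hom DSC_hom_apply DSC_deg DSC_map)

theorem p_SQE : Stmt_SEP → Stmt_SQE := by
  intro hSEP σ F M _ _ _ _ τ G hG
  obtain ⟨δ, U, V, hδ, hUV⟩ := hSEP σ F G hG
  have hG0 : map τ G ≠ 0 := by
    intro h
    apply hG.ne_zero
    apply map_injective τ τ.injective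
    rw [h, map_zero]
  rw [squarefree_iff_no_irreducibles hG0]
  rintro P hP ⟨K, hK⟩
  have h1 : (lineG G).map (map τ) = lineG P * (lineG P * lineG K) := by
    rw [← DSC_map, hK, ← DSC_hom_apply, map_mul, map_mul, DSC_hom_apply, DSC_hom_apply, mul_assoc]
  have h2 : lineG P ∣ (lineG G).map (map τ) := ⟨_, h1⟩
  have h3 : lineG P ∣ (Polynomial.derivative (lineG G)).map (map τ) := by
    rw [← Polynomial.derivative_map, h1, Polynomial.derivative_mul]
    refine dvd_add ?_ ⟨_, rfl⟩
    exact ⟨Polynomial.derivative (lineG P) * lineG K, by ring⟩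
  have h4 : lineG P ∣ Polynomial.C (map τ δ) := by
    have h5 := congrArg (Polynomial.map (map τ)) hUV
    rw [Polynomial.map_add, Polynomial.map_mul, Polynomial.map_mul, Polynomial.map_C] at h5
    rw [← h5]
    exact dvd_add (h2.mul_left _) (h3.mul_left _)
  have h5 : map τ δ ≠ 0 := by
    intro h
    apply hδ
    apply map_injective τ τ.injective
    rw [h, map_zero]
  have h6 : (Polynomial.C (map τ δ) : Polynomial (MvPolynomial (σ ⊕ σ) M)) ≠ 0 := by
    rw [Ne, Polynomial.C_eq_zero]
    exact h5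
  have h7 := Polynomial.natDegree_le_of_dvd h4 h6
  rw [Polynomial.natDegree_C, Nat.le_zero] at h7
  obtain ⟨r, hr⟩ := DSC_deg P h7
  have hr0 : r ≠ 0 := by
    rintro rfl
    rw [C_0] at hr
    exact hP.ne_zero hr
  apply hP.not_isUnit
  rw [hr]
  exact (IsUnit.mk0 _ hr0).map C

end Pool.MPH
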