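import Pool.Agent.Work.MP_f82ddf_H.Interface

set_option autoImplicit false

/-! # THEOREM H (MP_f82ddf_nt), block SQL: choice of a line -/

open Pool.Agent.Work.MP_f82ddf_nt.DQ

namespace Pool.MPH

open MvPolynomial
open Pool.MPL (RX lineG)

private theorem SQL_hom {b : ℕ} (p q : Fin (b + 1) → ℂ) (F : RX b) :
    Polynomial.map (eval (Sum.elim p q)) (lineG F) = onLine p q F := by
  unfold lineG onLine
  induction F using MvPolynomial.induction_on with
  | C a =>
    rw [eval₂_C, aeval_C, RingHom.comp_apply, Polynomial.map_C, eval_C]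
    rfl
  | add f g hf hg => rw [eval₂_add, Polynomial.map_add, map_add, hf, hg]
  | mul_X f i hf =>
    rw [eval₂_mul, Polynomial.map_mul, map_mul, hf, eval₂_X, aeval_X]
    simp

/-- SQL -/
theorem p_SQL (h1 : Stmt_SEP) : Stmt_SQL := by
  classical
  intro b L Z hL hZ
  have h2 : ∀ F : RX b, ∃ (δ : MvPolynomial (Fin (b + 1) ⊕ Fin (b + 1)) ℂ)
      (U V : Polynomial (MvPolynomial (Fin (b + 1) ⊕ Fin (b + 1)) ℂ)), δ ≠ 0 ∧
      (F ∈ L → U * lineG F + V * Polynomial.derivative (lineG F) = Polynomial.C δ) := by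
    intro F
    by_cases hF : F ∈ L
    · obtain ⟨δ, U, V, h3, h4⟩ := h1 (Fin (b + 1)) ℂ F (hL F hF)
      exact ⟨δ, U, V, h3, fun _ => h4⟩
    · exact ⟨1, 0, 0, one_ne_zero, fun h => absurd h hF⟩
  choose δ U V hδ hUV using h2
  have h3 : Z * ∏ F ∈ L, δ F ≠ 0 :=
    mul_ne_zero hZ (Finset.prod_ne_zero_iff.2 fun F _ => hδ F)
  obtain ⟨x, hx⟩ : ∃ x, eval x (Z * ∏ F ∈ L, δ F) ≠ 0 := by
    by_contra hcon
    push Not at hcon
    exact h3 (MvPolynomial.funext fun x => by rw [hcon x, map_zero])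
  have hxe : Sum.elim (x ∘ Sum.inl) (x ∘ Sum.inr) = x := Sum.elim_comp_inl_inr x
  rw [map_mul, map_prod] at hx
  refine ⟨x ∘ Sum.inl, x ∘ Sum.inr, ?_, fun F hF => ?_⟩
  · rw [hxe]
    exact left_ne_zero_of_mul hx
  · have h4 : eval x (δ F) ≠ 0 :=
      Finset.prod_ne_zero_iff.1 (right_ne_zero_of_mul hx) F hF
    have h5 := congrArg (Polynomial.map (eval x)) (hUV F hF)
    have h6 := SQL_hom (x ∘ Sum.inl) (x ∘ Sum.inr) F
    rw [hxe] at h6
    rw [Polynomial.map_add, Polynomial.map_mul, Polynomial.map_mul, ← Polynomial.derivative_map,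
      Polynomial.map_C, h6] at h5
    refine ⟨Polynomial.C (eval x (δ F))⁻¹ * Polynomial.map (eval x) (U F),
      Polynomial.C (eval x (δ F))⁻¹ * Polynomial.map (eval x) (V F), ?_⟩
    rw [mul_assoc, mul_assoc, ← mul_add, h5, ← Polynomial.C_mul, inv_mul_cancel₀ h4,
      Polynomial.C_1]

end Pool.MPH
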