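import Pool.Agent.Work.MP_f82ddf_V.Interface
import Pool.Agent.Work.MP_f82ddf_P.VGF

set_option autoImplicit false

/-! # THEOREM H (MP_f82ddf_nt): multiplicities at least 2 along hypersurfaces of any degree

Folder `Pool/Agent/Work/MP_f82ddf_H`, table `mph_blocks`.  Block file `B_X.lean`: import this file
(and other block files for auxiliary lemmas), namespace `Pool.MPH`, final theorem
`p_X : Stmt_A → Stmt_B → .. → Stmt_X` with the blocks of the column `uses` as hypotheses, in that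
order; all other lemmas with the prefix `X_`.  In the column `uses` a prefix means another project:
`M1.` = `Pool.ThmM.Stmt_`, `M3.` = `Pool.ThmM.Chow.Stmt_`, `M5.` = `Pool.Agent.Work.MP_f82ddf_M5.Stmt_`,
`M2.T3` = `Pool.ThmM.Stmt_T3`, `M0.` = `Pool.ThmM0.Stmt_`, `P.` = `Pool.ThmP.Stmt_`,
`U.` = `Pool.MPL.Stmt_`, `V.` = `Pool.MPV.Stmt_`.

RESULT.  Let `F_0, .., F_N` be squarefree forms of degrees between 1 and `e₀` in `b + 1` variables over
the algebraic closure of a number field, at most `c` of them vanishing at a point of `P^b`,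
`N ≥ N₀(b, e₀, c)`.  There is a form `D ≠ 0` such that every entire curve in `P^b`, not constant, which
meets all the hypersurfaces `F_j = 0` only with multiplicities at least 2 is contained in `D = 0`; the
same for the entire curves in all varieties `X` with a finite morphism `g` to `P^b` for which the
pull backs of the `F_j` have only multiplicities at least 2.  For `b ≤ 2` Lang's criterion holds for
all such `X`.

THE IDEA.  Let `F_u = ∑ u_i v_i`, `v_0, .., v_r` forms of degree `e` in `b + 1` variables, `Q`, `A`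
hypersurface data for the nodes `u ∈ T`.  CORF (Theorem V) says that for the point `y = v(x)` of
projective `r`-space a moving `P` has `P ^ 2 ∣ Phi(y)`.  To get the form `D` one needs that
`Phi(v(X))`, `X` generic, has no moving double factor.  If it had one, then so had `Phi(v(x))` for
`x = q + p exp`, `p`, `q` generic complex points (a generic line).  But for this `x` the functions
`F_u(x)`, `u ∈ T`, have only simple zeros (this is where `F_u` squarefree is used), and the node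
lemma shows that a double factor passes through no node at any `z`; this contradicts CORS, the other
half of the core: every moving irreducible factor of `Phi(y)` passes through some node at some `z`. -/

open Pool.Agent.Work.MP_f82ddf_nt.DQ

namespace Pool.MPH

open MvPolynomial
open Pool.Agent.Work.MP_f82ddf_nt (PSpace HolomorphicOn complexPoints points KobayashiHyperbolic)
open Pool.Agent.Work.MP_f82ddf_M5 (lineAt resAt chow at2 comb Data)
open Pool.ThmM (NonProp HypData IsRat om dv vP)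
open Pool.ThmM0 (Per)
open Pool.ThmM.Chow (ppt Phi Mov subC gU)
open Pool.ThmP (Mor OnX OnK tm FullF)
open Pool.MPL (RX NC aq ae NPr Spn lineG ExcSet Onto)
open Pool.MPV (Ful)

/-- `H` is moving over `ℂ[X]`: not an element of `ℂ[X]` times a complex polynomial. -/
def MovR {b : ℕ} {σ : Type} (H : MvPolynomial σ (RX b)) : Prop :=
  ∀ (c : RX b) (G : MvPolynomial σ ℂ), H ≠ C c * map (algebraMap ℂ (RX b)) G

/-- The point `y` with values in `Mer` meets the form `F` of degree `e` at every `z` with multiplicity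
`0` or at least `k`. -/
def FuF {b : ℕ} (k : ℕ) (y : Fin (b + 1) → Mer) (e : ℕ) (F : RX b) : Prop :=
  ∀ z : ℂ, om (aeval y F) z = ((e * dv y z : ℤ) : WithTop ℤ) ∨
    ((e * dv y z + k : ℤ) : WithTop ℤ) ≤ om (aeval y F) z

/-- The map `f` to projective space meets the hypersurface `G = 0` at every point with multiplicity at
least 2 (or is contained in it): for all holomorphic homogeneous coordinates `φ` of `f` near `z₀`,
without common zero at `z₀`, the function `G(φ)` has no simple zero at `z₀`. -/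
def Tng {b : ℕ} (f : ℂ → PSpace ℂ b) (G : MvPolynomial (Fin (b + 1)) ℂ) : Prop :=
  ∀ (z₀ : ℂ) (φ : ℂ → Fin (b + 1) → ℂ), AnalyticAt ℂ φ z₀ → φ z₀ ≠ 0 →
    (∀ᶠ z in nhds z₀, ∃ h : φ z ≠ 0, f z = Projectivization.mk ℂ (φ z) h) →
    analyticOrderAt (fun z => eval (φ z) G) z₀ ≠ 1

/-! ## A. The core -/

/-- CORS (150 lines, a copy of B_CORF.lean of V with small changes), uses M3.CHP M3.PLW M3.PFA M3.FNC
M3.FCH M3.PHG M3.LBD M3.HTE M3.COP M3.GRO M3.FTL M3.NDC M3.EXE M3.NVH M3.COU M3.END M3.PRJ M1.VAL.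
Every moving irreducible factor of the Chow form passes through some node at some `z`.  PROOF.
Suppose not.  Copy the proof of `p_CORF` (`MP_f82ddf_V/B_CORF.lean`) with `R = P` (`R` is there the
product over the set `s`; take `s = {P}`, `P₀ = P`, and `Rc` with `Phi = P * Rc`).  `FAC` and `NOF` are
not needed: `hcop` from COP for `s = {P}`, `hnod` is the assumption.  CORF_node is needed without
`Ful`: for `u ∈ T` the sum `∑ x_i A_i(lift u)` is not `0` and `vP (subC (gU (lift u)) Phi) z` is an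
integer for every `z`. -/
def Stmt_CORS : Prop :=
  ∃ β : ℕ → ℕ → ℕ, ∀ (r w d : ℕ) (Q : MvPolynomial (Fin (w + 2)) ℂ)
    (A : Fin (r + 1) → MvPolynomial (Fin (w + 2)) ℂ) (T : Finset (Fin (r + 1) → ℂ))
    (lift : (Fin (r + 1) → ℂ) → (Fin (w + 2) → ℂ)) (x : Fin (r + 1) → Mer)
    (tr : Mer ≃ₐ[ℂ] Mer), HypData r w d Q A T lift →
    (∀ (e : ℕ) (f : MvPolynomial (Fin (w + 2)) ℂ), e ≤ β w d → f.IsHomogeneous e →
      (∀ u ∈ T, eval (lift u) f = 0) → Q ∣ f) →
    (∀ y : Fin (r + 1) → ℂ, (∀ u ∈ T, ∑ i, u i * y i = 0) → y = 0) →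
    (∀ u ∈ T, ∑ i, algebraMap ℂ Mer (u i) * x i ≠ 0) →
    (∀ (f : Mer) (n : ℕ), 1 ≤ n → (tr^[n]) f = f → IsRat f → ∃ a : ℂ, f = algebraMap ℂ Mer a) →
    (∀ i, tr (x i) = x i) →
    ∀ P : MvPolynomial (Fin 2 × Fin (w + 2)) Mer, Irreducible P → Mov P → P ∣ Phi Mer d Q A x →
      ∃ u ∈ T, ∃ z, vP (subC Mer (gU (lift u)) P) z = vP P z + 1

/-- NSQ (100 lines), uses CORS M3.PHG M3.LSB M1.GAU M1.VAL M1.TRA.  If the functions `u(x)`, `u ∈ T`,
have only simple zeros (relative to the order of `x`), then the Chow form has no moving double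
factor.  PROOF.  `tr` from TRA, `tr (x i) = x i` from `Per (x i)` (end of `MP_f82ddf_M0/B_COREH.lean`).
Suppose `Φ = Phi Mer d Q A x = P ^ 2 * G`.  CORS (`P ∣ Φ`): `u ∈ T`, `z` with
`vP (subC P) z = vP P z + 1`, `subC = subC Mer (gU (lift u))`.  PHG (as in CORF_node of
`MP_f82ddf_V/B_CORF.lean`, with `CORE_data`, `CORE_val`): `d = e + 1`, `vP Φ z = (e + 1) dv x z` and
`vP (subC Φ) z = om (u(x)) z + e dv x z ≤ vP Φ z + 1`, both finite, so all the factors and their images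
are not `0`.  GAU: `vP Φ z = 2 vP P z + vP G z`, `vP (subC Φ) z = 2 vP (subC P) z + vP (subC G) z
≥ 2 vP P z + 2 + vP G z` (LSB for `G`), a contradiction. -/
def Stmt_NSQ : Prop :=
  ∃ β : ℕ → ℕ → ℕ, ∀ (r w d : ℕ) (Q : MvPolynomial (Fin (w + 2)) ℂ)
    (A : Fin (r + 1) → MvPolynomial (Fin (w + 2)) ℂ) (T : Finset (Fin (r + 1) → ℂ))
    (lift : (Fin (r + 1) → ℂ) → (Fin (w + 2) → ℂ)), HypData r w d Q A T lift →
    (∀ (e : ℕ) (f : MvPolynomial (Fin (w + 2)) ℂ), e ≤ β w d → f.IsHomogeneous e →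
      (∀ u ∈ T, eval (lift u) f = 0) → Q ∣ f) →
    (∀ y : Fin (r + 1) → ℂ, (∀ u ∈ T, ∑ i, u i * y i = 0) → y = 0) →
    ∀ x : Fin (r + 1) → Mer, (∀ i, Per (x i)) →
    (∀ u ∈ T, ∑ i, algebraMap ℂ Mer (u i) * x i ≠ 0) →
    (∀ u ∈ T, ∀ z, om (∑ i, algebraMap ℂ Mer (u i) * x i) z ≤ ((dv x z + 1 : ℤ) : WithTop ℤ)) →
    ∀ P : MvPolynomial (Fin 2 × Fin (w + 2)) Mer, Irreducible P → Mov P →
      ¬ P ^ 2 ∣ Phi Mer d Q A x

/-! ## B. Squarefree polynomials on generic lines -/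

/-- SEP (150 lines), uses U.PRG M5.RES.  A squarefree polynomial on the generic line is separable.
PROOF.  `R = MvPolynomial (σ ⊕ σ) F` is factorial.  `G ≠ 0` is a unit times a product of irreducible
elements `P_i` (`UniqueFactorizationMonoid`), pairwise not associated (squarefree).  `lineG` is a ring
homomorphism (write it as `eval₂Hom ..`); let `f_i = lineG P_i`, prime by PRG, of positive degree (if
`f_i = C a`, put `s = 0`, resp. `s = 1`, `β = 0` as in DSC: `P_i` would be a constant, hence a unit).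
The homomorphism `λ` with `s ↦ 0`, `X (inl i) ↦ 0`, `X (inr i) ↦ X i` has `λ (lineG P) = P`, so
`f_i ∣ f_j` implies `P_i ∣ P_j`, `i = j`.  Let `f = lineG G = unit * ∏ f_i`, `g = f'`.  `f_i ∤ g`: by the
product rule `g = unit * ∑_j f_j' ∏_(l ≠ j) f_l`, and `f_i` would divide `f_i' ∏_(l ≠ i) f_l`, so
`f_i ∣ f_i'`, which is not `0` and of smaller degree (characteristic 0), or `f_i ∣ f_l`.  M5.RES and
`Polynomial.exists_mul_add_mul_eq_C_resultant`: `U_i f_i + V_i g = C δ_i`, `δ_i ≠ 0` (if `g = 0` then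
`G` is a constant and the claim is trivial).  Multiply all these identities:
`(∏ U_i) (∏ f_i) + V g = C (∏ δ_i)`. -/
def Stmt_SEP : Prop :=
  ∀ (σ F : Type) [Finite σ] [Field F] [CharZero F] (G : MvPolynomial σ F), Squarefree G →
    ∃ (δ : MvPolynomial (σ ⊕ σ) F) (U V : Polynomial (MvPolynomial (σ ⊕ σ) F)), δ ≠ 0 ∧
      U * lineG G + V * Polynomial.derivative (lineG G) = Polynomial.C δ

/-- SQE (80 lines), uses SEP.  Squarefree polynomials stay squarefree over larger fields.  PROOF.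
Otherwise `P ^ 2 ∣ map τ G` with `P` irreducible (`map τ G ≠ 0`; squarefree criterion
`squarefree_iff_no_irreducibles` or `irreducible_sq_not_dvd_iff_eq_zero_and_no_irreducibles_or_squarefree`).
`lineG` commutes with `map τ` (see `MP_f82ddf_U/B_DSC.lean`), so `p = lineG P` divides
`(lineG G).map` and its derivative (`p ^ 2 ∣ f` implies `p ∣ f'`), so `p ∣ C (map τ δ)`, `map τ δ ≠ 0`; but
`p` has positive degree in `s` (`P` is not a constant, as in DSC). -/
def Stmt_SQE : Prop :=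
  ∀ (σ F M : Type) [Finite σ] [Field F] [CharZero F] [Field M] (τ : F →+* M)
    (G : MvPolynomial σ F), Squarefree G → Squarefree (map τ G)

/-- The restriction of `F` to the line `s ↦ q + s p`. -/
noncomputable def onLine {b : ℕ} (p q : Fin (b + 1) → ℂ) : RX b →ₐ[ℂ] Polynomial ℂ :=
  aeval fun i => Polynomial.C (p i) * Polynomial.X + Polynomial.C (q i)

/-- SQL (70 lines), uses SEP.  PROOF.  `δ_F`, `U_F`, `V_F` from SEP (`σ = Fin (b + 1)`); the polynomial
`Z * ∏ δ_F` is not `0`, so it is not `0` at a point `Sum.elim p q` (`MvPolynomial.funext`).  The ring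
homomorphism `Polynomial.mapRingHom (eval (Sum.elim p q))` maps `lineG F` to `onLine p q F` (compare on
constants and variables; `X (inl i)` is the direction), commutes with the derivative, and maps
`C δ_F` to a constant which is not `0`: `IsCoprime f f'`. -/
def Stmt_SQL : Prop :=
  ∀ (b : ℕ) (L : Finset (RX b)) (Z : MvPolynomial (Fin (b + 1) ⊕ Fin (b + 1)) ℂ),
    (∀ F ∈ L, Squarefree F) → Z ≠ 0 →
    ∃ p q : Fin (b + 1) → ℂ, eval (Sum.elim p q) Z ≠ 0 ∧ ∀ F ∈ L, (onLine p q F).Separable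

/-- EXO (100 lines), uses M1.REP M1.ALG M1.VAL.  The exponential function.  PROOF.  `E = Mer.mk exp _`.
`aeval E f = Mer.mk (fun z => f.eval (exp z)) _` (induction on `f`, or `Mer.mk_add`, `Mer.mk_mul`; see
also `MP_f82ddf_V/B_EXF.lean`); so `Per`, and the order `om` is the order of the analytic function
`h(z) = f.eval (exp z)` (M1.REP, M1.ALG, `meromorphicOrderAt_congr`), so it is `≥ 0`.  `f ≠ 0`: `h` is
not identically `0` (`exp` takes infinitely many values), use M1.VAL or `Mer.mk_eq_mk`.  If `f` is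
separable and `h(z) = 0` then `f'(exp z) ≠ 0`, so `h'(z) = f'(exp z) exp z ≠ 0` and the order is `1`
(`AnalyticAt.analyticOrderAt_sub_eq_one_of_deriv_ne_zero` or similar); otherwise it is `0`. -/
def Stmt_EXO : Prop :=
  ∃ E : Mer, ∀ f : Polynomial ℂ, Per (Polynomial.aeval E f) ∧
    (∀ z, 0 ≤ om (Polynomial.aeval E f) z) ∧ (f ≠ 0 → Polynomial.aeval E f ≠ 0) ∧
    (f.Separable → ∀ z, om (Polynomial.aeval E f) z ≤ 1)

/-- MVL (120 lines), uses M3.FAC.  Moving factors on a generic line.  PROOF.  `H ≠ 0` (`MovR H`).  Let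
`H_μ ≠ 0` be a coefficient.  If all the coefficients were complex multiples of `H_μ`, then
`H = C H_μ * map G`.  So some coefficient `H_ν` is not: `H_μ`, `H_ν` are linearly independent over `ℂ`.
Let `γ = X (inl ·)`, `β = X (inr ·)` and
`Z = H_μ(β) H_ν(β + γ) - H_ν(β) H_μ(β + γ)`.  `Z ≠ 0`: choose `β₀ ∈ ℂ^(b+1)` with `H_μ(β₀) ≠ 0`; the
polynomial `H_μ(β₀) H_ν - H_ν(β₀) H_μ` is not `0`, so it is not `0` at some `β₁`; put `β = β₀`,
`γ = β₁ - β₀`.  Let `Z(p, q) ≠ 0`, `h_μ = onLine p q H_μ`, `h_ν` the same: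
`h_μ(0) h_ν(1) ≠ h_ν(0) h_μ(1)`.  `Ĥ` = the polynomial over `Mer` in the claim has the coefficients
`aeval E h_μ`, `aeval E h_ν` at `μ`, `ν`.  `Ĥ` is moving: if `Ĥ = C c * map G` then
`G_ν * h_μ(E) = G_μ * h_ν(E)` (`= c G_μ G_ν`), so `G_ν h_μ = G_μ h_ν` in `ℂ[s]` by the hypothesis on `E`;
at `s = 0`, `s = 1`: `G_μ = G_ν = 0`; then `h_μ(E) = h_ν(E) = 0`, `h_μ = h_ν = 0`, a contradiction.
FAC with exponent `0` for `Ĥ ≠ 0` (as in `MP_f82ddf_U/B_MFC.lean`): if `s = ∅` then `Ĥ` is not moving. -/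
def Stmt_MVL : Prop :=
  ∀ (b : ℕ) (σ : Type) [Finite σ] (H : MvPolynomial σ (RX b)), MovR H →
    ∃ Z : MvPolynomial (Fin (b + 1) ⊕ Fin (b + 1)) ℂ, Z ≠ 0 ∧
      ∀ p q : Fin (b + 1) → ℂ, eval (Sum.elim p q) Z ≠ 0 →
      ∀ E : Mer, (∀ f : Polynomial ℂ, f ≠ 0 → Polynomial.aeval E f ≠ 0) →
        ∃ P : MvPolynomial σ Mer, Irreducible P ∧ Mov P ∧
          P ∣ map ((Polynomial.aeval E).comp (onLine p q) : RX b →ₐ[ℂ] Mer).toRingHom H

/-- SQB (120 lines), uses NSQ SQL EXO MVL M3.FCH M1.ORD M1.VAL.  The generic Chow form of `v(X)` has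
no moving double factor.  PROOF.  `β` from NSQ.  Suppose `H ^ 2 ∣ Phi (RX b) d Q A v`.  MVL for `H`: `Z`.  SQL for the set
of the `F_u = ∑ C (u_i) v_i`, `u ∈ T`, and `Z`: `p`, `q`.  EXO: `E`.  MVL: `P ∣ map θ H` with
`θ = (aeval E) ∘ onLine p q`, so `P ^ 2 ∣ map θ (Phi (RX b) d Q A v) = Phi Mer d Q A y`, `y_i = θ (v i)`
(M3.FCH (1)).  NSQ applies to `y`: `y_i = aeval E (onLine p q (v i))`, so `Per (y i)` and `0 ≤ om (y i) z`
by EXO; `∑ u_i y_i = θ F_u = aeval E (onLine p q F_u)` is not `0` (a separable polynomial is not `0`), so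
`y ≠ 0` and `0 ≤ dv y z` (M1.ORD: `dv y z` is the order of a nonzero entry; M1.VAL), and its order is
`≤ 1 ≤ dv y z + 1` (EXO).  `T` is not empty by the spanning condition. -/
def Stmt_SQB : Prop :=
  ∃ β : ℕ → ℕ → ℕ, ∀ (r w d : ℕ) (Q : MvPolynomial (Fin (w + 2)) ℂ)
    (A : Fin (r + 1) → MvPolynomial (Fin (w + 2)) ℂ) (T : Finset (Fin (r + 1) → ℂ))
    (lift : (Fin (r + 1) → ℂ) → (Fin (w + 2) → ℂ)), HypData r w d Q A T lift →
    (∀ (e : ℕ) (f : MvPolynomial (Fin (w + 2)) ℂ), e ≤ β w d → f.IsHomogeneous e →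
      (∀ u ∈ T, eval (lift u) f = 0) → Q ∣ f) →
    (∀ y : Fin (r + 1) → ℂ, (∀ u ∈ T, ∑ i, u i * y i = 0) → y = 0) →
    ∀ (b : ℕ) (v : Fin (r + 1) → RX b), (∀ u ∈ T, Squarefree (∑ i, C (u i) * v i)) →
    ∀ H : MvPolynomial (Fin 2 × Fin (w + 2)) (RX b), Irreducible H → MovR H →
      ¬ H ^ 2 ∣ Phi (RX b) d Q A v

/-! ## C. The form `D` -/

/-- UNZ (50 lines), uses M3.FCH M5.LINE.  PROOF.  Some `v i ≠ 0`; choose `ξ ∈ ℂ^(b+1)` with
`eval ξ (v i) ≠ 0`, `y = (eval ξ (v i))_i ≠ 0`.  FCH (1) with `φ = eval ξ : RX b →+* ℂ`: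
`map φ (Phi (RX b) d Q A v) = Phi ℂ d Q A y`, which is `chow d d Q (comb id A y)` (FCH (2)), not `0` by
LINE (`Q ∤ comb id A y` by `Data.nd`; `comb` is homogeneous of degree `d`).  As in ULN (4). -/
def Stmt_UNZ : Prop :=
  ∀ (N r b d : ℕ) (Q : MvPolynomial (Fin N) ℂ) (A : Fin (r + 1) → MvPolynomial (Fin N) ℂ)
    (v : Fin (r + 1) → RX b), Data N r d d Q A → v ≠ 0 → Phi (RX b) d Q A v ≠ 0

/-- DS1 (100 lines), uses U.PRG M5.RES.  Two different irreducible polynomials `H`, `H'` have a common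
factor only for special values of the coefficients.  PROOF.  As DSC (`MP_f82ddf_U/B_DSC.lean`), with
`f = lineG H`, `g = lineG H'`.  If `H = C r` (total degree 0, all coefficients but the constant one
are `0`): `D = r`: `P ∣ C (φ r)` with `φ r ≠ 0` would make `P` a unit.  Otherwise `f` is prime (PRG) of
degree `m > 0` and does not divide `g` (apply the homomorphism `s ↦ 0`, `inl ↦ 0`, `inr i ↦ X i`, which
maps `lineG H` to `H`: `H ∣ H'`, so they are associated).  M5.RES with formal degrees `m` and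
`g.natDegree`: `ρ ≠ 0`, `D` = a nonzero coefficient of `ρ`.  `p = lineG P` divides both specialised
polynomials, hence `C (map φ ρ)` (`Polynomial.exists_mul_add_mul_eq_C_resultant`), and has positive degree,
so `map φ ρ = 0`. -/
def Stmt_DS1 : Prop :=
  ∀ (σ R : Type) [Finite σ] [CommRing R] [IsDomain R] [UniqueFactorizationMonoid R] [CharZero R]
    (H H' : MvPolynomial σ R), Irreducible H → Irreducible H' → ¬ Associated H H' →
    ∃ D : R, D ≠ 0 ∧ ∀ (M : Type) [Field M] (φ : R →+* M) (P : MvPolynomial σ M),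
      Irreducible P → P ∣ map φ H → P ∣ map φ H' → φ D = 0

/-- DS2 (180 lines), uses DS1 U.DSC U.MIR.  PROOF.  By induction on the list prove: for every list
`L` of irreducible elements `H_1, .., H_m` of `MvPolynomial σ (RX b)` such that for `i < j` (List.Pairwise)
not both `MovR H_i` and `Associated H_i H_j`, there is `D ≠ 0` such that for all `α`, `φ`, `P` as in the
statement and `φ D ≠ 0`: (a) not `P ^ 2 ∣ map φ H_1 * .. * map φ H_m`, (b) if `P` divides this product,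
it divides `map φ H_i` for some `i` with `MovR H_i` (or restate as you like).  For one factor: if `H` is
not moving, `H = C c * map G`, `c ≠ 0`, `G ≠ 0`: `D_H = c`; for `φ c ≠ 0` the polynomial
`map φ H = C (φ c) * map (algebraMap ℂ Mer) (map α G)` is not divisible by the moving `P` (MIR, `P` is
prime).  If `H` is moving: `D_H` from DSC: `P ^ 2 ∣ map φ H` implies `φ D_H = 0`.  For two moving factors,
not associated: `D_(H H')` from DS1.  `D` = the product of all of these: `P` is prime (`MvPolynomial σ Mer`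
is factorial); if `φ D ≠ 0`, `P` divides `map φ H_i` for at most one `i`, and then `P ^ 2` does not divide
it; so `P ^ 2` does not divide the product.  FINALLY `U` is a unit times the product of such a list
(`UniqueFactorizationMonoid.exists_multiset ..`, `Multiset.toList`): if `H_i`, `H_j`, `i ≠ j`, were
associated and moving, then `H_i ^ 2 ∣ U`; the unit is a nonzero complex number (`C (C z)`), so its image
is a unit. -/
def Stmt_DS2 : Prop :=
  ∀ (σ : Type) [Finite σ] (b : ℕ) (U : MvPolynomial σ (RX b)), U ≠ 0 →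
    (∀ H : MvPolynomial σ (RX b), Irreducible H → MovR H → ¬ H ^ 2 ∣ U) →
    ∃ D : RX b, D ≠ 0 ∧ ∀ (α : ℂ ≃+* ℂ) (φ : RX b →+* Mer),
      (∀ z : ℂ, φ (C z) = algebraMap ℂ Mer (α z)) →
      ∀ P : MvPolynomial σ Mer, Irreducible P → Mov P → P ^ 2 ∣ map φ U → φ D = 0

/-- UNH (60 lines), uses UNZ DS2 M5.FUN.  PROOF.  `U = Phi (RX b) d Q A v ≠ 0` (UNZ), DS2: `D`.  For `α`, `x`
let `φ = (aeval x : RX b →ₐ[ℂ] Mer).toRingHom.comp (map α)`.  As in `MP_f82ddf_V/B_UNB.lean` or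
`MP_f82ddf_U/B_UNA.lean` (lemmas UNA_..): `map φ U = Phi Mer d (aq α Q) (aq α A) (fun i => φ (v i))`
(M5.FUN (6); `φ.comp (algebraMap ℂ (RX b)) = (algebraMap ℂ Mer).comp α`),
`φ (v i) = aeval x (aq α (v i))`, `φ D = aeval x (aq α D)`. -/
def Stmt_UNH : Prop :=
  ∀ (N r b d : ℕ) (Q : MvPolynomial (Fin N) ℂ) (A : Fin (r + 1) → MvPolynomial (Fin N) ℂ)
    (v : Fin (r + 1) → RX b), Data N r d d Q A → v ≠ 0 →
    (∀ H : MvPolynomial (Fin 2 × Fin N) (RX b), Irreducible H → MovR H →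
      ¬ H ^ 2 ∣ Phi (RX b) d Q A v) →
    ∃ D : RX b, D ≠ 0 ∧ ∀ (α : ℂ ≃+* ℂ) (x : Fin (b + 1) → Mer)
      (P : MvPolynomial (Fin 2 × Fin N) Mer), Irreducible P → Mov P →
      P ^ 2 ∣ Phi Mer d (aq α Q) (fun i => aq α (A i)) (fun i => aeval x (aq α (v i))) →
      aeval x (aq α D) = 0

/-- PTH (180 lines), uses M2.T3 V.DRF SQB UNH U.TRP V.EXF U.MVP.  PROOF.  As `MP_f82ddf_V/B_PTF.lean`.
T3 for `S` with the sum of the functions `β` of DRF (for `r`, `c`) and of SQB: `w, d, Q, A, T, lift`;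
`T.card ≥ 2 c + 1 > c`, so `T` spans (`Spn c S`, `T ⊆ S`), `Data` by `CORE_data` (C_CORE.lean).  SQB and
UNH (`v ≠ 0`: a squarefree `∑ C (u_i) v_i` is not `0`, `T` is not empty): `D₀`.  `D₁ = D₀ * X 0`, `D` = a
nonzero homogeneous component of `D₁`, of degree `E ≥ 1`.  Let `α`, `x` be as in the statement,
`y_i = aeval x (aq α (v i))`, `φ` from EXF, `x' = φ ∘ x`; for `t ∈ ℂ`, `t ≠ 0`, the point `t x'` has
`aeval (t x') (aq α (v i)) = t ^ e * φ (y_i)` (`aq α (v i)` is homogeneous of degree `e`; `φ` is an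
algebra homomorphism).  `NC` and `Ful 2 · (α ∘ u)` hold for `φ ∘ y` (EXF: orders at `exp z`) and for its
multiples by nonzero complex numbers.  MVP for the conjugate datum (TRP): `Phi Mer d (aq α Q) (aq α A)
(t ^ e φ(y))` is moving; DRF with `k = 2`, the nodes `α ∘ u`, `u ∈ T` (TRP) gives `P`; UNH:
`aeval (t x') (aq α D₀) = 0` for all `t ≠ 0`.  End as in B_PTF.lean (`D₁`, homogeneous components,
`φ` injective). -/
def Stmt_PTH : Prop :=
  ∀ r c : ℕ, 1 ≤ r → ∃ N₁ : ℕ, ∀ (b e : ℕ) (v : Fin (r + 1) → RX b)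
    (S : Finset (Fin (r + 1) → ℂ)), (∀ i, (v i).IsHomogeneous e) →
    (∀ u ∈ S, ∀ u' ∈ S, u ≠ u' → NonProp u u') → Spn c S → N₁ ≤ S.card →
    (∀ u ∈ S, Squarefree (∑ i, C (u i) * v i)) →
    ∃ (E : ℕ) (D : RX b), 1 ≤ E ∧ D.IsHomogeneous E ∧ D ≠ 0 ∧
      ∀ (α : ℂ ≃+* ℂ) (x : Fin (b + 1) → Mer), NC (fun i => aeval x (aq α (v i))) →
        (∀ u ∈ S, Ful 2 (fun i => aeval x (aq α (v i))) (fun i => α (u i))) →
        aeval x (aq α D) = 0

/-- UEH (120 lines), uses PTH U.AUT U.DSE U.RKT SQE.  The form over `Ω`.  PROOF.  As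
`MP_f82ddf_V/B_UEF.lean`.  `N₁` from PTH (increased to be at least `1`).  If there is no homomorphism
`Ω → ℂ` take `D = X 0`, `E = 1`.  Otherwise fix `τ₀` (so `Ω` has characteristic 0); PTH for `τ₀ ∘ u`,
`u ∈ S`, and `map τ₀ (v i)` (RKT for the properties of the set, SQE for squarefree:
`∑ C (τ₀ (u i)) * map τ₀ (v i) = map τ₀ (∑ C (u i) * v i)`).  DSE: `D₀` over `Ω` with
`map τ₀ D₀ = ∑_i c_i • aq α_i D`.  For `τ` let `α ∘ τ₀ = τ` (AUT); `aq (α ∘ α_i) (map τ₀ (v j)) = map τ (v j)`,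
so `aeval x (aq (α ∘ α_i) D) = 0`. -/
def Stmt_UEH : Prop :=
  ∀ r c : ℕ, 1 ≤ r → ∃ N₁ : ℕ, ∀ (Ω : Type) [Field Ω] [IsAlgClosed Ω] [Countable Ω] (b e : ℕ)
    (v : Fin (r + 1) → MvPolynomial (Fin (b + 1)) Ω) (S : Finset (Fin (r + 1) → Ω)),
    (∀ i, (v i).IsHomogeneous e) → (∀ u ∈ S, ∀ u' ∈ S, u ≠ u' → NPr u u') → Spn c S →
    N₁ ≤ S.card → (∀ u ∈ S, Squarefree (∑ i, C (u i) * v i)) →
    ∃ (E : ℕ) (D : MvPolynomial (Fin (b + 1)) Ω), 1 ≤ E ∧ D.IsHomogeneous E ∧ D ≠ 0 ∧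
      ∀ (τ : Ω →+* ℂ) (x : Fin (b + 1) → Mer), NC (fun i => eval₂ (tm τ) x (v i)) →
        (∀ u ∈ S, Ful 2 (fun i => eval₂ (tm τ) x (v i)) (fun i => τ (u i))) →
        eval₂ (tm τ) x D = 0

/-! ## D. Choice of the nodes -/

/-- SL1 (120 lines).  Many forms of the same degree, pairwise not proportional.  PROOF.
`N₀ = e₀ (c + c t)`.  Some degree `e` occurs more than `c + c t` times (pigeonhole over the degrees
`1, .., e₀`; a form which is `0` may be counted for any degree).  Among the nonzero `F j` of degree `e`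
choose a set `L` of pairwise non proportional forms with the largest possible number of elements.
Every nonzero `F j` of degree `e` is a multiple of an element of `L`.  At most `c` of the `F j` are `0`
(they vanish at any `w ≠ 0`), and for `G ∈ L` at most `c` of the `F j` are multiples of `G`, because
`G` has a zero `w ≠ 0` (a form of degree `e ≥ 1` in `b + 1 ≥ 2` variables over an algebraically closed
field: `G(X_0, 1, 0, ..)` has a root, or `G(1, 0, ..) = 0`).  So `c + c L.card ≥` the number of the `F j`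
of degree `e`, and `t ≤ L.card`. -/
def Stmt_SL1 : Prop :=
  ∀ b e₀ c t : ℕ, 1 ≤ b → ∃ N₀ : ℕ, ∀ (Ω : Type) [Field Ω] [IsAlgClosed Ω] (N : ℕ)
    (F : Fin (N + 1) → MvPolynomial (Fin (b + 1)) Ω), N₀ ≤ N →
    (∀ j, ∃ e, 1 ≤ e ∧ e ≤ e₀ ∧ (F j).IsHomogeneous e) →
    (∀ w : Fin (b + 1) → Ω, w ≠ 0 → {j | eval w (F j) = 0}.ncard ≤ c) →
    ∃ (e : ℕ) (L : Finset (MvPolynomial (Fin (b + 1)) Ω)), 1 ≤ e ∧ e ≤ e₀ ∧ t ≤ L.card ∧
      (∀ G ∈ L, G.IsHomogeneous e ∧ ∃ j, F j = G) ∧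
      ∀ G ∈ L, ∀ G' ∈ L, G ≠ G' → ∀ a a' : Ω, a • G = a' • G' → a = 0 ∧ a' = 0

/-- SL2 (150 lines).  Linear algebra: a subspace in which all the large subsets span.  PROOF.  Let
`t_0 = max 2 (c + 1)`, `t_(r+1) = max (f (r + 1) t_r) t_r`, `t = t_n`.  Let `r` be the smallest number
such that there is a subspace `U` of dimension `≤ r + 1` with `t_r ≤ |L ∩ U|` (`r = n`, `U = span L` is
possible).  `r ≥ 1`: in a subspace of dimension `≤ 1` there is at most one element of `L` (two different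
elements are linearly independent, in particular not `0`).  By minimality every subspace of dimension
`≤ r` contains fewer than `t_(r-1)` elements of `L`, so `dim U = r + 1`.  Let `v` be a basis of `U`
(`Module.finBasisOfFinrankEq`) and `S` the set of the coordinate vectors of the elements of `L ∩ U`, of the
same cardinality `≥ t_r ≥ max (f r t_(r-1)) (c + 1)`; `c' = t_(r-1)`.  `Spn c' S`: if `T ⊆ S` has more than
`c'` elements and `y ≠ 0` is orthogonal to `T`, then the corresponding elements of `L` are in a subspace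
of `U` of dimension `r`, a contradiction. -/
def Stmt_SL2 : Prop :=
  ∀ (f : ℕ → ℕ → ℕ) (n c : ℕ), ∃ t : ℕ, ∀ (Ω W : Type) [Field Ω] [AddCommGroup W] [Module Ω W]
    (L : Finset W), (∀ G ∈ L, ∀ G' ∈ L, G ≠ G' → ∀ a a' : Ω, a • G = a' • G' → a = 0 ∧ a' = 0) →
    Module.finrank Ω (Submodule.span Ω (L : Set W)) ≤ n + 1 → t ≤ L.card →
    ∃ (r c' : ℕ) (v : Fin (r + 1) → W) (S : Finset (Fin (r + 1) → Ω)), 1 ≤ r ∧
      (∀ i, v i ∈ Submodule.span Ω (L : Set W)) ∧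
      (∀ u ∈ S, ∀ u' ∈ S, u ≠ u' → NPr u u') ∧ Spn c' S ∧ f r c' ≤ S.card ∧ c < S.card ∧
      (∀ u ∈ S, ∑ i, u i • v i ∈ L) ∧
      ∀ u ∈ S, ∀ u' ∈ S, ∑ i, u i • v i = ∑ i, u' i • v i → u = u'

/-- SLF (100 lines), uses SL1 SL2.  PROOF.  The forms of degree `e` in `b + 1` variables are in the span
of the `(b + e).choose e` monomials, so the dimension of the span of `L` is at most
`n + 1`, `n = (b + e₀).choose e₀` (or any bound valid for all `e ≤ e₀`).  SL2 for `f`, `n`, `c` gives `t`,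
SL1 for this `t` gives `N₀`.  The `v i` are homogeneous of degree `e` (elements of the span of `L`;
`homogeneousSubmodule`).  No common zero: a common zero `w ≠ 0` of the `v i` is a zero of all the
`∑ u_i v_i = F j`, more than `c` different ones. -/
def Stmt_SLF : Prop :=
  ∀ (b e₀ c : ℕ) (f : ℕ → ℕ → ℕ), 1 ≤ b → ∃ N₀ : ℕ, ∀ (Ω : Type) [Field Ω] [IsAlgClosed Ω] (N : ℕ)
    (F : Fin (N + 1) → MvPolynomial (Fin (b + 1)) Ω), N₀ ≤ N →
    (∀ j, ∃ e, 1 ≤ e ∧ e ≤ e₀ ∧ (F j).IsHomogeneous e) →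
    (∀ w : Fin (b + 1) → Ω, w ≠ 0 → {j | eval w (F j) = 0}.ncard ≤ c) →
    ∃ (e r c' : ℕ) (v : Fin (r + 1) → MvPolynomial (Fin (b + 1)) Ω) (S : Finset (Fin (r + 1) → Ω)),
      1 ≤ e ∧ 1 ≤ r ∧ (∀ i, (v i).IsHomogeneous e) ∧ (∀ u ∈ S, ∀ u' ∈ S, u ≠ u' → NPr u u') ∧
      Spn c' S ∧ f r c' ≤ S.card ∧ (∀ u ∈ S, ∃ j, F j = ∑ i, C (u i) * v i) ∧
      ∀ w : Fin (b + 1) → Ω, w ≠ 0 → ∃ i, eval w (v i) ≠ 0

/-! ## E. Points with values in `Mer` -/

/-- BPF (100 lines), uses P.NUL M1.VAL M1.ORD M3.OZE.  Orders of `v(y)` for forms `v` without common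
zero.  PROOF.  NUL with `K = Ω`, `S = ∅`, `κ = Mer`, `E` = the set of the `v i`, `G = X j`: if all the
`v_i(y)` were `0` then `y = 0`.  At `z`: choose `i₁` with `y i₁ ≠ 0` of minimal order and `y' = y / y i₁`
with values in the local ring `O` at `z` (OZE), `θ : O → ℂ` the value, `p = θ(y')`, `p i₁ = 1`.  NUL with
`κ = ℂ`: `v_i(p) ≠ 0` for some `i`; so `v_i(y')` has order `0`, and the other `v_j(y')` are in `O`:
`dv (v(y')) z = 0` (M1.ORD: minimum over the nonzero entries).  `v_i(y) = (y i₁) ^ e v_i(y')` and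
`dv y z = om (y i₁) z` (M1.VAL).  (See `MP_f82ddf_V/B_ORF.lean`.) -/
def Stmt_BPF : Prop :=
  ∀ (Ω : Type) [Field Ω] [IsAlgClosed Ω] (b r e : ℕ)
    (v : Fin (r + 1) → MvPolynomial (Fin (b + 1)) Ω), (∀ i, (v i).IsHomogeneous e) →
    (∀ w : Fin (b + 1) → Ω, w ≠ 0 → ∃ i, eval w (v i) ≠ 0) →
    ∀ (τ : Ω →+* ℂ) (y : Fin (b + 1) → Mer), y ≠ 0 → (∃ i, eval₂ (tm τ) y (v i) ≠ 0) ∧
      ∀ z, dv (fun i => eval₂ (tm τ) y (v i)) z = e * dv y z

/-- VFN (120 lines), uses BPF P.VAL P.VER.  `v(y)` is not constant if `y` is not.  PROOF.  Let `y i ≠ 0` and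
`y j ≠ a y i` for all `a ∈ ℂ`.  Let `w_l = v_l(y)`, `w_(l₀) ≠ 0` (BPF), and suppose `NC w` fails: all the
`w_l` are complex multiples of `w_(l₀)`.  Let `g₀` be the identity morphism of `P^b` (`K = Ω`, `S = ∅`,
`tuples = {X}`) and `g'`, `ε` from VER for the degree `e`; `l j = (coeff (ε c) (v j))_c`.  By VER and the
hypothesis on `v`, for every `w ≠ 0` some `l j` is not met.  P.VAL (`J = univ`, `j₀ = l₀`, the tuple
`(∏ X ^ ε c)_c` of `g'`): the sum `∑ c, tm τ (l j c) * y ^ (ε c)` is `w_j`, and all the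
`y ^ (ε c) / w_(l₀)` are algebraic over the algebra generated by the constants `w_j / w_(l₀)`, hence
constants (as in the proof of M0.CST, `MP_f82ddf_M0/B_CST.lean`).  For the exponents `e δ_i` and
`(e - 1) δ_i + δ_j` (`e ≥ 1`): `y_i ^ e = a w_(l₀)`, `y_i ^ (e-1) y_j = a' w_(l₀)`, `a ≠ 0`, so
`y_j = (a' / a) y_i`, a contradiction. -/
def Stmt_VFN : Prop :=
  ∀ (Ω : Type) [Field Ω] [IsAlgClosed Ω] (b r e : ℕ)
    (v : Fin (r + 1) → MvPolynomial (Fin (b + 1)) Ω), 1 ≤ e → (∀ i, (v i).IsHomogeneous e) →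
    (∀ w : Fin (b + 1) → Ω, w ≠ 0 → ∃ i, eval w (v i) ≠ 0) →
    ∀ (τ : Ω →+* ℂ) (y : Fin (b + 1) → Mer), NC y → NC (fun i => eval₂ (tm τ) y (v i))

/-- OFF (150 lines), uses P.NUL P.MPT M1.VAL M1.ORD M3.OZE.  The multiplicities of the point `g(x)`.
PROOF.  As `MP_f82ddf_V/B_ORF.lean`, with `F(s)` in place of `∑ c, l_c s_c`:
`s_c(x) = ν s'_c(x')`, `F(s(x)) = ν ^ e F(s'(x'))`, `dv y z = om ν z`, and `F(s'(x'))` has order `0` or at
least `k` because `a(x') F(s'(x')) = ∏ i, b_i(x') ^ μ i`. -/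
def Stmt_OFF : Prop :=
  ∀ (K Ω : Type) [Field K] [Field Ω] [Algebra K Ω] [IsAlgClosed Ω] (m n k : ℕ)
    (S : Set (MvPolynomial (Fin (m + 1)) K)) (g : Mor K Ω m n S),
    (∀ F ∈ S, ∃ d, F.IsHomogeneous d) →
    ∀ (τ : Ω →+* ℂ) (x : Fin (m + 1) → Mer), OnK (tm τ) S x → ∀ s ∈ g.tuples,
    (∃ c, eval₂ (tm τ) x (s c) ≠ 0) → ∀ (e : ℕ) (F : MvPolynomial (Fin (n + 1)) Ω),
      F.IsHomogeneous e → FullF g k F → FuF k (fun c => eval₂ (tm τ) x (s c)) e (map τ F)

/-- MPH (180 lines), uses SLF UEH BPF VFN OFF P.MPT P.FIB M0.CST.  PROOF.  `f r c' = N₁(r, c')` of UEH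
(for `r ≥ 1`, otherwise `0`); SLF for `f`: `N₀`, `e, r, c', v, S₁`; UEH for `v`, `S₁`: `E`, `D`
(`∑ C (u_i) v_i = F j` is squarefree).
(1) Let `y` be as in the first claim, `w_i = v_i(y)`: `NC w` (VFN); for `u ∈ S₁`, `F j = ∑ C (u_i) v_i`:
`F j` is homogeneous of degree `e`, `aeval y (map τ (F j)) = ∑ i, algebraMap (τ (u i)) * w_i` and
`dv w z = e dv y z` (BPF), so `FuF 2` is `Ful 2 w (τ ∘ u)`.  UEH: `D(y) = 0`.
(2) Let `x` be a point of `X`, not constant.  As in `MP_f82ddf_V/B_MPF.lean`: MPT (1): `s₀` with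
`y = s₀(x) ≠ 0`, `NC y` by FIB and CST; OFF gives the hypothesis of (1); `D(y) = 0`, and for any
`s ∈ g.tuples` the vector `s(x)` is a multiple of `y` (MPT (2)), so `D(s(x)) = 0`. -/
def Stmt_MPH : Prop :=
  ∀ b e₀ c : ℕ, 1 ≤ b → ∃ N₀ : ℕ, ∀ (Ω : Type) [Field Ω] [IsAlgClosed Ω] [Countable Ω] (N : ℕ)
    (F : Fin (N + 1) → MvPolynomial (Fin (b + 1)) Ω), N₀ ≤ N →
    (∀ j, ∃ e, 1 ≤ e ∧ e ≤ e₀ ∧ (F j).IsHomogeneous e) → (∀ j, Squarefree (F j)) →
    (∀ w : Fin (b + 1) → Ω, w ≠ 0 → {j | eval w (F j) = 0}.ncard ≤ c) →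
    ∃ (E : ℕ) (D : MvPolynomial (Fin (b + 1)) Ω), D.IsHomogeneous E ∧ D ≠ 0 ∧
      (∀ (τ : Ω →+* ℂ) (y : Fin (b + 1) → Mer), NC y →
        (∀ j e, (F j).IsHomogeneous e → FuF 2 y e (map τ (F j))) → eval₂ (tm τ) y D = 0) ∧
      ∀ (K : Type) [Field K] [Algebra K Ω] (m : ℕ)
        (S : Set (MvPolynomial (Fin (m + 1)) K)), (∀ F ∈ S, ∃ d, F.IsHomogeneous d) →
        ∀ (g : Mor K Ω m b S), g.Finite → (∀ j, FullF g 2 (F j)) →
        ∀ (τ : Ω →+* ℂ) (x : Fin (m + 1) → Mer), OnK (tm τ) S x →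
          (∃ i₀ i, x i₀ ≠ 0 ∧ ∀ a : ℂ, x i ≠ algebraMap ℂ Mer a * x i₀) →
          ∀ s ∈ g.tuples, eval₂ (tm τ) (fun c => eval₂ (tm τ) x (s c)) D = 0

/-! ## F. The final statements -/

/-- THEOREM H. -/
def Stmt_H : Prop :=
  ∀ b e₀ c : ℕ, 1 ≤ b → ∃ N₀ : ℕ, ∀ N : ℕ, N₀ ≤ N →
    ∀ (K : Type) [Field K] [NumberField K]
      (F : Fin (N + 1) → MvPolynomial (Fin (b + 1)) (AlgebraicClosure K)),
      (∀ j, ∃ e, 1 ≤ e ∧ e ≤ e₀ ∧ (F j).IsHomogeneous e) → (∀ j, Squarefree (F j)) →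
      (∀ w : Fin (b + 1) → AlgebraicClosure K, w ≠ 0 → {j | eval w (F j) = 0}.ncard ≤ c) →
      ∃ (E : ℕ) (D : MvPolynomial (Fin (b + 1)) (AlgebraicClosure K)),
        D.IsHomogeneous E ∧ D ≠ 0 ∧
        (∀ (τ : AlgebraicClosure K →+* ℂ) (f : ℂ → PSpace ℂ b), HolomorphicOn f Set.univ →
          (∀ j, Tng f (map τ (F j))) → (∃ z₁ z₂, f z₁ ≠ f z₂) → ∀ z, eval₂ τ (f z).rep D = 0) ∧
        ∀ (m : ℕ) (S : Set (MvPolynomial (Fin (m + 1)) K)),
          (∀ F ∈ S, ∃ d, F.IsHomogeneous d) →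
          ∀ (g : Mor K (AlgebraicClosure K) m b S), g.Finite → (∀ j, FullF g 2 (F j)) →
          (Onto g → ∃ v : Fin (m + 1) → AlgebraicClosure K, v ≠ 0 ∧ OnX S v ∧
            ∃ s ∈ g.tuples, eval (fun c => eval v (s c)) D ≠ 0) ∧
          ∀ (τ : AlgebraicClosure K →+* ℂ),
            (∀ f : ℂ → PSpace ℂ m, HolomorphicOn f Set.univ →
              (∀ z, f z ∈ complexPoints S (τ.comp (algebraMap K (AlgebraicClosure K)))) →
              (∃ z₁ z₂, f z₁ ≠ f z₂) → ∀ z, f z ∈ ExcSet g D τ) ∧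
            (KobayashiHyperbolic (complexPoints S (τ.comp (algebraMap K (AlgebraicClosure K)))) ↔
              KobayashiHyperbolic (ExcSet g D τ))

/-- OTN (120 lines), uses M1.REP M1.ALG M1.POL M1.ORD M1.VAL.  Entire curves and multiplicities.  PROOF.
The `x_j = Mer.mk (φ j) (hφ j)` are those of `exists_mer_of_curve` (DQ/Hol2.lean); the proof of
`Stmt_MREL` (`MP_f82ddf_M0/B_MREL.lean`) is similar.  At `z₀` let `ψ` be holomorphic homogeneous
coordinates of `f` near `z₀`, `ψ z₀ ≠ 0` (`HolomorphicOn`).  Near `z₀`, off `z₀`,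
`φ(z) = λ(z) ψ(z)` with `λ = 1 / ψ_i` (`φ_i = 1` off a discrete set, `ψ_i` is not identically `0` near `z₀`),
meromorphic at `z₀`, so `dv x z₀` = the order of `λ` (some `ψ_l(z₀) ≠ 0`; M1.ORD, M1.VAL), and `G(x)` is
represented by `λ ^ e G(ψ)` off a discrete set: `om (aeval x G) z₀ = e dv x z₀ +` the order (`≥ 0`) of the
analytic function `G(ψ)` at `z₀`, which is not `1` by `Tng` (with `φ := ψ`). -/
def Stmt_OTN : Prop :=
  ∀ (b e : ℕ) (G : MvPolynomial (Fin (b + 1)) ℂ) (f : ℂ → PSpace ℂ b), HolomorphicOn f Set.univ →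
    G.IsHomogeneous e → Tng f G →
    ∀ (φ : Fin (b + 1) → ℂ → ℂ) (hφ : ∀ j z, MeromorphicAt (φ j) z) (i : Fin (b + 1)),
      Mer.mk (φ i) (hφ i) = 1 →
      (∀ z₀, ∀ᶠ z in nhdsWithin z₀ {z₀}ᶜ, ∃ c : ℂ, c ≠ 0 ∧ ∀ j, (f z).rep j = c * φ j z) →
      FuF 2 (fun j => Mer.mk (φ j) (hφ j)) e G

/-- FNH (150 lines), uses MPH OTN M0.MREL.  PROOF of `Stmt_H`.  As `MP_f82ddf_V/B_FNV.lean` and
`MP_f82ddf_U/B_FNU.lean` for the part on `X` (MPH (2)).  For the entire curves in `P^b`: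
`exists_mer_of_curve` (DQ/Hol2.lean) with `K = ℂ`, `S = ∅`, `σ = id`: `φ`, `x`, `x i = 1`, `NC x`
(`x l ≠ a` for some `l` and all constants `a`).  OTN: `FuF 2 x e (map τ (F j))` for the degree `e` of
`F j`, which is unique because `F j ≠ 0` (squarefree), so for all `e` in MPH (1).  MPH (1):
`eval₂ (tm τ) x D = 0 = aeval x (map τ D)`, MREL: `D((f z).rep) = 0`. -/
def Stmt_FNH : Prop := Stmt_H

/-- DIH (130 lines), uses MPH P.MPT P.FIB P.TRX M0.HOMR.  Curves and surfaces.  PROOF.  As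
`MP_f82ddf_V/B_DIF.lean` with MPH (2) in place of MPF. -/
def Stmt_DIH : Prop :=
  ∀ b e₀ c : ℕ, 1 ≤ b → b ≤ 2 → ∃ N₀ : ℕ, ∀ N : ℕ, N₀ ≤ N →
    ∀ (K : Type) [Field K] [NumberField K]
      (F : Fin (N + 1) → MvPolynomial (Fin (b + 1)) (AlgebraicClosure K)),
      (∀ j, ∃ e, 1 ≤ e ∧ e ≤ e₀ ∧ (F j).IsHomogeneous e) → (∀ j, Squarefree (F j)) →
      (∀ w : Fin (b + 1) → AlgebraicClosure K, w ≠ 0 → {j | eval w (F j) = 0}.ncard ≤ c) →
      ∀ (m : ℕ) (S : Set (MvPolynomial (Fin (m + 1)) K)), (∀ F ∈ S, ∃ d, F.IsHomogeneous d) →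
        ∀ (g : Mor K (AlgebraicClosure K) m b S), g.Finite → (∀ j, FullF g 2 (F j)) →
          Pool.ThmM0.DimMer S 1

/-- THEOREM H for curves and surfaces. -/
def Stmt_HS : Prop :=
  ∀ b e₀ c : ℕ, 1 ≤ b → b ≤ 2 → ∃ N₀ : ℕ, ∀ N : ℕ, N₀ ≤ N →
    ∀ (K : Type) [Field K] [NumberField K]
      (F : Fin (N + 1) → MvPolynomial (Fin (b + 1)) (AlgebraicClosure K)),
      (∀ j, ∃ e, 1 ≤ e ∧ e ≤ e₀ ∧ (F j).IsHomogeneous e) → (∀ j, Squarefree (F j)) →
      (∀ w : Fin (b + 1) → AlgebraicClosure K, w ≠ 0 → {j | eval w (F j) = 0}.ncard ≤ c) →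
      ∀ (m : ℕ) (S : Set (MvPolynomial (Fin (m + 1)) K)), (∀ F ∈ S, ∃ d, F.IsHomogeneous d) →
        ∀ (g : Mor K (AlgebraicClosure K) m b S), g.Finite → (∀ j, FullF g 2 (F j)) →
          (∀ σ : K →+* ℂ, KobayashiHyperbolic (complexPoints S σ) ↔
            ¬ Pool.MCL.CubicImage S (AlgebraicClosure K) (algebraMap K (AlgebraicClosure K))) ∧
          (Pool.MCL.CubicImage S (AlgebraicClosure K) (algebraMap K (AlgebraicClosure K)) →
            ∃ (L : Type) (_ : Field L) (_ : Algebra K L) (_ : FiniteDimensional K L),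
              (points S L).Infinite)

/-- FHS (30 lines), uses DIH M0.PAI P6C (`Pool.MCL.stmt_P6C`).  PROOF of `Stmt_HS`.  As
`MP_f82ddf_V/B_FVS.lean`. -/
def Stmt_FHS : Prop := Stmt_HS

end Pool.MPH
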